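import Mathlib

/-!
# Scalar curvature of bands: definitions

* `pd e i F y`: the derivative of `F` at `y` in the direction `e i` of a basis `e` of coordinate
  vectors;
* `chr`, `ric`, `scal`: the Christoffel symbols, the Ricci curvature and the scalar curvature of the
  metric with coefficient matrix `G`, in the coordinates given by `e`;
* `lap`, `grd`: the Laplace-Beltrami operator and the scalar product of gradients;
* `RMetric m M`: smooth Riemannian metrics on a smooth `m`-manifold `M`, given by their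
  coefficients in the charts of the atlas;
* `coeff h x`: the coefficients of `h` in the preferred chart at `x`;
* `AdmitsPSC m M`: there is a metric on `M` with positive scalar curvature at every point;
* `ConfPSC h`: there is such a metric of the form `exp(2 ψ) h`, with `ψ` smooth on `M`;
* `bandScal h N β f x t`: the scalar curvature at `(x, t)` of the metric
  `N(x)² exp(2 β f(x,t)) dt² + exp(2 f(x,t)) h` on `M × (-1, 1)`.
-/

namespace Pool.Agent.Work.MP_2fa4be_gt

open scoped Manifold ContDiff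

section Coordinates

variable {E ι : Type*} [NormedAddCommGroup E] [NormedSpace ℝ E]

/-- the derivative of `F` at `y` in the direction `e i` -/
noncomputable def pd (e : ι → E) (i : ι) (F : E → ℝ) (y : E) : ℝ := fderiv ℝ F y (e i)

variable [Fintype ι] [DecidableEq ι]

/-- the Christoffel symbol `Γ^k_{ij}` of the metric with coefficient matrix `G` -/
noncomputable def chr (e : ι → E) (G : E → Matrix ι ι ℝ) (k i j : ι) (y : E) : ℝ :=
  (1 / 2) * ∑ l, (G y)⁻¹ k l *
    (pd e i (fun z => G z j l) y + pd e j (fun z => G z i l) y - pd e l (fun z => G z i j) y)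

/-- the Ricci curvature
`R_{jk} = ∂_i Γ^i_{jk} - ∂_j Γ^i_{ik} + Γ^i_{ip} Γ^p_{jk} - Γ^i_{jp} Γ^p_{ik}` -/
noncomputable def ric (e : ι → E) (G : E → Matrix ι ι ℝ) (j k : ι) (y : E) : ℝ :=
  (∑ i, (pd e i (chr e G i j k) y - pd e j (chr e G i i k) y)) +
    ∑ i, ∑ p, (chr e G i i p y * chr e G p j k y - chr e G i j p y * chr e G p i k y)

/-- the scalar curvature `G^{jk} R_{jk}` -/
noncomputable def scal (e : ι → E) (G : E → Matrix ι ι ℝ) (y : E) : ℝ :=
  ∑ j, ∑ k, (G y)⁻¹ j k * ric e G j k y

/-- the Laplace-Beltrami operator `G^{ij} (∂_i ∂_j u - Γ^k_{ij} ∂_k u)` -/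
noncomputable def lap (e : ι → E) (G : E → Matrix ι ι ℝ) (u : E → ℝ) (y : E) : ℝ :=
  ∑ i, ∑ j, (G y)⁻¹ i j * (pd e i (pd e j u) y - ∑ k, chr e G k i j y * pd e k u y)

/-- the scalar product of the gradients of `u` and `v` -/
noncomputable def grd (e : ι → E) (G : E → Matrix ι ι ℝ) (u v : E → ℝ) (y : E) : ℝ :=
  ∑ i, ∑ j, (G y)⁻¹ i j * (pd e i u y * pd e j v y)

/-- the coordinate vectors on `E × ℝ` -/
def fr (e : ι → E) : ι ⊕ Unit → E × ℝ := Sum.elim (fun i => (e i, 0)) (fun _ => (0, 1))

/-- the coefficient matrix of `L² dt² + exp(2 f) G` -/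
noncomputable def bandMat (G : E → Matrix ι ι ℝ) (L f : E × ℝ → ℝ) (z : E × ℝ) :
    Matrix (ι ⊕ Unit) (ι ⊕ Unit) ℝ :=
  Matrix.fromBlocks (Real.exp (2 * f z) • G z.1) 0 0 (Matrix.of fun _ _ => L z ^ 2)

end Coordinates

/-- the model space `ℝ^m` -/
abbrev Eu (m : ℕ) : Type := EuclideanSpace ℝ (Fin m)

/-- the standard basis of `ℝ^m` -/
noncomputable def bas (m : ℕ) (i : Fin m) : Eu m := EuclideanSpace.single i 1

/-- the Jacobi matrix at `y` of the change of coordinates from the chart `c` to the chart `c'` -/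
noncomputable def jac {m : ℕ} {M : Type*} [TopologicalSpace M]
    (c c' : OpenPartialHomeomorph M (Eu m)) (y : Eu m) : Matrix (Fin m) (Fin m) ℝ :=
  Matrix.of fun k i => pd (bas m) i (fun z => c' (c.symm z) k) y

/-- A Riemannian metric on a manifold `M` of dimension `m`: for every chart `c` of the atlas a matrix
`co c y` of coefficients at the point with coordinates `y`, smooth in `y`, symmetric and positive
definite, with the transformation law of a covariant 2-tensor for two charts `c`, `c'`. -/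
structure RMetric (m : ℕ) (M : Type*) [TopologicalSpace M] [ChartedSpace (Eu m) M] where
  /-- the coefficient matrix -/
  co : OpenPartialHomeomorph M (Eu m) → Eu m → Matrix (Fin m) (Fin m) ℝ
  smooth : ∀ c ∈ atlas (Eu m) M, ∀ i j, ContDiffOn ℝ ∞ (fun y => co c y i j) c.target
  pos : ∀ c ∈ atlas (Eu m) M, ∀ y ∈ c.target, (co c y).PosDef
  compat : ∀ c ∈ atlas (Eu m) M, ∀ c' ∈ atlas (Eu m) M, ∀ y ∈ c.target, c.symm y ∈ c'.source →
    co c y = (jac c c' y).transpose * co c' (c' (c.symm y)) * jac c c' y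

variable {m : ℕ} {M : Type*} [TopologicalSpace M] [ChartedSpace (Eu m) M]

/-- smooth functions on `M` -/
def SmoothFun (m : ℕ) {M : Type*} [TopologicalSpace M] [ChartedSpace (Eu m) M] (N : M → ℝ) :
    Prop :=
  ContMDiff (𝓡 m) 𝓘(ℝ) ∞ N

/-- functions which are smooth on `M × (-1, 1)` -/
def SmoothBand (m : ℕ) {M : Type*} [TopologicalSpace M] [ChartedSpace (Eu m) M]
    (f : M × ℝ → ℝ) : Prop :=
  ContMDiffOn ((𝓡 m).prod 𝓘(ℝ)) 𝓘(ℝ) ∞ f (Set.univ ×ˢ Set.Ioo (-1) 1)

/-- the point with coordinates `y` in the preferred chart at `x` -/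
noncomputable def pt (x : M) (y : Eu m) : M := (chartAt (Eu m) x).symm y

/-- the coefficients of the metric `h` in the preferred chart at `x` -/
noncomputable def coeff (h : RMetric m M) (x : M) : Eu m → Matrix (Fin m) (Fin m) ℝ :=
  h.co (chartAt (Eu m) x)

/-- the scalar curvature of `h` at `x` -/
noncomputable def scalAt (h : RMetric m M) (x : M) : ℝ :=
  scal (bas m) (coeff h x) (chartAt (Eu m) x x)

/-- `M` admits a metric of positive scalar curvature -/
def AdmitsPSC (m : ℕ) (M : Type*) [TopologicalSpace M] [ChartedSpace (Eu m) M] : Prop :=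
  ∃ h : RMetric m M, ∀ x, 0 < scalAt h x

/-- some metric `exp(2 ψ) h` in the conformal class of `h` has positive scalar curvature -/
def ConfPSC (h : RMetric m M) : Prop :=
  ∃ (h' : RMetric m M) (ψ : M → ℝ), SmoothFun m ψ ∧
    (∀ c ∈ atlas (Eu m) M, ∀ y ∈ c.target, h'.co c y = Real.exp (2 * ψ (c.symm y)) • h.co c y) ∧
    ∀ x, 0 < scalAt h' x

/-- the scalar curvature at `(x, t)` of the metric `N(x)² exp(2 β f(x,t)) dt² + exp(2 f(x,t)) h` -/
noncomputable def bandScal (h : RMetric m M) (N : M → ℝ) (β : ℝ) (f : M × ℝ → ℝ) (x : M) (t : ℝ) :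
    ℝ :=
  scal (fr (bas m)) (bandMat (coeff h x)
    (fun z => N (pt x z.1) * Real.exp (β * f (pt x z.1, z.2))) (fun z => f (pt x z.1, z.2)))
    (chartAt (Eu m) x x, t)

/-- the length of `{x} × (-1, 1)` for the metric `N(x)² exp(2 β f(x,t)) dt² + exp(2 f(x,t)) h` -/
noncomputable def segLen (N : M → ℝ) (β : ℝ) (f : M × ℝ → ℝ) (x : M) : ENNReal :=
  ∫⁻ t in Set.Ioo (-1 : ℝ) 1, ENNReal.ofReal (N x * Real.exp (β * f (x, t)))

end Pool.Agent.Work.MP_2fa4be_gt
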