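import Pool.Agent.Work.MP_2fa4be_gt.Riem

/-!
# Module Len: a compact subinterval on which all lengths are large (proved)
-/

namespace Pool.Agent.Work.MP_2fa4be_gt

open MeasureTheory

theorem int_continuous {M : Type*} [TopologicalSpace M] {a b : ℝ} (hab : a ≤ b)
    {g : M × ℝ → ℝ} (hg : ContinuousOn g (Set.univ ×ˢ Set.Icc a b)) :
    Continuous fun x => ∫ t in a..b, g (x, t) := by
  have h1 := clamp_comp hab hg
  have h2 : (fun x => ∫ t in a..b, g (x, t)) = fun x => ∫ t in a..b, g (x, clamp a b t) := by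
    funext x
    refine intervalIntegral.integral_congr fun t ht => ?_
    rw [Set.uIcc_of_le hab] at ht
    rw [clamp_of_mem ht]
  rw [h2]
  exact intervalIntegral.continuous_parametric_intervalIntegral_of_continuous'
    (f := fun x t => g (x, clamp a b t)) h1 a b

theorem exists_interval {M : Type*} [TopologicalSpace M] [CompactSpace M] [Nonempty M]
    {g : M × ℝ → ℝ} (hg : ContinuousOn g (Set.univ ×ˢ Set.Ioo (-1) 1)) (hg0 : ∀ z, 0 ≤ g z)
    {c : ℝ} (hc : 0 ≤ c)
    (h : ∀ x, ENNReal.ofReal c < ∫⁻ t in Set.Ioo (-1 : ℝ) 1, ENNReal.ofReal (g (x, t))) :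
    ∃ a₀ b₀ ε : ℝ, -1 < a₀ ∧ a₀ < b₀ ∧ b₀ < 1 ∧ 0 < ε ∧ ∀ x, c + ε ≤ ∫ t in a₀..b₀, g (x, t) := by
  set a : ℕ → ℝ := fun k => -1 + 1 / ((k : ℝ) + 2) with ha
  set b : ℕ → ℝ := fun k => 1 - 1 / ((k : ℝ) + 2) with hb
  have hk1 : ∀ k : ℕ, (0 : ℝ) < 1 / ((k : ℝ) + 2) := fun k => by positivity
  have hk2 : ∀ k : ℕ, 1 / ((k : ℝ) + 2) ≤ 1 / 2 := fun k => by
    apply one_div_le_one_div_of_le (by norm_num)
    have : (0 : ℝ) ≤ k := Nat.cast_nonneg k
    linarith
  have hanti : ∀ {k l : ℕ}, k ≤ l → 1 / ((l : ℝ) + 2) ≤ 1 / ((k : ℝ) + 2) := fun {k l} hkl => by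
    apply one_div_le_one_div_of_le (by positivity)
    have : (k : ℝ) ≤ l := by exact_mod_cast hkl
    linarith
  have hab : ∀ k, a k ≤ b k := fun k => by
    simp only [ha, hb]
    linarith [hk2 k]
  have ha1 : ∀ k, -1 < a k := fun k => by
    simp only [ha]
    linarith [hk1 k]
  have hb1 : ∀ k, b k < 1 := fun k => by
    simp only [hb]
    linarith [hk1 k]
  have hsub : ∀ k, Set.Icc (a k) (b k) ⊆ Set.Ioo (-1) 1 := fun k t ht =>
    ⟨lt_of_lt_of_le (ha1 k) ht.1, lt_of_le_of_lt ht.2 (hb1 k)⟩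
  have hmono : ∀ {k l : ℕ}, k ≤ l → Set.Ioc (a k) (b k) ⊆ Set.Ioc (a l) (b l) := by
    intro k l hkl t ht
    have := hanti hkl
    simp only [ha, hb] at ht ⊢
    exact ⟨by linarith [ht.1], by linarith [ht.2]⟩
  have hcont : ∀ k, ContinuousOn g (Set.univ ×ˢ Set.Icc (a k) (b k)) := fun k =>
    hg.mono (Set.prod_mono_right (hsub k))
  have hsl : ∀ x k, ContinuousOn (fun t => g (x, t)) (Set.Icc (a k) (b k)) := fun x k =>
    (hcont k).comp (by fun_prop) fun t ht => ⟨Set.mem_univ _, ht⟩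
  have hunion : Set.Ioo (-1 : ℝ) 1 = ⋃ k, Set.Ioc (a k) (b k) := by
    apply Set.Subset.antisymm
    · intro t ht
      have h1 : 0 < min (t + 1) (1 - t) := lt_min (by linarith [ht.1]) (by linarith [ht.2])
      obtain ⟨k, hk⟩ := exists_nat_one_div_lt h1
      rw [Set.mem_iUnion]
      refine ⟨k, ?_⟩
      have h2 : 1 / ((k : ℝ) + 2) ≤ 1 / ((k : ℝ) + 1) :=
        one_div_le_one_div_of_le (by positivity) (by linarith)
      have h3 := lt_of_lt_of_le hk (min_le_left _ _)
      have h4 := lt_of_lt_of_le hk (min_le_right _ _)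
      simp only [ha, hb]
      exact ⟨by linarith, by linarith⟩
    · intro t ht
      rw [Set.mem_iUnion] at ht
      obtain ⟨k, hk⟩ := ht
      exact hsub k ⟨hk.1.le, hk.2⟩
  have hint : ∀ x k, ∫⁻ t in Set.Ioc (a k) (b k), ENNReal.ofReal (g (x, t)) =
      ENNReal.ofReal (∫ t in (a k)..(b k), g (x, t)) := by
    intro x k
    rw [intervalIntegral.integral_of_le (hab k)]
    rw [ofReal_integral_eq_lintegral_ofReal]
    · exact ((hsl x k).integrableOn_Icc).mono_set Set.Ioc_subset_Icc_self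
    · exact Filter.Eventually.of_forall fun t => hg0 _
  have hlt : ∀ x, ∃ k, c < ∫ t in (a k)..(b k), g (x, t) := by
    intro x
    have h1 := h x
    rw [hunion, setLIntegral_iUnion_of_directed _
      (directed_of_isDirected_le (fun k l hkl => hmono hkl))] at h1
    rw [lt_iSup_iff] at h1
    obtain ⟨k, hk⟩ := h1
    rw [hint x k] at hk
    exact ⟨k, (ENNReal.ofReal_lt_ofReal_iff_of_nonneg hc).1 hk⟩
  have hIc : ∀ k, Continuous fun x => ∫ t in (a k)..(b k), g (x, t) := fun k =>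
    int_continuous (hab k) (hcont k)
  have hImono : ∀ {k l : ℕ}, k ≤ l → ∀ x, ∫ t in (a k)..(b k), g (x, t) ≤
      ∫ t in (a l)..(b l), g (x, t) := by
    intro k l hkl x
    rw [intervalIntegral.integral_of_le (hab k), intervalIntegral.integral_of_le (hab l)]
    refine setIntegral_mono_set ?_ ?_ ?_
    · exact ((hsl x l).integrableOn_Icc).mono_set Set.Ioc_subset_Icc_self
    · exact Filter.Eventually.of_forall fun t => hg0 _
    · exact (hmono hkl).eventuallyLE
  obtain ⟨k, hk⟩ := isCompact_univ.elim_directed_cover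
    (fun k => {x | c < ∫ t in (a k)..(b k), g (x, t)})
    (fun k => isOpen_lt continuous_const (hIc k))
    (fun x _ => Set.mem_iUnion.2 (hlt x))
    (directed_of_isDirected_le (fun k l hkl x hx => lt_of_lt_of_le hx (hImono hkl x)))
  obtain ⟨x₀, -, hx₀⟩ := isCompact_univ.exists_isMinOn Set.univ_nonempty (hIc k).continuousOn
  have hlt0 : c < ∫ t in (a k)..(b k), g (x₀, t) := hk (Set.mem_univ x₀)
  refine ⟨a k, b k, (∫ t in (a k)..(b k), g (x₀, t)) - c, ha1 k, ?_, hb1 k, by linarith,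
    fun x => ?_⟩
  · rcases (hab k).lt_or_eq with h1 | h1
    · exact h1
    · exfalso
      rw [h1, intervalIntegral.integral_same] at hlt0
      linarith
  · have := hx₀ (Set.mem_univ x)
    have h2 : (∫ t in (a k)..(b k), g (x₀, t)) ≤ ∫ t in (a k)..(b k), g (x, t) := this
    linarith

end Pool.Agent.Work.MP_2fa4be_gt
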