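import Pool.Agent.Work.MP_2fa4be_gt.TimeC

/-!
# Module TimeZ: positive weights for `β = 0` (proved)
-/

namespace Pool.Agent.Work.MP_2fa4be_gt

open Real MeasureTheory

/-- normalization of weights -/
theorem normalize {M : Type*} [Nonempty M] {K : ℕ} {w : Fin K → ℝ} (hw0 : ∀ k, 0 ≤ w k)
    {T : M → Fin K → ℝ} (h : ∀ x, 0 < ∑ k, w k * T x k) :
    ∃ η : Fin K → ℝ, (∀ k, 0 ≤ η k) ∧ ∑ k, η k = 1 ∧ ∀ x, 0 < ∑ k, η k * T x k := by
  have hS : 0 < ∑ k, w k := by
    by_contra hcon
    push Not at hcon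
    have h1 : ∑ k, w k = 0 := le_antisymm hcon (Finset.sum_nonneg fun k _ => hw0 k)
    have h2 : ∀ k, w k = 0 := fun k =>
      (Finset.sum_eq_zero_iff_of_nonneg (fun k _ => hw0 k)).1 h1 k (Finset.mem_univ k)
    obtain ⟨x⟩ := (inferInstance : Nonempty M)
    have h3 := h x
    rw [Finset.sum_eq_zero fun k _ => by rw [h2 k, zero_mul]] at h3
    exact lt_irrefl _ h3
  refine ⟨fun k => (∑ j, w j)⁻¹ * w k, fun k => mul_nonneg (inv_nonneg.2 hS.le) (hw0 k), ?_,
    fun x => ?_⟩
  · rw [← Finset.mul_sum, inv_mul_cancel₀ hS.ne']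
  · have h1 := mul_pos (inv_pos.2 hS) (h x)
    rw [Finset.mul_sum] at h1
    refine lt_of_lt_of_eq h1 (Finset.sum_congr rfl fun k _ => ?_)
    ring

theorem time_zero {M : Type*} [TopologicalSpace M] [CompactSpace M] [Nonempty M]
    {n a₀ b₀ : ℝ} (hn : 0 < n) {N : M → ℝ} (hNc : Continuous N) (hN0 : ∀ x, 0 < N x)
    {f f1 f2 : M × ℝ → ℝ} (hab : a₀ < b₀)
    (cf : ContinuousOn f (Set.univ ×ˢ Set.Icc a₀ b₀))
    (cf1 : ContinuousOn f1 (Set.univ ×ˢ Set.Icc a₀ b₀))
    (cf2 : ContinuousOn f2 (Set.univ ×ˢ Set.Icc a₀ b₀))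
    (df : ∀ x, ∀ t ∈ Set.Icc a₀ b₀, HasDerivAt (fun s => f (x, s)) (f1 (x, t)) t)
    (df1 : ∀ x, ∀ t ∈ Set.Icc a₀ b₀, HasDerivAt (fun s => f1 (x, s)) (f2 (x, t)) t)
    (hlen : ∀ x, 2 * π / n < N x * (b₀ - a₀)) :
    ∃ (K : ℕ) (τ η : Fin K → ℝ), (∀ k, τ k ∈ Set.Icc a₀ b₀) ∧ (∀ k, 0 ≤ η k) ∧ ∑ k, η k = 1 ∧
      ∀ x, 0 < ∑ k, η k * tF n 0 (N x) (f (x, τ k)) (f1 (x, τ k)) (f2 (x, τ k)) := by
  have hba : 0 < b₀ - a₀ := sub_pos.2 hab
  have hI : Set.uIcc a₀ b₀ = Set.Icc a₀ b₀ := Set.uIcc_of_le hab.le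
  set l : ℝ := π / (b₀ - a₀) with hl
  have hlpos : 0 < l := by
    have := pi_pos
    positivity
  have hlb : l * (b₀ - a₀) = π := by
    rw [hl]
    field_simp
  have hslice : ∀ x, ContinuousOn (fun t => f (x, t)) (Set.Icc a₀ b₀) := by
    intro x
    exact cf.comp (by fun_prop) fun t ht => ⟨Set.mem_univ _, ht⟩
  have hslice1 : ∀ x, ContinuousOn (fun t => f1 (x, t)) (Set.Icc a₀ b₀) := by
    intro x
    exact cf1.comp (by fun_prop) fun t ht => ⟨Set.mem_univ _, ht⟩
  have hslice2 : ∀ x, ContinuousOn (fun t => f2 (x, t)) (Set.Icc a₀ b₀) := by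
    intro x
    exact cf2.comp (by fun_prop) fun t ht => ⟨Set.mem_univ _, ht⟩
  have hlin : ∀ t : ℝ, HasDerivAt (fun t => l * (t - a₀)) l t := by
    intro t
    have := ((hasDerivAt_id t).sub_const a₀).const_mul l
    simpa using this
  have hsin0 : ∀ t ∈ Set.Icc a₀ b₀, 0 ≤ sin (l * (t - a₀)) := by
    intro t ht
    apply sin_nonneg_of_nonneg_of_le_pi
    · exact mul_nonneg hlpos.le (by linarith [ht.1])
    · rw [← hlb]
      exact mul_le_mul_of_nonneg_left (by linarith [ht.2]) hlpos.le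
  set H : M × ℝ → ℝ := fun z => sin (l * (z.2 - a₀)) *
    tF n 0 (N z.1) (f z) (f1 z) (f2 z) with hH
  have hpos : ∀ x, 0 < ∫ s in a₀..b₀, H (x, s) := by
    intro x
    have hNx := hN0 x
    have hibp := ibp2 (a := a₀) (b := b₀) (E := fun t => sin (l * (t - a₀)))
      (E1 := fun t => l * cos (l * (t - a₀))) (P := fun t => l * cos (l * (t - a₀)))
      (P1 := fun t => -(l ^ 2 * sin (l * (t - a₀))))
      (V := fun t => n / 2 * f1 (x, t) * exp (n / 2 * f (x, t)))
      (V1 := fun t => n / 2 * (exp (n / 2 * f (x, t)) * (f2 (x, t) + n / 2 * f1 (x, t) ^ 2)))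
      (W := fun t => exp (n / 2 * f (x, t))) (w := fun _ => 1)
      (fun t _ => ((hlin t).sin).congr_deriv (by ring))
      (fun t _ => (((hlin t).cos).const_mul l).congr_deriv (by ring))
      (fun t ht => by
        rw [hI] at ht
        have h1 := df x t ht
        have h2 := df1 x t ht
        refine ((h2.const_mul (n / 2)).mul ((h1.const_mul (n / 2)).exp)).congr_deriv ?_
        ring)
      (fun t ht => by
        rw [hI] at ht
        have h1 := df x t ht
        refine ((h1.const_mul (n / 2)).exp).congr_deriv ?_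
        ring)
      (fun t _ => by ring) (by fun_prop) (by fun_prop) (by
        rw [hI]
        exact continuousOn_const.mul ((continuousOn_const.mul (hslice x)).rexp.mul
          ((hslice2 x).add (continuousOn_const.mul ((hslice1 x).pow 2)))))
      continuousOn_const (by simp) (by rw [hlb, sin_pi])
    have iY : IntervalIntegrable (fun t => sin (l * (t - a₀)) * exp (n / 2 * f (x, t)))
        volume a₀ b₀ := by
      apply ContinuousOn.intervalIntegrable
      rw [hI]
      exact ContinuousOn.mul (by fun_prop) (continuousOn_const.mul (hslice x)).rexp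
    have iV : IntervalIntegrable (fun t => sin (l * (t - a₀)) * (n / 2 *
        (exp (n / 2 * f (x, t)) * (f2 (x, t) + n / 2 * f1 (x, t) ^ 2)))) volume a₀ b₀ := by
      apply ContinuousOn.intervalIntegrable
      rw [hI]
      exact ContinuousOn.mul (by fun_prop) (continuousOn_const.mul
        ((continuousOn_const.mul (hslice x)).rexp.mul
          ((hslice2 x).add (continuousOn_const.mul ((hslice1 x).pow 2)))))
    have hint : ∫ s in a₀..b₀, H (x, s) = n * (∫ t in a₀..b₀,
        sin (l * (t - a₀)) * exp (n / 2 * f (x, t))) + 4 / n * (N x ^ 2)⁻¹ *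
        ∫ t in a₀..b₀, sin (l * (t - a₀)) * (n / 2 *
        (exp (n / 2 * f (x, t)) * (f2 (x, t) + n / 2 * f1 (x, t) ^ 2))) := by
      rw [← intervalIntegral.integral_const_mul, ← intervalIntegral.integral_const_mul,
        ← intervalIntegral.integral_add (iY.const_mul _) (iV.const_mul _)]
      refine intervalIntegral.integral_congr fun t _ => ?_
      rw [hH]
      unfold tF
      dsimp only
      rw [add_zero, sub_zero]
      field_simp
      ring
    have hposY : 0 < ∫ t in a₀..b₀, sin (l * (t - a₀)) * exp (n / 2 * f (x, t)) := by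
      apply intervalIntegral.intervalIntegral_pos_of_pos_on iY _ hab
      intro t ht
      refine mul_pos ?_ (exp_pos _)
      apply sin_pos_of_pos_of_lt_pi
      · exact mul_pos hlpos (by linarith [ht.1])
      · rw [← hlb]
        exact mul_lt_mul_of_pos_left (by linarith [ht.2]) hlpos
    have hP1 : ∫ t in a₀..b₀, -(l ^ 2 * sin (l * (t - a₀))) * exp (n / 2 * f (x, t)) =
        -(l ^ 2) * ∫ t in a₀..b₀, sin (l * (t - a₀)) * exp (n / 2 * f (x, t)) := by
      rw [← intervalIntegral.integral_const_mul]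
      refine intervalIntegral.integral_congr fun t _ => ?_
      ring
    rw [hint, hibp, hP1, hlb, cos_pi, sub_self, mul_zero, cos_zero]
    set Y : ℝ := ∫ t in a₀..b₀, sin (l * (t - a₀)) * exp (n / 2 * f (x, t)) with hY
    have hA : 0 < exp (n / 2 * f (x, b₀)) := exp_pos _
    have hB : 0 < exp (n / 2 * f (x, a₀)) := exp_pos _
    have h1 : 4 / n * (N x ^ 2)⁻¹ * l ^ 2 < n := by
      have h2 : 2 * l < n * N x := by
        have h3 := hlen x
        rw [div_lt_iff₀ hn, ← hlb] at h3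
        have h4 : 2 * l * (b₀ - a₀) < n * N x * (b₀ - a₀) := by linarith
        exact lt_of_mul_lt_mul_right h4 hba.le
      have h3 : (2 * l) ^ 2 < (n * N x) ^ 2 := pow_lt_pow_left₀ h2 (by positivity) two_ne_zero
      have h4 : 4 / n * (N x ^ 2)⁻¹ * l ^ 2 = (2 * l) ^ 2 / (n * N x ^ 2) := by
        field_simp
        ring
      rw [h4, div_lt_iff₀ (by positivity)]
      linarith
    have h5 : 0 < 4 / n * (N x ^ 2)⁻¹ * (l * (exp (n / 2 * f (x, b₀)) +
      exp (n / 2 * f (x, a₀)))) := by positivity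
    have h6 : 0 < (n - 4 / n * (N x ^ 2)⁻¹ * l ^ 2) * Y := mul_pos (by linarith) hposY
    linarith
  have cN : ContinuousOn (fun z : M × ℝ => (N z.1 ^ 2)⁻¹) (Set.univ ×ˢ Set.Icc a₀ b₀) := by
    have h1 : Continuous (fun z : M × ℝ => (N z.1 ^ 2)⁻¹) :=
      ((hNc.comp continuous_fst).pow 2).inv₀ fun z => pow_ne_zero 2 (hN0 z.1).ne'
    exact h1.continuousOn
  have cH : ContinuousOn H (Set.univ ×ˢ Set.Icc a₀ b₀) := by
    rw [hH]
    unfold tF
    refine ContinuousOn.mul (by fun_prop) ?_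
    exact (continuousOn_const.mul (continuousOn_const.mul cf).rexp).add
      (((continuousOn_const.mul cN).mul (continuousOn_const.mul cf).rexp).mul
        (cf2.add (continuousOn_const.mul (cf1.pow 2))))
  obtain ⟨K, sk, hsk, hsum⟩ := riemann_pos hab cH hpos
  obtain ⟨η, h1, h2, h3⟩ := normalize (w := fun k => sin (l * (sk k - a₀)))
    (fun k => hsin0 _ (hsk k))
    (T := fun x k => tF n 0 (N x) (f (x, sk k)) (f1 (x, sk k)) (f2 (x, sk k))) hsum
  exact ⟨K, sk, η, hsk, h1, h2, h3⟩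

end Pool.Agent.Work.MP_2fa4be_gt
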