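import Pool.Agent.Work.MP_2fa4be_gt.Cont
import Pool.Agent.Work.MP_2fa4be_gt.Len
import Pool.Agent.Work.MP_2fa4be_gt.TimeZ

/-!
# Module Main: the width estimate (proved)
-/

namespace Pool.Agent.Work.MP_2fa4be_gt

open scoped Manifold ContDiff Topology
open MeasureTheory

variable {m : ℕ} {M : Type*} [TopologicalSpace M] [ChartedSpace (Eu m) M] [IsManifold (𝓡 m) ∞ M]

omit [IsManifold (𝓡 m) ∞ M] in
theorem nonempty_of_not {h : RMetric m M} (hM : ¬ ConfPSC h) : Nonempty M := by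
  by_contra hne
  rw [not_nonempty_iff] at hne
  exact hM ⟨h, fun _ => 0, contMDiff_const, fun c _ y _ => (hne.false (c.symm y)).elim,
    fun x => (hne.false x).elim⟩

theorem main [CompactSpace M] (hm : 2 ≤ m) (h : RMetric m M) {N : M → ℝ}
    (hN : SmoothFun m N) (hN0 : ∀ x, 0 < N x) {β : ℝ} (hβ0 : 0 ≤ β) (hβ1 : β ≤ 1)
    (hβm : 4 * β ≤ (m : ℝ) + 1) {f : M × ℝ → ℝ} (hf : SmoothBand m f)
    (hs : ∀ x, ∀ t ∈ Set.Ioo (-1 : ℝ) 1, ((m : ℝ) + 1) * m ≤ bandScal h N β f x t)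
    (hM : ¬ ConfPSC h) :
    ∃ x, segLen N β f x ≤ ENNReal.ofReal (2 * Real.pi / ((m : ℝ) + 1)) := by
  have : Nonempty M := nonempty_of_not hM
  by_contra hcon
  push Not at hcon
  have hn : (0 : ℝ) < (m : ℝ) + 1 := by positivity
  have h0 : LocSm m f := locSm_of hf
  have h1 : LocSm m (dt f) := h0.step
  have h2 : LocSm m (dt (dt f)) := h1.step
  have hNc : Continuous N := hN.continuous
  have hg : ContinuousOn (fun z : M × ℝ => N z.1 * Real.exp (β * f z))
      (Set.univ ×ˢ Set.Ioo (-1) 1) :=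
    (hNc.comp continuous_fst).continuousOn.mul (continuousOn_const.mul h0.continuousOn).rexp
  obtain ⟨a₀, b₀, ε, ha, hab, hb, hε, hlen⟩ := exists_interval hg
    (fun z => mul_nonneg (hN0 z.1).le (Real.exp_pos _).le)
    (c := 2 * Real.pi / ((m : ℝ) + 1)) (by positivity) hcon
  have hsub : Set.Icc a₀ b₀ ⊆ Set.Ioo (-1) 1 := fun t ht =>
    ⟨lt_of_lt_of_le ha ht.1, lt_of_le_of_lt ht.2 hb⟩
  have hmono : (Set.univ : Set M) ×ˢ Set.Icc a₀ b₀ ⊆ Set.univ ×ˢ Set.Ioo (-1) 1 :=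
    Set.prod_mono_right hsub
  have key : ∃ (K : ℕ) (τ η : Fin K → ℝ), (∀ k, τ k ∈ Set.Icc a₀ b₀) ∧ (∀ k, 0 ≤ η k) ∧
      ∑ k, η k = 1 ∧ ∀ x, 0 < ∑ k, η k * tF ((m : ℝ) + 1) β (N x) (f (x, τ k))
        (dt f (x, τ k)) (dt (dt f) (x, τ k)) := by
    rcases hβ0.eq_or_lt with hβ | hβ
    · subst hβ
      refine time_zero hn hNc hN0 hab (h0.continuousOn.mono hmono) (h1.continuousOn.mono hmono)
        (h2.continuousOn.mono hmono) (fun x t ht => h0.hasDerivAt x (hsub ht))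
        (fun x t ht => h1.hasDerivAt x (hsub ht)) fun x => ?_
      have h3 := hlen x
      have h4 : ∫ t in a₀..b₀, N x * Real.exp (0 * f (x, t)) = N x * (b₀ - a₀) := by
        simp only [zero_mul, Real.exp_zero, mul_one, intervalIntegral.integral_const,
          smul_eq_mul]
        ring
      rw [h4] at h3
      linarith
    · exact time_pos hn hβ hβm hNc hN0 hab (h0.continuousOn.mono hmono)
        (h1.continuousOn.mono hmono) (h2.continuousOn.mono hmono)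
        (fun x t ht => h0.hasDerivAt x (hsub ht)) (fun x t ht => h1.hasDerivAt x (hsub ht))
        hε hlen
  obtain ⟨K, τ, η, hτ, hη, hη1, hsum⟩ := key
  exact hM (psc_of_time hm h hN hN0 hβ1 hf hs
    ⟨K, τ, η, fun k => hsub (hτ k), hη, hη1, hsum⟩)

end Pool.Agent.Work.MP_2fa4be_gt
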