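import Pool.Agent.Work.MP_2fa4be_gt.ConfRic

/-!
# Module Band: Christoffel symbols of a band metric (everything here is proved)
-/

namespace Pool.Agent.Work.MP_2fa4be_gt

open scoped ContDiff Topology

variable {E ι : Type*} [NormedAddCommGroup E] [NormedSpace ℝ E] [Fintype ι] [DecidableEq ι]
  {e : ι → E} {y : E} {U : Set E} {I : Set ℝ} {t : ℝ} {G : E → Matrix ι ι ℝ} {f u v : E → ℝ}
  {L k : E × ℝ → ℝ}

theorem grd_cm (h : GoodMat U G) (hy : y ∈ U) :
    grd e (cm f G) u v y = Real.exp (-(2 * f y)) * grd e G u v y := by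
  unfold grd
  rw [cm_inv h hy]
  simp only [Matrix.smul_apply, smul_eq_mul, mul_assoc, ← Finset.mul_sum]

theorem lap_cm (h : GoodMat U G) (hf : ContDiffOn ℝ ∞ f U) (hy : y ∈ U) :
    lap e (cm f G) u y = Real.exp (-(2 * f y)) *
      (lap e G u y + ((Fintype.card ι : ℝ) - 2) * grd e G f u y) := by
  have h1 : ∀ i j, (cm f G y)⁻¹ i j * (pd e i (pd e j u) y -
      ∑ k, chr e (cm f G) k i j y * pd e k u y) = Real.exp (-(2 * f y)) *
      ((G y)⁻¹ i j * (pd e i (pd e j u) y - ∑ k, chr e G k i j y * pd e k u y) -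
        (G y)⁻¹ i j * (pd e j f y * pd e i u y) - (G y)⁻¹ i j * (pd e i f y * pd e j u y) +
        (G y)⁻¹ i j * G y j i * ∑ k, up e G f k y * pd e k u y) := by
    intro i j
    have h2 : ∀ k, chr e (cm f G) k i j y * pd e k u y = chr e G k i j y * pd e k u y +
        (if k = i then pd e j f y * pd e k u y else 0) +
        (if k = j then pd e i f y * pd e k u y else 0) -
        G y i j * (up e G f k y * pd e k u y) := by
      intro k
      rw [chr_cm h hf hy]
      split_ifs <;> ring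
    rw [Finset.sum_congr rfl fun k _ => h2 k, Finset.sum_sub_distrib, Finset.sum_add_distrib,
      Finset.sum_add_distrib, ← Finset.mul_sum, cm_inv h hy, Matrix.smul_apply, smul_eq_mul,
      h.symm hy j i]
    simp only [Finset.sum_ite_eq', Finset.mem_univ, if_true]
    ring
  have h3 : ∑ i, ∑ j, (G y)⁻¹ i j * (pd e j f y * pd e i u y) = grd e G f u y := by
    rw [grd_comm h hy]
    unfold grd
    exact Finset.sum_congr rfl fun i _ => Finset.sum_congr rfl fun j _ => by ring
  have h4 : ∑ i, ∑ j, (G y)⁻¹ i j * (pd e i f y * pd e j u y) = grd e G f u y := rfl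
  have h5 : ∑ i, ∑ j, (G y)⁻¹ i j * G y j i * ∑ k, up e G f k y * pd e k u y =
      (Fintype.card ι : ℝ) * grd e G f u y := by
    rw [grd_eq h hy]
    simp only [← Finset.sum_mul]
    congr 1
    rw [Finset.sum_congr rfl fun i _ => h.inv_mul hy i i]
    simp
  unfold lap
  simp only [h1, ← Finset.mul_sum, Finset.sum_add_distrib, Finset.sum_sub_distrib]
  rw [h3, h4, h5]
  ring

/-- the slice of a function -/
def sl (t : ℝ) (F : E × ℝ → ℝ) (z : E) : ℝ := F (z, t)

omit [Fintype ι] [DecidableEq ι] in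
theorem pd_inl {F : E × ℝ → ℝ} (hF : DifferentiableAt ℝ F (y, t)) (i : ι) :
    pd (fr e) (Sum.inl i) F (y, t) = pd e i (sl t F) y := by
  unfold pd
  have h1 : HasFDerivAt (fun z : E => (z, t)) (ContinuousLinearMap.inl ℝ E ℝ) y :=
    (hasFDerivAt_id y).prodMk (hasFDerivAt_const t y)
  have h2 : HasFDerivAt (sl t F) ((fderiv ℝ F (y, t)).comp (ContinuousLinearMap.inl ℝ E ℝ)) y :=
    HasFDerivAt.comp (g := F) y hF.hasFDerivAt h1
  rw [h2.fderiv]
  simp [fr]

omit [Fintype ι] [DecidableEq ι] in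
theorem pd_inr {F : E × ℝ → ℝ} (hF : DifferentiableAt ℝ F (y, t)) :
    pd (fr e) (Sum.inr ()) F (y, t) = deriv (fun s => F (y, s)) t := by
  unfold pd
  have h1 : HasDerivAt (fun s : ℝ => (y, s)) ((0 : E), (1 : ℝ)) t :=
    (hasDerivAt_const t y).prodMk (hasDerivAt_id t)
  have h2 : HasDerivAt (fun s => F (y, s)) (fderiv ℝ F (y, t) (0, 1)) t :=
    HasFDerivAt.comp_hasDerivAt (l := F) t hF.hasFDerivAt h1
  rw [h2.deriv]
  simp [fr]

end Pool.Agent.Work.MP_2fa4be_gt
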