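import Pool.Agent.Work.MP_2fa4be_gt.Band

/-!
# Module BandChr: Christoffel symbols of a band metric (everything here is proved)
-/

namespace Pool.Agent.Work.MP_2fa4be_gt

open scoped ContDiff Topology

variable {E ι : Type*} [NormedAddCommGroup E] [NormedSpace ℝ E] [Fintype ι] [DecidableEq ι]
  {e : ι → E} {y : E} {U : Set E} {I : Set ℝ} {t : ℝ} {G : E → Matrix ι ι ℝ}
  {L f : E × ℝ → ℝ}

/-- `L² dt² + exp(2 f) G` is a smooth metric on `U × I` -/
structure BandHyp (U : Set E) (I : Set ℝ) (G : E → Matrix ι ι ℝ) (L f : E × ℝ → ℝ) : Prop where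
  good : GoodMat U G
  openI : IsOpen I
  smf : ContDiffOn ℝ ∞ f (U ×ˢ I)
  smL : ContDiffOn ℝ ∞ L (U ×ˢ I)
  pos : ∀ z ∈ U ×ˢ I, 0 < L z

variable (h : BandHyp U I G L f)

include h

omit [Fintype ι] [DecidableEq ι] in
theorem BandHyp.openW : IsOpen (U ×ˢ I) := h.good.isOpen.prod h.openI

omit [Fintype ι] [DecidableEq ι] in
theorem BandHyp.sl_smooth {F : E × ℝ → ℝ} (hF : ContDiffOn ℝ ∞ F (U ×ˢ I)) (ht : t ∈ I) :
    ContDiffOn ℝ ∞ (sl t F) U := by
  have h1 : ContDiffOn ℝ ∞ (fun z : E => (z, t)) U := (contDiff_id.prodMk contDiff_const).contDiffOn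
  exact hF.comp h1 fun z hz => ⟨hz, ht⟩

omit [Fintype ι] [DecidableEq ι] in
theorem BandHyp.mem (hy : y ∈ U) (ht : t ∈ I) : (y, t) ∈ U ×ˢ I := ⟨hy, ht⟩

omit [Fintype ι] [DecidableEq ι] in
theorem BandHyp.dAt {F : E × ℝ → ℝ} (hF : ContDiffOn ℝ ∞ F (U ×ˢ I)) (hy : y ∈ U) (ht : t ∈ I) :
    DifferentiableAt ℝ F (y, t) := diffAt h.openW hF (h.mem hy ht)

theorem BandHyp.inv (hy : y ∈ U) (ht : t ∈ I) : (bandMat G L f (y, t))⁻¹ =
    Matrix.fromBlocks ((cm (sl t f) G y)⁻¹) 0 0 (Matrix.of fun _ _ => (L (y, t) ^ 2)⁻¹) := by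
  have hL := (h.pos _ (h.mem hy ht)).ne'
  apply Matrix.inv_eq_right_inv
  unfold bandMat
  rw [Matrix.fromBlocks_multiply]
  have h1 : cm (sl t f) G y * (cm (sl t f) G y)⁻¹ = 1 :=
    Matrix.mul_nonsing_inv _ (IsUnit.mk0 _ ((h.good.cm (h.sl_smooth h.smf ht)).det_ne hy))
  have h2 : (Real.exp (2 * f (y, t)) • G (y, t).1) = cm (sl t f) G y := rfl
  rw [h2]
  simp only [Matrix.mul_zero, Matrix.zero_mul, add_zero, zero_add]
  rw [h1, ← Matrix.fromBlocks_one]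
  congr 1
  ext i j
  rw [Matrix.mul_apply]
  simp [Matrix.one_apply, hL]

/-- first derivatives of the coefficients -/
theorem BandHyp.pd_ss (hy : y ∈ U) (ht : t ∈ I) (k i j : ι) :
    pd (fr e) (Sum.inl k) (fun z => bandMat G L f z (Sum.inl i) (Sum.inl j)) (y, t) =
      pd e k (fun z => cm (sl t f) G z i j) y := by
  have h1 : ContDiffOn ℝ ∞ (fun z : E × ℝ => Real.exp (2 * f z) * G z.1 i j) (U ×ˢ I) := by
    refine (Real.contDiff_exp.comp_contDiffOn (contDiffOn_const.mul h.smf)).mul ?_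
    exact (h.good.smooth i j).comp contDiff_fst.contDiffOn fun z hz => hz.1
  exact pd_inl (h.dAt h1 hy ht) k

theorem BandHyp.pd_sst (hy : y ∈ U) (ht : t ∈ I) (i j : ι) :
    pd (fr e) (Sum.inr ()) (fun z => bandMat G L f z (Sum.inl i) (Sum.inl j)) (y, t) =
      2 * pd (fr e) (Sum.inr ()) f (y, t) * cm (sl t f) G y i j := by
  have hf := h.dAt h.smf hy ht
  have h2 : DifferentiableAt ℝ (fun z => 2 * f z) (y, t) := hf.const_mul 2
  have h3 : ContDiffOn ℝ ∞ (fun z : E × ℝ => G z.1 i j) (U ×ˢ I) :=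
    (h.good.smooth i j).comp contDiff_fst.contDiffOn fun z hz => hz.1
  have h4 := h.dAt h3 hy ht
  have h5 : pd (fr e) (Sum.inr ()) (fun z : E × ℝ => G z.1 i j) (y, t) = 0 := by
    rw [pd_inr h4]
    exact deriv_const t (G y i j)
  change pd (fr e) (Sum.inr ()) (fun z : E × ℝ => Real.exp (2 * f z) * G z.1 i j) (y, t) = _
  rw [pd_mul h2.exp h4, pd_exp h2, pd_const_mul hf, h5]
  change _ = 2 * pd (fr e) (Sum.inr ()) f (y, t) * (Real.exp (2 * f (y, t)) * G y i j)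
  ring

theorem BandHyp.pd_tt (hy : y ∈ U) (ht : t ∈ I) (a : ι ⊕ Unit) :
    pd (fr e) a (fun z => bandMat G L f z (Sum.inr ()) (Sum.inr ())) (y, t) =
      2 * L (y, t) * pd (fr e) a L (y, t) := by
  have h1 := h.dAt h.smL hy ht
  have h2 : (fun z => bandMat G L f z (Sum.inr ()) (Sum.inr ())) = fun z => L z * L z := by
    funext z
    change L z ^ 2 = _
    ring
  rw [h2, pd_mul h1 h1]
  ring

omit h in
theorem pd_st (a : ι ⊕ Unit) (i : ι) (z₀ : E × ℝ) :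
    pd (fr e) a (fun z => bandMat G L f z (Sum.inl i) (Sum.inr ())) z₀ = 0 :=
  pd_const 0 a

omit h in
theorem pd_ts (a : ι ⊕ Unit) (i : ι) (z₀ : E × ℝ) :
    pd (fr e) a (fun z => bandMat G L f z (Sum.inr ()) (Sum.inl i)) z₀ = 0 :=
  pd_const 0 a

omit h [NormedAddCommGroup E] [NormedSpace ℝ E] [Fintype ι] [DecidableEq ι] in
private theorem sum_unit (F : Unit → ℝ) : ∑ x, F x = F () := by
  simp

theorem BandHyp.chr_sss (hy : y ∈ U) (ht : t ∈ I) (k i j : ι) :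
    chr (fr e) (bandMat G L f) (Sum.inl k) (Sum.inl i) (Sum.inl j) (y, t) =
      chr e (cm (sl t f) G) k i j y := by
  unfold chr
  rw [h.inv hy ht]
  simp only [Fintype.sum_sum_type, sum_unit, Matrix.fromBlocks_apply₁₁,
    Matrix.fromBlocks_apply₁₂, Matrix.fromBlocks_apply₂₁, Matrix.fromBlocks_apply₂₂,
    Matrix.zero_apply, Matrix.of_apply, zero_mul, Finset.sum_const_zero, add_zero, zero_add,
    h.pd_ss hy ht, h.pd_sst hy ht, h.pd_tt hy ht, pd_st, pd_ts, sub_zero, zero_sub]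

theorem BandHyp.chr_tss (hy : y ∈ U) (ht : t ∈ I) (i j : ι) :
    chr (fr e) (bandMat G L f) (Sum.inr ()) (Sum.inl i) (Sum.inl j) (y, t) =
      -((L (y, t) ^ 2)⁻¹ * pd (fr e) (Sum.inr ()) f (y, t) * cm (sl t f) G y i j) := by
  unfold chr
  rw [h.inv hy ht]
  simp only [Fintype.sum_sum_type, sum_unit, Matrix.fromBlocks_apply₁₁,
    Matrix.fromBlocks_apply₁₂, Matrix.fromBlocks_apply₂₁, Matrix.fromBlocks_apply₂₂,
    Matrix.zero_apply, Matrix.of_apply, zero_mul, Finset.sum_const_zero, add_zero, zero_add,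
    h.pd_ss hy ht, h.pd_sst hy ht, h.pd_tt hy ht, pd_st, pd_ts, sub_zero, zero_sub]
  ring

theorem BandHyp.chr_sst (hy : y ∈ U) (ht : t ∈ I) (k i : ι) :
    chr (fr e) (bandMat G L f) (Sum.inl k) (Sum.inl i) (Sum.inr ()) (y, t) =
      if k = i then pd (fr e) (Sum.inr ()) f (y, t) else 0 := by
  unfold chr
  rw [h.inv hy ht]
  simp only [Fintype.sum_sum_type, sum_unit, Matrix.fromBlocks_apply₁₁,
    Matrix.fromBlocks_apply₁₂, Matrix.fromBlocks_apply₂₁, Matrix.fromBlocks_apply₂₂,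
    Matrix.zero_apply, Matrix.of_apply, zero_mul, Finset.sum_const_zero, add_zero, zero_add,
    h.pd_ss hy ht, h.pd_sst hy ht, h.pd_tt hy ht, pd_st, pd_ts, sub_zero, zero_sub]
  have hg := h.good.cm (h.sl_smooth h.smf ht)
  have h1 : ∀ l, (cm (sl t f) G y)⁻¹ k l *
      (2 * pd (fr e) (Sum.inr ()) f (y, t) * cm (sl t f) G y i l) =
      2 * pd (fr e) (Sum.inr ()) f (y, t) *
        ((cm (sl t f) G y)⁻¹ k l * cm (sl t f) G y l i) := by
    intro l
    rw [hg.symm hy i l]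
    ring
  rw [Finset.sum_congr rfl fun l _ => h1 l, ← Finset.mul_sum, hg.inv_mul hy]
  split_ifs <;> ring

theorem BandHyp.chr_sts (hy : y ∈ U) (ht : t ∈ I) (k i : ι) :
    chr (fr e) (bandMat G L f) (Sum.inl k) (Sum.inr ()) (Sum.inl i) (y, t) =
      if k = i then pd (fr e) (Sum.inr ()) f (y, t) else 0 := by
  have hg := h.good.cm (h.sl_smooth h.smf ht)
  unfold chr
  rw [h.inv hy ht]
  simp only [Fintype.sum_sum_type, sum_unit, Matrix.fromBlocks_apply₁₁,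
    Matrix.fromBlocks_apply₁₂, Matrix.fromBlocks_apply₂₁, Matrix.fromBlocks_apply₂₂,
    Matrix.zero_apply, Matrix.of_apply, zero_mul, Finset.sum_const_zero, add_zero, zero_add,
    h.pd_ss hy ht, h.pd_sst hy ht, h.pd_tt hy ht, pd_st, pd_ts, sub_zero, zero_sub]
  have h1 : ∀ l, (cm (sl t f) G y)⁻¹ k l *
      (2 * pd (fr e) (Sum.inr ()) f (y, t) * cm (sl t f) G y i l) =
      2 * pd (fr e) (Sum.inr ()) f (y, t) *
        ((cm (sl t f) G y)⁻¹ k l * cm (sl t f) G y l i) := by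
    intro l
    rw [hg.symm hy i l]
    ring
  rw [Finset.sum_congr rfl fun l _ => h1 l, ← Finset.mul_sum, hg.inv_mul hy]
  split_ifs <;> ring

theorem BandHyp.chr_stt (hy : y ∈ U) (ht : t ∈ I) (k : ι) :
    chr (fr e) (bandMat G L f) (Sum.inl k) (Sum.inr ()) (Sum.inr ()) (y, t) =
      -(L (y, t) * up e (cm (sl t f) G) (sl t L) k y) := by
  unfold chr
  rw [h.inv hy ht]
  simp only [Fintype.sum_sum_type, sum_unit, Matrix.fromBlocks_apply₁₁,
    Matrix.fromBlocks_apply₁₂, Matrix.fromBlocks_apply₂₁, Matrix.fromBlocks_apply₂₂,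
    Matrix.zero_apply, Matrix.of_apply, zero_mul, Finset.sum_const_zero, add_zero, zero_add,
    h.pd_ss hy ht, h.pd_sst hy ht, h.pd_tt hy ht, pd_st, pd_ts, sub_zero, zero_sub]
  have h1 : ∀ l, (cm (sl t f) G y)⁻¹ k l *
      -(2 * L (y, t) * pd (fr e) (Sum.inl l) L (y, t)) =
      -(2 * L (y, t)) * ((cm (sl t f) G y)⁻¹ k l * pd e l (sl t L) y) := by
    intro l
    rw [pd_inl (h.dAt h.smL hy ht)]
    ring
  rw [Finset.sum_congr rfl fun l _ => h1 l, ← Finset.mul_sum]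
  unfold up
  ring

theorem BandHyp.chr_tst (hy : y ∈ U) (ht : t ∈ I) (i : ι) :
    chr (fr e) (bandMat G L f) (Sum.inr ()) (Sum.inl i) (Sum.inr ()) (y, t) =
      pd e i (sl t L) y / L (y, t) := by
  have hL := (h.pos _ (h.mem hy ht)).ne'
  unfold chr
  rw [h.inv hy ht]
  simp only [Fintype.sum_sum_type, sum_unit, Matrix.fromBlocks_apply₁₁,
    Matrix.fromBlocks_apply₁₂, Matrix.fromBlocks_apply₂₁, Matrix.fromBlocks_apply₂₂,
    Matrix.zero_apply, Matrix.of_apply, zero_mul, Finset.sum_const_zero, add_zero, zero_add,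
    h.pd_ss hy ht, h.pd_sst hy ht, h.pd_tt hy ht, pd_st, pd_ts, sub_zero, zero_sub]
  rw [pd_inl (h.dAt h.smL hy ht)]
  field_simp

theorem BandHyp.chr_tts (hy : y ∈ U) (ht : t ∈ I) (i : ι) :
    chr (fr e) (bandMat G L f) (Sum.inr ()) (Sum.inr ()) (Sum.inl i) (y, t) =
      pd e i (sl t L) y / L (y, t) := by
  have hL := (h.pos _ (h.mem hy ht)).ne'
  unfold chr
  rw [h.inv hy ht]
  simp only [Fintype.sum_sum_type, sum_unit, Matrix.fromBlocks_apply₁₁,
    Matrix.fromBlocks_apply₁₂, Matrix.fromBlocks_apply₂₁, Matrix.fromBlocks_apply₂₂,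
    Matrix.zero_apply, Matrix.of_apply, zero_mul, Finset.sum_const_zero, add_zero, zero_add,
    h.pd_ss hy ht, h.pd_sst hy ht, h.pd_tt hy ht, pd_st, pd_ts, sub_zero, zero_sub]
  rw [pd_inl (h.dAt h.smL hy ht)]
  field_simp

theorem BandHyp.chr_ttt (hy : y ∈ U) (ht : t ∈ I) :
    chr (fr e) (bandMat G L f) (Sum.inr ()) (Sum.inr ()) (Sum.inr ()) (y, t) =
      pd (fr e) (Sum.inr ()) L (y, t) / L (y, t) := by
  have hL := (h.pos _ (h.mem hy ht)).ne'
  unfold chr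
  rw [h.inv hy ht]
  simp only [Fintype.sum_sum_type, sum_unit, Matrix.fromBlocks_apply₁₁,
    Matrix.fromBlocks_apply₁₂, Matrix.fromBlocks_apply₂₁, Matrix.fromBlocks_apply₂₂,
    Matrix.zero_apply, Matrix.of_apply, zero_mul, Finset.sum_const_zero, add_zero, zero_add,
    h.pd_ss hy ht, h.pd_sst hy ht, h.pd_tt hy ht, pd_st, pd_ts, sub_zero, zero_sub]
  field_simp
  ring

end Pool.Agent.Work.MP_2fa4be_gt
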