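import Pool.Agent.Work.MP_2fa4be_gt.BandChr

/-!
# Module BandGood: the band metric is a smooth metric, derivatives of its Christoffel symbols
(everything here is proved)
-/

namespace Pool.Agent.Work.MP_2fa4be_gt

open scoped ContDiff Topology

variable {E ι : Type*} [NormedAddCommGroup E] [NormedSpace ℝ E] [Fintype ι] [DecidableEq ι]
  {e : ι → E} {y : E} {U : Set E} {I : Set ℝ} {t : ℝ} {G : E → Matrix ι ι ℝ}
  {L f : E × ℝ → ℝ}

theorem BandHyp.goodB (h : BandHyp U I G L f) : GoodMat (U ×ˢ I) (bandMat G L f) where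
  isOpen := h.openW
  smooth := by
    intro i j
    rcases i with i | i <;> rcases j with j | j
    · refine (Real.contDiff_exp.comp_contDiffOn (contDiffOn_const.mul h.smf)).mul ?_
      exact (h.good.smooth i j).comp contDiff_fst.contDiffOn fun z hz => hz.1
    · exact contDiffOn_const
    · exact contDiffOn_const
    · exact h.smL.pow 2
  pos := by
    rintro ⟨y, t⟩ ⟨hy, ht⟩
    have hL := h.pos _ (h.mem hy ht)
    have hA : (Real.exp (2 * f (y, t)) • G y).PosDef := (h.good.pos y hy).smul (Real.exp_pos _)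
    unfold bandMat
    apply Matrix.PosDef.of_dotProduct_mulVec_pos
    · rw [Matrix.isHermitian_fromBlocks_iff]
      refine ⟨hA.isHermitian, ?_, ?_, ?_⟩
      · simp
      · simp
      · ext i j
        simp
    · intro x hx
      have h1 : star x ⬝ᵥ (Matrix.fromBlocks (Real.exp (2 * f (y, t)) • G y) 0 0
          (Matrix.of fun (_ : Unit) (_ : Unit) => L (y, t) ^ 2)).mulVec x =
          star (x ∘ Sum.inl) ⬝ᵥ (Real.exp (2 * f (y, t)) • G y).mulVec (x ∘ Sum.inl) +
            L (y, t) ^ 2 * x (Sum.inr ()) ^ 2 := by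
        rw [Matrix.fromBlocks_mulVec]
        simp only [dotProduct, Fintype.sum_sum_type, Sum.elim_inl, Sum.elim_inr,
          Matrix.zero_mulVec, add_zero, zero_add]
        congr 1
        simp [Matrix.mulVec, dotProduct]
        ring
      rw [h1]
      by_cases h2 : x ∘ Sum.inl = 0
      · have h3 : x (Sum.inr ()) ≠ 0 := by
          intro h4
          apply hx
          funext i
          rcases i with i | i
          · exact congrFun h2 i
          · exact h4
        rw [h2]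
        have : 0 < L (y, t) ^ 2 * x (Sum.inr ()) ^ 2 := by positivity
        simpa using this
      · have h3 := hA.dotProduct_mulVec_pos h2
        have : 0 ≤ L (y, t) ^ 2 * x (Sum.inr ()) ^ 2 := by positivity
        linarith

omit [Fintype ι] [DecidableEq ι] in
theorem pd_inv' {F : E → ℝ} (hF : DifferentiableAt ℝ F y) (h0 : F y ≠ 0) (a : ι) :
    pd e a (fun z => (F z)⁻¹) y = -(pd e a F y) / F y ^ 2 := by
  unfold pd
  have h1 : HasFDerivAt (fun z => (F z)⁻¹) (-(F y ^ 2)⁻¹ • fderiv ℝ F y) y :=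
    (hasDerivAt_inv h0).comp_hasFDerivAt y hF.hasFDerivAt
  rw [h1.fderiv]
  change -(F y ^ 2)⁻¹ * fderiv ℝ F y (e a) = _
  ring

variable (h : BandHyp U I G L f)

include h

theorem BandHyp.chrD (k i j : ι ⊕ Unit) (hy : y ∈ U) (ht : t ∈ I) :
    DifferentiableAt ℝ (chr (fr e) (bandMat G L f) k i j) (y, t) :=
  diffAt h.openW (h.goodB.chr_smooth k i j) (h.mem hy ht)

theorem BandHyp.pd_chr_sss (hy : y ∈ U) (ht : t ∈ I) (a k i j : ι) :
    pd (fr e) (Sum.inl a) (chr (fr e) (bandMat G L f) (Sum.inl k) (Sum.inl i) (Sum.inl j)) (y, t) =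
      pd e a (chr e (cm (sl t f) G) k i j) y := by
  rw [pd_inl (h.chrD _ _ _ hy ht)]
  exact pd_congr_on h.good.isOpen (fun z hz => h.chr_sss hz ht k i j) hy a

theorem BandHyp.pd_chr_stt (hy : y ∈ U) (ht : t ∈ I) (a k : ι) :
    pd (fr e) (Sum.inl a) (chr (fr e) (bandMat G L f) (Sum.inl k) (Sum.inr ()) (Sum.inr ()))
      (y, t) = -(L (y, t) * pd e a (up e (cm (sl t f) G) (sl t L) k) y +
        pd e a (sl t L) y * up e (cm (sl t f) G) (sl t L) k y) := by
  have hg := h.good.cm (h.sl_smooth h.smf ht)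
  have hL := h.sl_smooth h.smL ht
  rw [pd_inl (h.chrD _ _ _ hy ht), pd_congr_on h.good.isOpen
    (F := sl t (chr (fr e) (bandMat G L f) (Sum.inl k) (Sum.inr ()) (Sum.inr ())))
    (G := fun z => -(sl t L z * up e (cm (sl t f) G) (sl t L) k z))
    (fun z hz => h.chr_stt hz ht k) hy a, pd_neg,
    pd_mul (diffAt hg.isOpen hL hy) (diffAt hg.isOpen (up_smooth hg hL k) hy)]
  rfl

theorem BandHyp.pd_chr_tts (hy : y ∈ U) (ht : t ∈ I) (a i : ι) :
    pd (fr e) (Sum.inl a) (chr (fr e) (bandMat G L f) (Sum.inr ()) (Sum.inr ()) (Sum.inl i))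
      (y, t) = pd e a (pd e i (sl t L)) y / L (y, t) -
        pd e a (sl t L) y * pd e i (sl t L) y / L (y, t) ^ 2 := by
  have hL := h.sl_smooth h.smL ht
  have hL0 : sl t L y ≠ 0 := (h.pos _ (h.mem hy ht)).ne'
  have hd1 := diffAt h.good.isOpen hL hy
  have hd2 := diffAt h.good.isOpen (pd_smooth (e := e) h.good.isOpen hL i) hy
  have hdi : DifferentiableAt ℝ (fun z => (sl t L z)⁻¹) y := hd1.inv hL0
  rw [pd_inl (h.chrD _ _ _ hy ht), pd_congr_on h.good.isOpen
    (F := sl t (chr (fr e) (bandMat G L f) (Sum.inr ()) (Sum.inr ()) (Sum.inl i)))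
    (G := fun z => pd e i (sl t L) z * (sl t L z)⁻¹)
    (fun z hz => h.chr_tts hz ht i) hy a, pd_mul hd2 hdi, pd_inv' hd1 hL0]
  change _ = pd e a (pd e i (sl t L)) y / sl t L y - pd e a (sl t L) y * pd e i (sl t L) y /
    sl t L y ^ 2
  ring

/-- time derivatives -/
theorem BandHyp.pdt_chr_sst (hy : y ∈ U) (ht : t ∈ I) (k i : ι) :
    pd (fr e) (Sum.inr ()) (chr (fr e) (bandMat G L f) (Sum.inl k) (Sum.inl i) (Sum.inr ()))
      (y, t) = if k = i then pd (fr e) (Sum.inr ()) (pd (fr e) (Sum.inr ()) f) (y, t) else 0 := by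
  rw [pd_congr_on h.openW (G := fun z => if k = i then pd (fr e) (Sum.inr ()) f z else 0)
    (fun z hz => h.chr_sst hz.1 hz.2 k i) (h.mem hy ht)]
  split_ifs
  · rfl
  · exact pd_const 0 _

theorem BandHyp.pdt_chr_tss (hy : y ∈ U) (ht : t ∈ I) (i j : ι) :
    pd (fr e) (Sum.inr ()) (chr (fr e) (bandMat G L f) (Sum.inr ()) (Sum.inl i) (Sum.inl j))
      (y, t) = -(cm (sl t f) G y i j * (L (y, t) ^ 2)⁻¹ *
        (pd (fr e) (Sum.inr ()) (pd (fr e) (Sum.inr ()) f) (y, t) +
          2 * pd (fr e) (Sum.inr ()) f (y, t) ^ 2 -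
          2 * pd (fr e) (Sum.inr ()) f (y, t) * pd (fr e) (Sum.inr ()) L (y, t) / L (y, t))) := by
  have hL0 : L (y, t) ≠ 0 := (h.pos _ (h.mem hy ht)).ne'
  have hL1 := h.dAt h.smL hy ht
  have hL2 : DifferentiableAt ℝ (fun z => L z * L z) (y, t) := hL1.mul hL1
  have hL3 : L (y, t) * L (y, t) ≠ 0 := mul_ne_zero hL0 hL0
  have hf1 : DifferentiableAt ℝ (pd (fr e) (Sum.inr ()) f) (y, t) :=
    h.dAt (pd_smooth h.openW h.smf (Sum.inr ())) hy ht
  have hC : DifferentiableAt ℝ (fun z => bandMat G L f z (Sum.inl i) (Sum.inl j)) (y, t) :=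
    h.dAt (h.goodB.smooth (Sum.inl i) (Sum.inl j)) hy ht
  have hLi : DifferentiableAt ℝ (fun z => (L z * L z)⁻¹) (y, t) := hL2.inv hL3
  have hAB : DifferentiableAt ℝ (fun z => (L z * L z)⁻¹ * pd (fr e) (Sum.inr ()) f z) (y, t) :=
    hLi.mul hf1
  rw [pd_congr_on h.openW (G := fun z => -((L z * L z)⁻¹ * pd (fr e) (Sum.inr ()) f z *
      bandMat G L f z (Sum.inl i) (Sum.inl j))) (fun z hz => by
      rw [h.chr_tss hz.1 hz.2 i j, pow_two]
      rfl) (h.mem hy ht), pd_neg, pd_mul hAB hC, pd_mul hLi hf1, pd_inv' hL2 hL3,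
      pd_mul hL1 hL1, h.pd_sst hy ht]
  have h1 : bandMat G L f (y, t) (Sum.inl i) (Sum.inl j) = cm (sl t f) G y i j := rfl
  rw [h1]
  field_simp
  ring

end Pool.Agent.Work.MP_2fa4be_gt
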