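import Pool.Agent.Work.MP_2fa4be_gt.BandGood

/-!
# Module BandRic: Ricci and scalar curvature of a band metric (everything here is proved)
-/

namespace Pool.Agent.Work.MP_2fa4be_gt

open scoped ContDiff Topology

variable {E ι : Type*} [NormedAddCommGroup E] [NormedSpace ℝ E] [Fintype ι] [DecidableEq ι]
  {e : ι → E} {y : E} {U : Set E} {I : Set ℝ} {t : ℝ} {G : E → Matrix ι ι ℝ}
  {L f : E × ℝ → ℝ}

private theorem sum_unit (F : Unit → ℝ) : ∑ x, F x = F () := by
  simp

variable (h : BandHyp U I G L f)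

include h

theorem BandHyp.ric_tt (hy : y ∈ U) (ht : t ∈ I) :
    ric (fr e) (bandMat G L f) (Sum.inr ()) (Sum.inr ()) (y, t) =
      -(L (y, t) * lap e (cm (sl t f) G) (sl t L) y) - (Fintype.card ι : ℝ) *
        (pd (fr e) (Sum.inr ()) (pd (fr e) (Sum.inr ()) f) (y, t) +
          pd (fr e) (Sum.inr ()) f (y, t) ^ 2 -
          pd (fr e) (Sum.inr ()) f (y, t) * pd (fr e) (Sum.inr ()) L (y, t) / L (y, t)) := by
  have hL0 : L (y, t) ≠ 0 := (h.pos _ (h.mem hy ht)).ne'
  have hg := h.good.cm (h.sl_smooth h.smf ht)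
  have hL := h.sl_smooth h.smL ht
  have hdiv := div_up (e := e) hg hL hy
  unfold ric
  simp only [Fintype.sum_sum_type, sum_unit, h.chr_sss hy ht, h.chr_tss hy ht, h.chr_sst hy ht,
    h.chr_sts hy ht, h.chr_stt hy ht, h.chr_tst hy ht, h.chr_tts hy ht, h.chr_ttt hy ht,
    h.pd_chr_stt hy ht, h.pdt_chr_sst hy ht, if_true, sub_self, add_zero]
  have h1 : ∀ x, -(L (y, t) * pd e x (up e (cm (sl t f) G) (sl t L) x) y +
      pd e x (sl t L) y * up e (cm (sl t f) G) (sl t L) x y) -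
      pd (fr e) (Sum.inr ()) (pd (fr e) (Sum.inr ()) f) (y, t) =
      -L (y, t) * pd e x (up e (cm (sl t f) G) (sl t L) x) y -
        pd e x (sl t L) y * up e (cm (sl t f) G) (sl t L) x y -
        pd (fr e) (Sum.inr ()) (pd (fr e) (Sum.inr ()) f) (y, t) := by
    intro x
    ring
  have h2 : ∀ x x', chr e (cm (sl t f) G) x x x' y * -(L (y, t) *
      up e (cm (sl t f) G) (sl t L) x' y) -
      (if x = x' then pd (fr e) (Sum.inr ()) f (y, t) else 0) *
        (if x' = x then pd (fr e) (Sum.inr ()) f (y, t) else 0) =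
      -L (y, t) * (chr e (cm (sl t f) G) x x x' y * up e (cm (sl t f) G) (sl t L) x' y) -
        (if x = x' then pd (fr e) (Sum.inr ()) f (y, t) ^ 2 else 0) := by
    intro x x'
    by_cases hx : x = x'
    · subst hx
      simp only [if_true]
      ring
    · rw [if_neg hx, if_neg hx]
      ring
  have h3 : ∀ x, pd (fr e) (Sum.inr ()) f (y, t) * (pd (fr e) (Sum.inr ()) L (y, t) / L (y, t)) -
      -(L (y, t) * up e (cm (sl t f) G) (sl t L) x y) * (pd e x (sl t L) y / L (y, t)) =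
      pd (fr e) (Sum.inr ()) f (y, t) * (pd (fr e) (Sum.inr ()) L (y, t) / L (y, t)) +
        pd e x (sl t L) y * up e (cm (sl t f) G) (sl t L) x y := by
    intro x
    field_simp
    ring
  simp only [h1, h2, h3, Finset.sum_add_distrib, Finset.sum_sub_distrib, ← Finset.mul_sum,
    Finset.sum_const, Finset.card_univ, nsmul_eq_mul, Finset.sum_ite_eq, Finset.mem_univ, if_true]
  rw [← hdiv]
  ring

theorem BandHyp.ric_ss (hy : y ∈ U) (ht : t ∈ I) (a b : ι) :
    ric (fr e) (bandMat G L f) (Sum.inl a) (Sum.inl b) (y, t) =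
      ric e (cm (sl t f) G) a b y - hess e (cm (sl t f) G) (sl t L) a b y / L (y, t) -
        cm (sl t f) G y a b * (L (y, t) ^ 2)⁻¹ *
        (pd (fr e) (Sum.inr ()) (pd (fr e) (Sum.inr ()) f) (y, t) +
          (Fintype.card ι : ℝ) * pd (fr e) (Sum.inr ()) f (y, t) ^ 2 -
          pd (fr e) (Sum.inr ()) f (y, t) * pd (fr e) (Sum.inr ()) L (y, t) / L (y, t)) := by
  have hL0 : L (y, t) ≠ 0 := (h.pos _ (h.mem hy ht)).ne'
  have hg := h.good.cm (h.sl_smooth h.smf ht)
  have hL := h.sl_smooth h.smL ht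
  unfold ric hess
  simp only [Fintype.sum_sum_type, sum_unit, h.chr_sss hy ht, h.chr_tss hy ht, h.chr_sst hy ht,
    h.chr_sts hy ht, h.chr_stt hy ht, h.chr_tst hy ht, h.chr_tts hy ht, h.chr_ttt hy ht,
    h.pd_chr_sss hy ht, h.pd_chr_tts hy ht, h.pdt_chr_tss hy ht]
  have h1 : ∀ x, (if True then pd (fr e) (Sum.inr ()) f (y, t) else 0) *
      -((L (y, t) ^ 2)⁻¹ * pd (fr e) (Sum.inr ()) f (y, t) * cm (sl t f) G y a b) -
      (if x = a then pd (fr e) (Sum.inr ()) f (y, t) else 0) *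
        -((L (y, t) ^ 2)⁻¹ * pd (fr e) (Sum.inr ()) f (y, t) * cm (sl t f) G y x b) =
      -((L (y, t) ^ 2)⁻¹ * pd (fr e) (Sum.inr ()) f (y, t) ^ 2 * cm (sl t f) G y a b) +
      (if x = a then (L (y, t) ^ 2)⁻¹ * pd (fr e) (Sum.inr ()) f (y, t) ^ 2 *
        cm (sl t f) G y a b else 0) := by
    intro x
    by_cases hx : x = a
    · subst hx
      simp only [if_true]
      ring
    · rw [if_neg hx, if_neg hx, if_pos trivial]
      ring
  have h2 : ∀ x, pd e x (sl t L) y / L (y, t) * chr e (cm (sl t f) G) x a b y -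
      -((L (y, t) ^ 2)⁻¹ * pd (fr e) (Sum.inr ()) f (y, t) * cm (sl t f) G y a x) *
        (if x = b then pd (fr e) (Sum.inr ()) f (y, t) else 0) =
      (L (y, t))⁻¹ * (chr e (cm (sl t f) G) x a b y * pd e x (sl t L) y) +
      (if x = b then (L (y, t) ^ 2)⁻¹ * pd (fr e) (Sum.inr ()) f (y, t) ^ 2 *
        cm (sl t f) G y a b else 0) := by
    intro x
    by_cases hx : x = b
    · subst hx
      simp only [if_true]
      ring
    · rw [if_neg hx, if_neg hx]
      ring
  simp only [h1, h2]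
  simp only [Finset.sum_add_distrib, Finset.sum_sub_distrib, ← Finset.mul_sum,
    Finset.sum_const, Finset.card_univ, nsmul_eq_mul, Finset.sum_ite_eq', Finset.mem_univ, if_true]
  field_simp
  ring

theorem BandHyp.scal_band (hy : y ∈ U) (ht : t ∈ I) :
    scal (fr e) (bandMat G L f) (y, t) = scal e (cm (sl t f) G) y -
      2 * lap e (cm (sl t f) G) (sl t L) y / L (y, t) -
      (L (y, t) ^ 2)⁻¹ * (Fintype.card ι : ℝ) *
        (2 * pd (fr e) (Sum.inr ()) (pd (fr e) (Sum.inr ()) f) (y, t) +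
          ((Fintype.card ι : ℝ) + 1) * pd (fr e) (Sum.inr ()) f (y, t) ^ 2 -
          2 * pd (fr e) (Sum.inr ()) f (y, t) * pd (fr e) (Sum.inr ()) L (y, t) / L (y, t)) := by
  have hL0 : L (y, t) ≠ 0 := (h.pos _ (h.mem hy ht)).ne'
  have hg := h.good.cm (h.sl_smooth h.smf ht)
  have h4 : ∑ j, ∑ k, (cm (sl t f) G y)⁻¹ j k * cm (sl t f) G y k j = (Fintype.card ι : ℝ) := by
    rw [Finset.sum_congr rfl fun j _ => hg.inv_mul hy j j]
    simp
  unfold scal
  rw [h.inv hy ht]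
  simp only [Fintype.sum_sum_type, sum_unit, Matrix.fromBlocks_apply₁₁,
    Matrix.fromBlocks_apply₁₂, Matrix.fromBlocks_apply₂₁, Matrix.fromBlocks_apply₂₂,
    Matrix.zero_apply, Matrix.of_apply, zero_mul, Finset.sum_const_zero, add_zero, zero_add,
    h.ric_tt hy ht, h.ric_ss hy ht]
  have h1 : ∀ a b (c : ℝ), (cm (sl t f) G y)⁻¹ a b * (ric e (cm (sl t f) G) a b y -
      hess e (cm (sl t f) G) (sl t L) a b y / L (y, t) -
        cm (sl t f) G y a b * (L (y, t) ^ 2)⁻¹ * c) =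
      (cm (sl t f) G y)⁻¹ a b * ric e (cm (sl t f) G) a b y -
        (cm (sl t f) G y)⁻¹ a b * hess e (cm (sl t f) G) (sl t L) a b y / L (y, t) -
        ((L (y, t) ^ 2)⁻¹ * c) * ((cm (sl t f) G y)⁻¹ a b * cm (sl t f) G y b a) := by
    intro a b c
    rw [hg.symm hy b a]
    ring
  simp only [h1, Finset.sum_sub_distrib, ← Finset.mul_sum, ← Finset.sum_div]
  rw [h4]
  have h2 : ∑ i, ∑ j, (cm (sl t f) G y)⁻¹ i j * hess e (cm (sl t f) G) (sl t L) i j y =
    lap e (cm (sl t f) G) (sl t L) y := rfl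
  rw [h2]
  field_simp
  ring

end Pool.Agent.Work.MP_2fa4be_gt
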