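import Pool.Agent.Work.MP_2fa4be_gt.Mat

/-!
# Module Conf: Christoffel symbols of a conformal metric, divergence form of the Laplace operator
(everything here is proved)
-/

namespace Pool.Agent.Work.MP_2fa4be_gt

open scoped ContDiff Topology

variable {E ι : Type*} [NormedAddCommGroup E] [NormedSpace ℝ E] [Fintype ι] [DecidableEq ι]

/-- the conformal metric `exp(2 f) G` -/
noncomputable def cm (f : E → ℝ) (G : E → Matrix ι ι ℝ) (z : E) : Matrix ι ι ℝ :=
  Real.exp (2 * f z) • G z

/-- the gradient of `f` -/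
noncomputable def up (e : ι → E) (G : E → Matrix ι ι ℝ) (f : E → ℝ) (k : ι) (y : E) : ℝ :=
  ∑ l, (G y)⁻¹ k l * pd e l f y

/-- the Hessian of `u` -/
noncomputable def hess (e : ι → E) (G : E → Matrix ι ι ℝ) (u : E → ℝ) (i j : ι) (y : E) : ℝ :=
  pd e i (pd e j u) y - ∑ k, chr e G k i j y * pd e k u y

variable {e : ι → E} {y : E} {U : Set E} {G : E → Matrix ι ι ℝ} {f u v : E → ℝ}

omit [NormedAddCommGroup E] [NormedSpace ℝ E] [Fintype ι] [DecidableEq ι] in
theorem cm_apply (z : E) (i j : ι) : cm f G z i j = Real.exp (2 * f z) * G z i j := rfl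

theorem cm_inv (h : GoodMat U G) (hy : y ∈ U) : (cm f G y)⁻¹ = Real.exp (-(2 * f y)) • (G y)⁻¹ := by
  unfold cm
  have h1 : Real.exp (2 * f y) ≠ 0 := (Real.exp_pos _).ne'
  have : Invertible (Real.exp (2 * f y)) := invertibleOfNonzero h1
  rw [Matrix.inv_smul _ _ (IsUnit.mk0 _ (h.det_ne hy))]
  congr 1
  rw [Real.exp_neg, invOf_eq_inv]

omit [Fintype ι] [DecidableEq ι] in
theorem GoodMat.cm (h : GoodMat U G) (hf : ContDiffOn ℝ ∞ f U) : GoodMat U (cm f G) where
  isOpen := h.isOpen
  smooth := by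
    intro i j
    exact (Real.contDiff_exp.comp_contDiffOn (contDiffOn_const.mul hf)).mul (h.smooth i j)
  pos := by
    intro y hy
    exact (h.pos y hy).smul (Real.exp_pos _)

omit [Fintype ι] [DecidableEq ι] in
theorem pd_cm (h : GoodMat U G) (hf : ContDiffOn ℝ ∞ f U) (hy : y ∈ U) (k i j : ι) :
    pd e k (fun z => cm f G z i j) y =
      Real.exp (2 * f y) * (pd e k (fun z => G z i j) y + 2 * pd e k f y * G y i j) := by
  have hf' := diffAt h.isOpen hf hy
  have hg' := diffAt h.isOpen (h.smooth i j) hy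
  have h2 : DifferentiableAt ℝ (fun z => 2 * f z) y := hf'.const_mul 2
  change pd e k (fun z => Real.exp (2 * f z) * G z i j) y = _
  rw [pd_mul h2.exp hg', pd_exp h2, pd_const_mul hf']
  ring

theorem chr_cm (h : GoodMat U G) (hf : ContDiffOn ℝ ∞ f U) (hy : y ∈ U) (k i j : ι) :
    chr e (cm f G) k i j y = chr e G k i j y + (if k = i then pd e j f y else 0) +
      (if k = j then pd e i f y else 0) - G y i j * up e G f k y := by
  unfold chr up
  rw [cm_inv h hy]
  have h1 : ∀ l, (Real.exp (-(2 * f y)) • (G y)⁻¹) k l *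
      (pd e i (fun z => cm f G z j l) y + pd e j (fun z => cm f G z i l) y -
        pd e l (fun z => cm f G z i j) y) =
      (G y)⁻¹ k l * (pd e i (fun z => G z j l) y + pd e j (fun z => G z i l) y -
        pd e l (fun z => G z i j) y) +
      (2 * pd e i f y * ((G y)⁻¹ k l * G y l j) + 2 * pd e j f y * ((G y)⁻¹ k l * G y l i) -
        2 * G y i j * ((G y)⁻¹ k l * pd e l f y)) := by
    intro l
    rw [pd_cm h hf hy, pd_cm h hf hy, pd_cm h hf hy, Matrix.smul_apply, smul_eq_mul,
      h.symm hy l j, h.symm hy l i]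
    have h2 : Real.exp (-(2 * f y)) * Real.exp (2 * f y) = 1 := by
      rw [← Real.exp_add, neg_add_cancel, Real.exp_zero]
    linear_combination ((G y)⁻¹ k l * ((pd e i (fun z => G z j l) y + 2 * pd e i f y * G y j l) +
      (pd e j (fun z => G z i l) y + 2 * pd e j f y * G y i l) -
      (pd e l (fun z => G z i j) y + 2 * pd e l f y * G y i j))) * h2
  rw [Finset.sum_congr rfl fun l _ => h1 l, Finset.sum_add_distrib, Finset.sum_sub_distrib,
    Finset.sum_add_distrib, ← Finset.mul_sum, ← Finset.mul_sum, ← Finset.mul_sum, h.inv_mul hy,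
    h.inv_mul hy]
  split_ifs <;> ring

theorem up_smooth (h : GoodMat U G) (hf : ContDiffOn ℝ ∞ f U) (k : ι) :
    ContDiffOn ℝ ∞ (up e G f k) U := by
  unfold up
  exact ContDiffOn.sum fun l _ => (h.inv_smooth k l).mul (pd_smooth h.isOpen hf l)

/-- lowering the index of the gradient -/
theorem low_up (h : GoodMat U G) (hy : y ∈ U) (a : ι) :
    ∑ k, G y a k * up e G f k y = pd e a f y := by
  unfold up
  have h1 : ∀ k, G y a k * ∑ l, (G y)⁻¹ k l * pd e l f y =
      ∑ l, G y a k * (G y)⁻¹ k l * pd e l f y := by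
    intro k
    rw [Finset.mul_sum]
    exact Finset.sum_congr rfl fun l _ => by ring
  rw [Finset.sum_congr rfl fun k _ => h1 k, Finset.sum_comm]
  have h2 : ∀ l, ∑ k, G y a k * (G y)⁻¹ k l * pd e l f y =
      (if a = l then 1 else 0) * pd e l f y := by
    intro l
    rw [← Finset.sum_mul, h.mul_inv hy]
  rw [Finset.sum_congr rfl fun l _ => h2 l]
  simp

theorem grd_eq (h : GoodMat U G) (hy : y ∈ U) :
    grd e G f u y = ∑ k, up e G f k y * pd e k u y := by
  unfold grd up
  rw [Finset.sum_comm]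
  refine Finset.sum_congr rfl fun i _ => ?_
  rw [Finset.sum_mul]
  refine Finset.sum_congr rfl fun j _ => ?_
  rw [h.inv_symm hy]
  ring

theorem grd_comm (h : GoodMat U G) (hy : y ∈ U) : grd e G f u y = grd e G u f y := by
  unfold grd
  rw [Finset.sum_comm]
  refine Finset.sum_congr rfl fun i _ => Finset.sum_congr rfl fun j _ => ?_
  rw [h.inv_symm hy]
  ring

theorem hess_symm (h : GoodMat U G) (hf : ContDiffOn ℝ ∞ f U) (hy : y ∈ U) (i j : ι) :
    hess e G f i j y = hess e G f j i y := by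
  unfold hess
  rw [pd_comm h.isOpen hf hy]
  congr 1
  exact Finset.sum_congr rfl fun k _ => by rw [h.chr_symm hy]

/-- divergence form of the Laplace operator -/
theorem div_up (h : GoodMat U G) (hf : ContDiffOn ℝ ∞ f U) (hy : y ∈ U) :
    ∑ i, pd e i (up e G f i) y + ∑ i, ∑ p, chr e G i i p y * up e G f p y = lap e G f y := by
  have hd1 : ∀ l, DifferentiableAt ℝ (pd e l f) y := fun l =>
    diffAt h.isOpen (pd_smooth h.isOpen hf l) hy
  have hd2 : ∀ i j, DifferentiableAt ℝ (fun z => (G z)⁻¹ i j) y := fun i j =>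
    diffAt h.isOpen (h.inv_smooth i j) hy
  have h1 : ∀ i, pd e i (up e G f i) y = ∑ l, (G y)⁻¹ i l * pd e i (pd e l f) y -
      (∑ a, chr e G i i a y * up e G f a y + ∑ l, ∑ a, chr e G l i a y * (G y)⁻¹ i a *
        pd e l f y) := by
    intro i
    have h2 : pd e i (up e G f i) y = ∑ l, ((G y)⁻¹ i l * pd e i (pd e l f) y +
        pd e i (fun z => (G z)⁻¹ i l) y * pd e l f y) := by
      unfold up
      rw [pd_sum (F := fun l z => (G z)⁻¹ i l * pd e l f z) fun l _ => (hd2 i l).mul (hd1 l)]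
      exact Finset.sum_congr rfl fun l _ => pd_mul (hd2 i l) (hd1 l) i
    rw [h2, Finset.sum_add_distrib, sub_eq_add_neg]
    congr 1
    have h3 : ∀ l, pd e i (fun z => (G z)⁻¹ i l) y * pd e l f y =
        -(∑ a, chr e G i i a y * ((G y)⁻¹ a l * pd e l f y) +
          ∑ a, chr e G l i a y * (G y)⁻¹ i a * pd e l f y) := by
      intro l
      rw [h.inv_met hy, Finset.sum_add_distrib, neg_mul, add_mul, Finset.sum_mul, Finset.sum_mul]
      congr 2
      exact Finset.sum_congr rfl fun a _ => by ring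
    rw [Finset.sum_congr rfl fun l _ => h3 l, Finset.sum_neg_distrib, Finset.sum_add_distrib]
    congr 2
    rw [Finset.sum_comm]
    refine Finset.sum_congr rfl fun a _ => ?_
    unfold up
    rw [Finset.mul_sum]
  rw [Finset.sum_congr rfl fun i _ => h1 i, Finset.sum_sub_distrib, Finset.sum_add_distrib]
  unfold lap
  have h4 : ∀ i, ∑ j, (G y)⁻¹ i j * (pd e i (pd e j f) y - ∑ k, chr e G k i j y * pd e k f y) =
      ∑ l, (G y)⁻¹ i l * pd e i (pd e l f) y -
        ∑ l, ∑ a, chr e G l i a y * (G y)⁻¹ i a * pd e l f y := by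
    intro i
    simp only [mul_sub, Finset.sum_sub_distrib]
    congr 1
    rw [Finset.sum_comm]
    refine Finset.sum_congr rfl fun l _ => ?_
    rw [Finset.mul_sum]
    exact Finset.sum_congr rfl fun a _ => by ring
  rw [Finset.sum_congr rfl fun i _ => h4 i, Finset.sum_sub_distrib]
  ring

end Pool.Agent.Work.MP_2fa4be_gt
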