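import Pool.Agent.Work.MP_2fa4be_gt.Conf

/-!
# Module ConfRic: Ricci and scalar curvature of a conformal metric (everything here is proved)
-/

namespace Pool.Agent.Work.MP_2fa4be_gt

open scoped ContDiff Topology

variable {E ι : Type*} [NormedAddCommGroup E] [NormedSpace ℝ E] [Fintype ι] [DecidableEq ι]
  {e : ι → E} {y : E} {U : Set E} {G : E → Matrix ι ι ℝ} {f u v : E → ℝ}

omit [Fintype ι] [DecidableEq ι] in
private theorem pd_ite (P : Prop) [Decidable P] (F : E → ℝ) (a : ι) :
    pd e a (fun z => if P then F z else 0) y = if P then pd e a F y else 0 := by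
  split_ifs
  · rfl
  · exact pd_const 0 a

omit [Fintype ι] [DecidableEq ι] in
private theorem pd_four {A B C D : E → ℝ} (hA : DifferentiableAt ℝ A y)
    (hB : DifferentiableAt ℝ B y) (hC : DifferentiableAt ℝ C y) (hD : DifferentiableAt ℝ D y)
    (a : ι) : pd e a (fun z => A z + B z + C z - D z) y =
      pd e a A y + pd e a B y + pd e a C y - pd e a D y := by
  have h1 : DifferentiableAt ℝ (fun z => A z + B z) y := hA.add hB
  have h2 : DifferentiableAt ℝ (fun z => A z + B z + C z) y := h1.add hC
  rw [pd_sub h2 hD, pd_add h1 hC, pd_add hA hB]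

private theorem pd_chr_cm (h : GoodMat U G) (hf : ContDiffOn ℝ ∞ f U) (hy : y ∈ U)
    (a i j k : ι) :
    pd e a (chr e (cm f G) i j k) y = pd e a (chr e G i j k) y +
      (if i = j then pd e a (pd e k f) y else 0) + (if i = k then pd e a (pd e j f) y else 0) -
      (G y j k * pd e a (up e G f i) y + pd e a (fun z => G z j k) y * up e G f i y) := by
  have hd1 : ∀ l, DifferentiableAt ℝ (pd e l f) y := fun l =>
    diffAt h.isOpen (pd_smooth h.isOpen hf l) hy
  have hd2 := diffAt h.isOpen (h.chr_smooth (e := e) i j k) hy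
  have hd3 := diffAt h.isOpen (h.smooth j k) hy
  have hd4 := diffAt h.isOpen (up_smooth (e := e) h hf i) hy
  have hd5 : ∀ (P : Prop) [Decidable P] (l : ι),
      DifferentiableAt ℝ (fun z => if P then pd e l f z else 0) y := by
    intro P _ l
    split_ifs
    · exact hd1 l
    · exact differentiableAt_const _
  rw [pd_congr_on h.isOpen (G := fun z => chr e G i j k z + (if i = j then pd e k f z else 0) +
      (if i = k then pd e j f z else 0) - G z j k * up e G f i z)
      (fun z hz => chr_cm h hf hz i j k) hy a,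
    pd_four (D := fun z => G z j k * up e G f i z) hd2 (hd5 _ _) (hd5 _ _) (hd3.mul hd4),
    pd_ite, pd_ite, pd_mul hd3 hd4]

/-- the trace of the Christoffel symbols -/
private theorem trace_chr (h : GoodMat U G) (hf : ContDiffOn ℝ ∞ f U) (hy : y ∈ U) (k : ι) :
    ∑ i, chr e (cm f G) i i k y = ∑ i, chr e G i i k y + (Fintype.card ι : ℝ) * pd e k f y := by
  have h1 : ∀ i, chr e (cm f G) i i k y = chr e G i i k y + pd e k f y +
      (if i = k then pd e i f y else 0) - G y k i * up e G f i y := by
    intro i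
    rw [chr_cm h hf hy, if_pos rfl, h.symm hy i k]
  rw [Finset.sum_congr rfl fun i _ => h1 i, Finset.sum_sub_distrib, Finset.sum_add_distrib,
    Finset.sum_add_distrib, low_up h hy]
  simp

private theorem trace_pd (h : GoodMat U G) (hf : ContDiffOn ℝ ∞ f U) (hy : y ∈ U) (j k : ι) :
    ∑ i, pd e j (chr e (cm f G) i i k) y = ∑ i, pd e j (chr e G i i k) y +
      (Fintype.card ι : ℝ) * pd e j (pd e k f) y := by
  have hd1 : DifferentiableAt ℝ (pd e k f) y := diffAt h.isOpen (pd_smooth h.isOpen hf k) hy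
  have hd2 : ∀ i, DifferentiableAt ℝ (chr e G i i k) y := fun i =>
    diffAt h.isOpen (h.chr_smooth i i k) hy
  have hd3 : ∀ i, DifferentiableAt ℝ (chr e (cm f G) i i k) y := fun i =>
    diffAt h.isOpen ((h.cm hf).chr_smooth i i k) hy
  have hd4 : DifferentiableAt ℝ (fun z => ∑ i, chr e G i i k z) y :=
    DifferentiableAt.fun_sum fun i _ => hd2 i
  rw [← pd_sum (fun i _ => hd3 i), pd_congr_on h.isOpen
    (G := fun z => ∑ i, chr e G i i k z + (Fintype.card ι : ℝ) * pd e k f z)
    (fun z hz => trace_chr h hf hz k) hy, pd_add hd4 (hd1.const_mul _), pd_const_mul hd1,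
    pd_sum (fun i _ => hd2 i)]

section Quad

variable {c : ι → ι → ι → ℝ} {p u : ι → ℝ} {g : ι → ι → ℝ}

/-- the difference of the Christoffel symbols -/
private def dC (p u : ι → ℝ) (g : ι → ι → ℝ) (k i j : ι) : ℝ :=
  (if k = i then p j else 0) + (if k = j then p i else 0) - g i j * u k

private theorem dC_tr (hg : ∀ i j, g i j = g j i) (hu : ∀ a, ∑ k, g a k * u k = p a) (q : ι) :
    ∑ i, dC p u g i i q = (Fintype.card ι : ℝ) * p q := by
  have h1 : ∀ i, dC p u g i i q = p q + (if i = q then p i else 0) - g q i * u i := by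
    intro i
    rw [dC, if_pos rfl, hg i q]
  rw [Finset.sum_congr rfl fun i _ => h1 i, Finset.sum_sub_distrib, Finset.sum_add_distrib, hu]
  simp

private theorem dC_sum (w : ι → ℝ) (j k : ι) :
    ∑ q, w q * dC p u g q j k = w j * p k + w k * p j - g j k * ∑ q, w q * u q := by
  have h1 : ∀ q, w q * dC p u g q j k = (if q = j then w q * p k else 0) +
      (if q = k then w q * p j else 0) - g j k * (w q * u q) := by
    intro q
    unfold dC
    split_ifs <;> ring
  rw [Finset.sum_congr rfl fun q _ => h1 q, Finset.sum_sub_distrib, Finset.sum_add_distrib,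
    ← Finset.mul_sum]
  simp

private theorem T1 (j k : ι) : ∑ i, ∑ q, c i i q * dC p u g q j k =
    (∑ i, c i i j) * p k + (∑ i, c i i k) * p j - g j k * ∑ i, ∑ q, c i i q * u q := by
  simp only [dC_sum, Finset.sum_sub_distrib, Finset.sum_add_distrib, ← Finset.mul_sum,
    ← Finset.sum_mul]

private theorem T2 (hg : ∀ i j, g i j = g j i) (hu : ∀ a, ∑ k, g a k * u k = p a) (w : ι → ℝ) :
    ∑ i, ∑ q, dC p u g i i q * w q = (Fintype.card ι : ℝ) * ∑ q, p q * w q := by
  rw [Finset.sum_comm, Finset.mul_sum]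
  refine Finset.sum_congr rfl fun q _ => ?_
  rw [← Finset.sum_mul, dC_tr hg hu]
  ring

private theorem T3 (hg : ∀ i j, g i j = g j i) (hu : ∀ a, ∑ k, g a k * u k = p a) (j k : ι) :
    ∑ i, ∑ q, dC p u g i i q * dC p u g q j k =
      (Fintype.card ι : ℝ) * (2 * (p j * p k) - g j k * ∑ q, p q * u q) := by
  rw [T2 hg hu, dC_sum]
  ring

private theorem T4 (j k : ι) : ∑ i, ∑ q, c i j q * dC p u g q i k =
    (∑ i, c i j i) * p k + ∑ i, c i j k * p i - ∑ i, ∑ q, c i j q * g i k * u q := by
  simp only [dC_sum, Finset.sum_sub_distrib, Finset.sum_add_distrib, ← Finset.sum_mul]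
  congr 1
  refine Finset.sum_congr rfl fun i _ => ?_
  rw [Finset.mul_sum]
  exact Finset.sum_congr rfl fun q _ => by ring

private theorem T5 (j k : ι) : ∑ i, ∑ q, dC p u g i j q * c q i k =
    ∑ q, p q * c q j k + p j * ∑ i, c i i k - ∑ i, ∑ q, g j q * u i * c q i k := by
  have h1 : ∀ i q, dC p u g i j q * c q i k = (if i = j then p q * c q i k else 0) +
      (if i = q then p j * c q i k else 0) - g j q * u i * c q i k := by
    intro i q
    unfold dC
    split_ifs <;> ring
  simp only [h1, Finset.sum_sub_distrib, Finset.sum_add_distrib]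
  congr 1
  congr 1
  · rw [Finset.sum_comm]
    simp
  · simp [Finset.mul_sum]

private theorem T6 (hg : ∀ i j, g i j = g j i) (hu : ∀ a, ∑ k, g a k * u k = p a) (j k : ι) :
    ∑ i, ∑ q, dC p u g i j q * dC p u g q i k =
      ((Fintype.card ι : ℝ) + 2) * (p j * p k) - 2 * (g j k * ∑ q, p q * u q) := by
  rw [T5 (c := dC p u g), dC_sum, dC_tr hg hu]
  have h1 : ∀ i, ∑ q, g j q * u i * dC p u g q i k =
      g j i * u i * p k + g j k * (p i * u i) - p j * (g k i * u i) := by
    intro i
    have h2 : ∀ q, g j q * u i * dC p u g q i k = u i * (g j q * dC p u g q i k) := fun q => by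
      ring
    rw [Finset.sum_congr rfl fun q _ => h2 q, ← Finset.mul_sum, dC_sum, hu, hg i k]
    ring
  rw [Finset.sum_congr rfl fun i _ => h1 i, Finset.sum_sub_distrib, Finset.sum_add_distrib,
    ← Finset.sum_mul, ← Finset.mul_sum, ← Finset.mul_sum, hu, hu]
  ring

/-- the quadratic terms, as an identity for arrays of numbers -/
private theorem quad (hc : ∀ k i j, c k i j = c k j i) (hg : ∀ i j, g i j = g j i)
    (hu : ∀ a, ∑ k, g a k * u k = p a) (j k : ι) :
    ∑ i, ∑ q, ((c i i q + dC p u g i i q) * (c q j k + dC p u g q j k) -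
      (c i j q + dC p u g i j q) * (c q i k + dC p u g q i k)) =
    ∑ i, ∑ q, (c i i q * c q j k - c i j q * c q i k) - g j k * ∑ i, ∑ q, c i i q * u q +
      ((Fintype.card ι : ℝ) - 2) * ∑ q, p q * c q j k + ∑ i, ∑ q, c i j q * g i k * u q +
      ∑ i, ∑ q, g j q * u i * c q i k +
      ((Fintype.card ι : ℝ) - 2) * (p j * p k - g j k * ∑ q, p q * u q) := by
  have h1 : ∀ i q, (c i i q + dC p u g i i q) * (c q j k + dC p u g q j k) -
      (c i j q + dC p u g i j q) * (c q i k + dC p u g q i k) =
      (c i i q * c q j k - c i j q * c q i k) + c i i q * dC p u g q j k +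
        dC p u g i i q * c q j k + dC p u g i i q * dC p u g q j k -
        c i j q * dC p u g q i k - dC p u g i j q * c q i k -
        dC p u g i j q * dC p u g q i k := by
    intro i q
    ring
  simp only [h1, Finset.sum_sub_distrib, Finset.sum_add_distrib]
  rw [T1, T2 hg hu (fun q => c q j k), T3 hg hu, T4, T5, T6 hg hu]
  have h2 : ∑ i, c i j i = ∑ i, c i i j := Finset.sum_congr rfl fun i _ => hc i j i
  have h3 : ∑ i, c i j k * p i = ∑ q, p q * c q j k :=
    Finset.sum_congr rfl fun i _ => mul_comm _ _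
  rw [h2, h3]
  ring

end Quad

private theorem chr_cm' (h : GoodMat U G) (hf : ContDiffOn ℝ ∞ f U) (hy : y ∈ U) (k i j : ι) :
    chr e (cm f G) k i j y = chr e G k i j y +
      dC (fun a => pd e a f y) (fun a => up e G f a y) (G y) k i j := by
  rw [chr_cm h hf hy]
  unfold dC
  ring

theorem ric_cm (h : GoodMat U G) (hf : ContDiffOn ℝ ∞ f U) (hy : y ∈ U) (j k : ι) :
    ric e (cm f G) j k y = ric e G j k y - ((Fintype.card ι : ℝ) - 2) *
        (hess e G f j k y - pd e j f y * pd e k f y) -
      (lap e G f y + ((Fintype.card ι : ℝ) - 2) * grd e G f f y) * G y j k := by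
  have hq := quad (c := fun k i j => chr e G k i j y) (p := fun a => pd e a f y)
    (u := fun a => up e G f a y) (g := G y) (fun k i j => h.chr_symm hy k i j)
    (fun i j => h.symm hy i j) (fun a => low_up h hy a) j k
  have hquad : ∑ i, ∑ q, (chr e (cm f G) i i q y * chr e (cm f G) q j k y -
      chr e (cm f G) i j q y * chr e (cm f G) q i k y) = _ :=
    (Finset.sum_congr rfl fun i _ => Finset.sum_congr rfl fun q _ => by
      rw [chr_cm' h hf hy, chr_cm' h hf hy, chr_cm' h hf hy, chr_cm' h hf hy]).trans hq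
  have hlin : ∑ i, (pd e i (chr e (cm f G) i j k) y - pd e j (chr e (cm f G) i i k) y) =
      ∑ i, (pd e i (chr e G i j k) y - pd e j (chr e G i i k) y) +
        (2 - (Fintype.card ι : ℝ)) * pd e j (pd e k f) y -
        (G y j k * ∑ i, pd e i (up e G f i) y +
          ∑ i, pd e i (fun z => G z j k) y * up e G f i y) := by
    rw [Finset.sum_sub_distrib, trace_pd h hf hy, Finset.sum_congr rfl fun i _ =>
      pd_chr_cm h hf hy i i j k, Finset.sum_sub_distrib, Finset.sum_sub_distrib,
      Finset.sum_add_distrib, Finset.sum_add_distrib, Finset.sum_add_distrib, ← Finset.mul_sum]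
    have h1 : ∑ i, (if i = j then pd e i (pd e k f) y else 0) = pd e j (pd e k f) y := by
      simp
    have h2 : ∑ i, (if i = k then pd e i (pd e j f) y else 0) = pd e j (pd e k f) y := by
      rw [pd_comm h.isOpen hf hy j k]
      simp
    rw [h1, h2]
    ring
  have hmet : ∑ i, pd e i (fun z => G z j k) y * up e G f i y =
      ∑ i, ∑ q, chr e G i j q y * G y i k * up e G f q y +
        ∑ i, ∑ q, G y j q * up e G f i y * chr e G q i k y := by
    have h1 : ∀ i, pd e i (fun z => G z j k) y * up e G f i y =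
        ∑ q, chr e G q i j y * G y q k * up e G f i y +
          ∑ q, G y j q * up e G f i y * chr e G q i k y := by
      intro i
      rw [h.met hy, Finset.sum_add_distrib, add_mul, Finset.sum_mul, Finset.sum_mul]
      congr 1
      exact Finset.sum_congr rfl fun q _ => by ring
    rw [Finset.sum_congr rfl fun i _ => h1 i, Finset.sum_add_distrib]
    congr 1
    rw [Finset.sum_comm]
    exact Finset.sum_congr rfl fun i _ => Finset.sum_congr rfl fun q _ => by
      rw [h.chr_symm hy i q j]
  have hdiv := div_up (e := e) h hf hy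
  have hgrd := grd_eq (e := e) (f := f) (u := f) h hy
  have hgrd' : ∑ q, pd e q f y * up e G f q y = grd e G f f y := by
    rw [hgrd]
    exact Finset.sum_congr rfl fun q _ => mul_comm _ _
  have hh : ∑ q, pd e q f y * chr e G q j k y = pd e j (pd e k f) y - hess e G f j k y := by
    unfold hess
    rw [sub_sub_cancel]
    exact Finset.sum_congr rfl fun q _ => mul_comm _ _
  unfold ric
  rw [hquad, hlin, hmet, hgrd', hh, ← hdiv]
  ring

theorem scal_cm (h : GoodMat U G) (hf : ContDiffOn ℝ ∞ f U) (hy : y ∈ U) :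
    scal e (cm f G) y = Real.exp (-(2 * f y)) * (scal e G y -
      2 * ((Fintype.card ι : ℝ) - 1) * lap e G f y -
      ((Fintype.card ι : ℝ) - 1) * ((Fintype.card ι : ℝ) - 2) * grd e G f f y) := by
  have h1 : ∀ j k, (cm f G y)⁻¹ j k * ric e (cm f G) j k y =
      Real.exp (-(2 * f y)) * ((G y)⁻¹ j k * ric e G j k y -
        ((Fintype.card ι : ℝ) - 2) * ((G y)⁻¹ j k * hess e G f j k y) +
        ((Fintype.card ι : ℝ) - 2) * ((G y)⁻¹ j k * (pd e j f y * pd e k f y)) -
        (lap e G f y + ((Fintype.card ι : ℝ) - 2) * grd e G f f y) *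
          ((G y)⁻¹ j k * G y k j)) := by
    intro j k
    rw [cm_inv h hy, Matrix.smul_apply, smul_eq_mul, ric_cm h hf hy, h.symm hy k j]
    ring
  have h2 : ∑ j, ∑ k, (G y)⁻¹ j k * hess e G f j k y = lap e G f y := rfl
  have h3 : ∑ j, ∑ k, (G y)⁻¹ j k * (pd e j f y * pd e k f y) = grd e G f f y := rfl
  have h4 : ∑ j, ∑ k, (G y)⁻¹ j k * G y k j = (Fintype.card ι : ℝ) := by
    rw [Finset.sum_congr rfl fun j _ => h.inv_mul hy j j]
    simp
  unfold scal
  simp only [h1, ← Finset.mul_sum, Finset.sum_add_distrib, Finset.sum_sub_distrib]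
  rw [h2, h3, h4]
  ring

end Pool.Agent.Work.MP_2fa4be_gt
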