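import Pool.Agent.Work.MP_2fa4be_gt.Reduce

/-!
# Module Cont: the time derivatives of a smooth function on `M × (-1, 1)` (proved)
-/

namespace Pool.Agent.Work.MP_2fa4be_gt

open scoped Manifold ContDiff Topology

variable {m : ℕ} {M : Type*} [TopologicalSpace M] [ChartedSpace (Eu m) M]

/-- the time derivative -/
noncomputable def dt (f : M × ℝ → ℝ) (z : M × ℝ) : ℝ := deriv (fun s => f (z.1, s)) z.2

/-- smoothness in the charts -/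
def LocSm (m : ℕ) {M : Type*} [TopologicalSpace M] [ChartedSpace (Eu m) M] (f : M × ℝ → ℝ) :
    Prop :=
  ∀ x₀ : M, ∃ F : Eu m × ℝ → ℝ, ContDiffOn ℝ ∞ F (dom m x₀ ×ˢ Set.Ioo (-1) 1) ∧
    ∀ x ∈ (chartAt (Eu m) x₀).source, ∀ t ∈ Set.Ioo (-1 : ℝ) 1,
      f (x, t) = F (chartAt (Eu m) x₀ x, t)

theorem locSm_of [IsManifold (𝓡 m) ∞ M] {f : M × ℝ → ℝ}
    (hf : ContMDiffOn ((𝓡 m).prod 𝓘(ℝ)) 𝓘(ℝ) ∞ f (Set.univ ×ˢ Set.Ioo (-1) 1)) :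
    LocSm m f := by
  intro x₀
  refine ⟨fun z => f (pt x₀ z.1, z.2), comp_pt_prod hf x₀, fun x hx t _ => ?_⟩
  have h1 : pt x₀ (chartAt (Eu m) x₀ x) = x := (chartAt (Eu m) x₀).left_inv hx
  change f (x, t) = f (pt x₀ (chartAt (Eu m) x₀ x), t)
  rw [h1]

theorem LocSm.step {f : M × ℝ → ℝ} (h : LocSm m f) : LocSm m (dt f) := by
  intro x₀
  obtain ⟨F, hF, hfF⟩ := h x₀
  have hopen : IsOpen (dom m x₀ ×ˢ Set.Ioo (-1 : ℝ) 1) := (dom_open x₀).prod isOpen_Ioo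
  refine ⟨pd (fr (bas m)) (Sum.inr ()) F, pd_smooth hopen hF _, fun x hx t ht => ?_⟩
  have hmem : (chartAt (Eu m) x₀ x, t) ∈ dom m x₀ ×ˢ Set.Ioo (-1 : ℝ) 1 :=
    ⟨(chartAt (Eu m) x₀).map_source hx, ht⟩
  rw [pd_inr (diffAt hopen hF hmem)]
  refine Filter.EventuallyEq.deriv_eq ?_
  filter_upwards [isOpen_Ioo.mem_nhds ht] with s hs
  exact hfF x hx s hs

theorem LocSm.continuousOn {f : M × ℝ → ℝ} (h : LocSm m f) :
    ContinuousOn f (Set.univ ×ˢ Set.Ioo (-1) 1) := by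
  rintro ⟨x₀, t₀⟩ ⟨-, ht₀⟩
  obtain ⟨F, hF, hfF⟩ := h x₀
  apply ContinuousAt.continuousWithinAt
  have hmem : (chartAt (Eu m) x₀ x₀, t₀) ∈ dom m x₀ ×ˢ Set.Ioo (-1 : ℝ) 1 := ⟨mem_dom x₀, ht₀⟩
  have hopen : IsOpen (dom m x₀ ×ˢ Set.Ioo (-1 : ℝ) 1) := (dom_open x₀).prod isOpen_Ioo
  have h1 : ContinuousAt F (chartAt (Eu m) x₀ x₀, t₀) :=
    hF.continuousOn.continuousAt (hopen.mem_nhds hmem)
  have h2 : ContinuousAt (chartAt (Eu m) x₀) x₀ :=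
    (chartAt (Eu m) x₀).continuousAt (mem_chart_source (Eu m) x₀)
  have h3 : ContinuousAt (fun z : M × ℝ => (chartAt (Eu m) x₀ z.1, z.2)) (x₀, t₀) :=
    (ContinuousAt.comp (x := (x₀, t₀)) h2 continuousAt_fst).prodMk continuousAt_snd
  have h4 : ContinuousAt (fun z : M × ℝ => F (chartAt (Eu m) x₀ z.1, z.2)) (x₀, t₀) :=
    ContinuousAt.comp (x := (x₀, t₀)) (f := fun z : M × ℝ => (chartAt (Eu m) x₀ z.1, z.2))
      (g := F) h1 h3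
  refine h4.congr ?_
  have h5 : (chartAt (Eu m) x₀).source ×ˢ Set.Ioo (-1 : ℝ) 1 ∈ 𝓝 (x₀, t₀) :=
    ((chartAt (Eu m) x₀).open_source.prod isOpen_Ioo).mem_nhds
      ⟨mem_chart_source (Eu m) x₀, ht₀⟩
  filter_upwards [h5] with z hz
  exact (hfF z.1 hz.1 z.2 hz.2).symm

theorem LocSm.hasDerivAt {f : M × ℝ → ℝ} (h : LocSm m f) (x : M) {t : ℝ}
    (ht : t ∈ Set.Ioo (-1 : ℝ) 1) : HasDerivAt (fun s => f (x, s)) (dt f (x, t)) t := by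
  obtain ⟨F, hF, hfF⟩ := h x
  have hmem : (chartAt (Eu m) x x, t) ∈ dom m x ×ˢ Set.Ioo (-1 : ℝ) 1 := ⟨mem_dom x, ht⟩
  have hopen : IsOpen (dom m x ×ˢ Set.Ioo (-1 : ℝ) 1) := (dom_open x).prod isOpen_Ioo
  have h1 := diffAt hopen hF hmem
  have h2 : DifferentiableAt ℝ (fun s : ℝ => F (chartAt (Eu m) x x, s)) t :=
    DifferentiableAt.comp (f := fun s : ℝ => (chartAt (Eu m) x x, s)) (g := F) t h1
      ((differentiableAt_const _).prodMk differentiableAt_id)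
  have h3 : (fun s => f (x, s)) =ᶠ[𝓝 t] fun s : ℝ => F (chartAt (Eu m) x x, s) := by
    filter_upwards [isOpen_Ioo.mem_nhds ht] with s hs
    exact hfF x (mem_chart_source (Eu m) x) s hs
  exact (h2.congr_of_eventuallyEq h3).hasDerivAt

end Pool.Agent.Work.MP_2fa4be_gt
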