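import Pool.Agent.Work.MP_2fa4be_gt.Mean

/-!
# Module Metric: coefficients of a metric in a chart, conformal metrics on a manifold (proved)
-/

namespace Pool.Agent.Work.MP_2fa4be_gt

open scoped Manifold ContDiff Topology
open Bundle

variable {m : ℕ} {M : Type*} [TopologicalSpace M] [ChartedSpace (Eu m) M]

/-- the domain of the coordinates -/
def dom (m : ℕ) {M : Type*} [TopologicalSpace M] [ChartedSpace (Eu m) M] (x : M) : Set (Eu m) :=
  (chartAt (Eu m) x).target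

theorem dom_open (x : M) : IsOpen (dom m x) := (chartAt (Eu m) x).open_target

theorem mem_dom (x : M) : chartAt (Eu m) x x ∈ dom m x := mem_chart_target (Eu m) x

theorem pt_self (x : M) : pt x (chartAt (Eu m) x x) = x :=
  (chartAt (Eu m) x).left_inv (mem_chart_source (Eu m) x)

theorem pt_smooth [IsManifold (𝓡 m) ∞ M] (x : M) : ContMDiffOn (𝓡 m) (𝓡 m) ∞ (pt x : Eu m → M) (dom m x) :=
  contMDiffOn_chart_symm

theorem comp_pt [IsManifold (𝓡 m) ∞ M] {F : M → ℝ} (hF : ContMDiff (𝓡 m) 𝓘(ℝ) ∞ F) (x : M) :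
    ContDiffOn ℝ ∞ (fun y => F (pt x y)) (dom m x) :=
  contMDiffOn_iff_contDiffOn.1 (hF.comp_contMDiffOn (pt_smooth x))

theorem comp_pt_prod [IsManifold (𝓡 m) ∞ M] {I : Set ℝ} {f : M × ℝ → ℝ}
    (hf : ContMDiffOn ((𝓡 m).prod 𝓘(ℝ)) 𝓘(ℝ) ∞ f (Set.univ ×ˢ I)) (x : M) :
    ContDiffOn ℝ ∞ (fun z : Eu m × ℝ => f (pt x z.1, z.2)) (dom m x ×ˢ I) := by
  have h1 : ContMDiffOn 𝓘(ℝ, Eu m × ℝ) (𝓡 m) ∞ (fun z : Eu m × ℝ => pt x z.1) (dom m x ×ˢ I) :=
    (pt_smooth x).comp contDiff_fst.contMDiff.contMDiffOn fun z hz => hz.1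
  have h2 : ContMDiffOn 𝓘(ℝ, Eu m × ℝ) 𝓘(ℝ) ∞ (fun z : Eu m × ℝ => z.2) (dom m x ×ˢ I) :=
    contDiff_snd.contMDiff.contMDiffOn
  have h3 := h1.prodMk h2
  exact contMDiffOn_iff_contDiffOn.1 (hf.comp h3 fun z hz => ⟨Set.mem_univ _, hz.2⟩)

theorem coeff_good (h : RMetric m M) (x : M) : GoodMat (dom m x) (coeff h x) where
  isOpen := dom_open x
  smooth := h.smooth _ (chart_mem_atlas (Eu m) x)
  pos := h.pos _ (chart_mem_atlas (Eu m) x)

/-- the metric `exp(2 ψ) h` -/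
theorem exists_scaled [IsManifold (𝓡 m) ∞ M] (h : RMetric m M) {ψ : M → ℝ}
    (hψ : ContMDiff (𝓡 m) 𝓘(ℝ) ∞ ψ) :
    ∃ h' : RMetric m M, ∀ c y, h'.co c y = Real.exp (2 * ψ (c.symm y)) • h.co c y := by
  refine ⟨⟨fun c y => Real.exp (2 * ψ (c.symm y)) • h.co c y, ?_, ?_, ?_⟩, fun _ _ => rfl⟩
  · intro c hc i j
    have h1 : ContMDiffOn (𝓡 m) (𝓡 m) ∞ c.symm c.target :=
      contMDiffOn_symm_of_mem_maximalAtlas (IsManifold.subset_maximalAtlas hc)
    have h2 : ContDiffOn ℝ ∞ (fun y => ψ (c.symm y)) c.target :=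
      contMDiffOn_iff_contDiffOn.1 (hψ.comp_contMDiffOn h1)
    exact (contDiffOn_const.mul h2).exp.mul (h.smooth c hc i j)
  · intro c hc y hy
    exact (h.pos c hc y hy).smul (Real.exp_pos _)
  · intro c hc c' hc' y hy hcy
    have h1 : c'.symm (c' (c.symm y)) = c.symm y := c'.left_inv hcy
    have h2 := h.compat c hc c' hc' y hy hcy
    rw [h1, Matrix.mul_smul, Matrix.smul_mul, ← h2]

end Pool.Agent.Work.MP_2fa4be_gt
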