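import Pool.Agent.Work.MP_2fa4be_gt.BandRic

/-!
# Module Space: the scalar curvature of `N(x)² exp(2 β f) dt² + exp(2 f) G` (proved)
-/

namespace Pool.Agent.Work.MP_2fa4be_gt

open scoped ContDiff Topology

variable {E ι : Type*} [NormedAddCommGroup E] [NormedSpace ℝ E] [Fintype ι] [DecidableEq ι]
  {e : ι → E} {y : E} {U : Set E} {I : Set ℝ} {t : ℝ} {G : E → Matrix ι ι ℝ}
  {f : E × ℝ → ℝ} {ν u v w : E → ℝ} {β : ℝ}

/-- the spatial part of the scalar curvature of `exp(2 ν + 2 β u) dt² + exp(2 u) G`, times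
`exp(2 u)` -/
noncomputable def brk (e : ι → E) (G : E → Matrix ι ι ℝ) (β : ℝ) (ν u : E → ℝ) (y : E) : ℝ :=
  scal e G y - 2 * ((Fintype.card ι : ℝ) - 1 + β) * lap e G u y -
    (((Fintype.card ι : ℝ) - 1) * ((Fintype.card ι : ℝ) - 2) + 2 * β ^ 2 +
      2 * ((Fintype.card ι : ℝ) - 2) * β) * grd e G u u y -
    2 * lap e G ν y - 2 * grd e G ν ν y -
    (4 * β + 2 * ((Fintype.card ι : ℝ) - 2)) * grd e G u ν y

/-- linearity of the gradient product and of the Laplace operator -/
theorem pd_lin (hu : DifferentiableAt ℝ u y) (hv : DifferentiableAt ℝ v y) (c d : ℝ) (i : ι) :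
    pd e i (fun z => c * u z + d * v z) y = c * pd e i u y + d * pd e i v y := by
  rw [pd_add (hu.const_mul c) (hv.const_mul d), pd_const_mul hu, pd_const_mul hv]

theorem grd_lin_left (hu : DifferentiableAt ℝ u y) (hv : DifferentiableAt ℝ v y) (c d : ℝ) :
    grd e G (fun z => c * u z + d * v z) w y = c * grd e G u w y + d * grd e G v w y := by
  unfold grd
  rw [Finset.mul_sum, Finset.mul_sum, ← Finset.sum_add_distrib]
  refine Finset.sum_congr rfl fun i _ => ?_
  rw [Finset.mul_sum, Finset.mul_sum, ← Finset.sum_add_distrib]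
  refine Finset.sum_congr rfl fun j _ => ?_
  rw [pd_lin hu hv]
  ring

theorem grd_lin_right (hu : DifferentiableAt ℝ u y) (hv : DifferentiableAt ℝ v y) (c d : ℝ) :
    grd e G w (fun z => c * u z + d * v z) y = c * grd e G w u y + d * grd e G w v y := by
  unfold grd
  rw [Finset.mul_sum, Finset.mul_sum, ← Finset.sum_add_distrib]
  refine Finset.sum_congr rfl fun i _ => ?_
  rw [Finset.mul_sum, Finset.mul_sum, ← Finset.sum_add_distrib]
  refine Finset.sum_congr rfl fun j _ => ?_
  rw [pd_lin hu hv]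
  ring

theorem lap_lin (hU : IsOpen U) (hu : ContDiffOn ℝ ∞ u U) (hv : ContDiffOn ℝ ∞ v U) (hy : y ∈ U)
    (c d : ℝ) :
    lap e G (fun z => c * u z + d * v z) y = c * lap e G u y + d * lap e G v y := by
  unfold lap
  rw [Finset.mul_sum, Finset.mul_sum, ← Finset.sum_add_distrib]
  refine Finset.sum_congr rfl fun i _ => ?_
  rw [Finset.mul_sum, Finset.mul_sum, ← Finset.sum_add_distrib]
  refine Finset.sum_congr rfl fun j _ => ?_
  have h1 : pd e i (pd e j (fun z => c * u z + d * v z)) y =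
      c * pd e i (pd e j u) y + d * pd e i (pd e j v) y := by
    rw [pd_congr_on hU (G := fun z => c * pd e j u z + d * pd e j v z)
      (fun z hz => pd_lin (diffAt hU hu hz) (diffAt hU hv hz) c d j) hy,
      pd_lin (diffAt hU (pd_smooth hU hu j) hy) (diffAt hU (pd_smooth hU hv j) hy)]
  have h2 : ∑ k, chr e G k i j y * pd e k (fun z => c * u z + d * v z) y =
      c * ∑ k, chr e G k i j y * pd e k u y + d * ∑ k, chr e G k i j y * pd e k v y := by
    rw [Finset.mul_sum, Finset.mul_sum, ← Finset.sum_add_distrib]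
    refine Finset.sum_congr rfl fun k _ => ?_
    rw [pd_lin (diffAt hU hu hy) (diffAt hU hv hy)]
    ring
  rw [h1, h2]
  ring

/-- the Laplace operator of an exponential -/
theorem lap_exp (h : GoodMat U G) (hu : ContDiffOn ℝ ∞ u U) (hy : y ∈ U) :
    lap e G (fun z => Real.exp (u z)) y =
      Real.exp (u y) * (lap e G u y + grd e G u u y) := by
  have h0 : ∀ j, ∀ z ∈ U, pd e j (fun z => Real.exp (u z)) z = Real.exp (u z) * pd e j u z :=
    fun j z hz => pd_exp (diffAt h.isOpen hu hz) j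
  have h1 : ∀ i j, pd e i (pd e j (fun z => Real.exp (u z))) y =
      Real.exp (u y) * (pd e i (pd e j u) y + pd e i u y * pd e j u y) := by
    intro i j
    have hd := diffAt h.isOpen hu hy
    rw [pd_congr_on h.isOpen (h0 j) hy, pd_mul hd.exp
      (diffAt h.isOpen (pd_smooth h.isOpen hu j) hy), pd_exp hd]
    ring
  unfold lap grd
  rw [← Finset.sum_add_distrib, Finset.mul_sum]
  refine Finset.sum_congr rfl fun i _ => ?_
  rw [← Finset.sum_add_distrib, Finset.mul_sum]
  refine Finset.sum_congr rfl fun j _ => ?_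
  have h2 : ∑ k, chr e G k i j y * pd e k (fun z => Real.exp (u z)) y =
      Real.exp (u y) * ∑ k, chr e G k i j y * pd e k u y := by
    rw [Finset.mul_sum]
    exact Finset.sum_congr rfl fun k _ => by rw [h0 k y hy]; ring
  rw [h1, h2]
  ring

theorem grd_nonneg (h : GoodMat U G) (hy : y ∈ U) : 0 ≤ grd e G u u y := by
  have h1 := ((h.pos y hy).inv).posSemidef.dotProduct_mulVec_nonneg (fun i => pd e i u y)
  have h2 : star (fun i => pd e i u y) ⬝ᵥ ((G y)⁻¹).mulVec (fun i => pd e i u y) =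
      grd e G u u y := by
    unfold grd
    simp only [dotProduct, Matrix.mulVec, Finset.mul_sum, Pi.star_apply, star_trivial]
    exact Finset.sum_congr rfl fun i _ => Finset.sum_congr rfl fun j _ => by ring
  rw [h2] at h1
  exact h1

/-- the conformal Laplacian positivity: from a static metric to a conformal metric -/
theorem scal_static (h : GoodMat U G) (hm : 1 < (Fintype.card ι : ℝ)) (hu : ContDiffOn ℝ ∞ u U)
    (hν : ContDiffOn ℝ ∞ ν U) (hy : y ∈ U) (hb : 0 < brk e G β ν u y) :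
    0 < scal e (cm (fun z => (1 + β / ((Fintype.card ι : ℝ) - 1)) * u z +
      (1 / ((Fintype.card ι : ℝ) - 1)) * ν z) G) y := by
  set m : ℝ := (Fintype.card ι : ℝ) with hmdef
  have hU := h.isOpen
  have hud := diffAt hU hu hy
  have hνd := diffAt hU hν hy
  have hψ : ContDiffOn ℝ ∞ (fun z => (1 + β / (m - 1)) * u z + (1 / (m - 1)) * ν z) U :=
    (contDiffOn_const.mul hu).add (contDiffOn_const.mul hν)
  have hw : 0 ≤ grd e G (fun z => β * u z + 1 * ν z) (fun z => β * u z + 1 * ν z) y :=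
    grd_nonneg h hy
  rw [grd_lin_left hud hνd, grd_lin_right hud hνd, grd_lin_right hud hνd,
    grd_comm (f := ν) (u := u) h hy] at hw
  rw [scal_cm h hψ hy, lap_lin hU hu hν hy, grd_lin_left hud hνd, grd_lin_right hud hνd,
    grd_lin_right hud hνd, grd_comm (f := ν) (u := u) h hy]
  refine mul_pos (Real.exp_pos _) (lt_of_lt_of_le hb ?_)
  unfold brk
  rw [← hmdef]
  have hm1 : 0 < m - 1 := by linarith
  have hm2 : m - 1 ≠ 0 := hm1.ne'
  have key : (scal e G y - 2 * (m - 1) * ((1 + β / (m - 1)) * lap e G u y +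
      1 / (m - 1) * lap e G ν y) - (m - 1) * (m - 2) *
      ((1 + β / (m - 1)) * ((1 + β / (m - 1)) * grd e G u u y + 1 / (m - 1) * grd e G u ν y) +
        1 / (m - 1) * ((1 + β / (m - 1)) * grd e G u ν y + 1 / (m - 1) * grd e G ν ν y))) -
      (scal e G y - 2 * (m - 1 + β) * lap e G u y -
        ((m - 1) * (m - 2) + 2 * β ^ 2 + 2 * (m - 2) * β) * grd e G u u y -
        2 * lap e G ν y - 2 * grd e G ν ν y - (4 * β + 2 * (m - 2)) * grd e G u ν y) =
      m / (m - 1) * (β * (β * grd e G u u y + 1 * grd e G u ν y) +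
        1 * (β * grd e G u ν y + 1 * grd e G ν ν y)) := by
    field_simp
    ring
  have hpos : 0 ≤ m / (m - 1) * (β * (β * grd e G u u y + 1 * grd e G u ν y) +
        1 * (β * grd e G u ν y + 1 * grd e G ν ν y)) :=
    mul_nonneg (div_nonneg (by linarith) hm1.le) hw
  linarith

/-- the scalar curvature of the band metric -/
theorem scal_space (hG : GoodMat U G) (hI : IsOpen I) (hf : ContDiffOn ℝ ∞ f (U ×ˢ I))
    (hν : ContDiffOn ℝ ∞ ν U) (hy : y ∈ U) (ht : t ∈ I)  :
    scal (fr e) (bandMat G (fun z => Real.exp (ν z.1) * Real.exp (β * f z)) f) (y, t) =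
      Real.exp (-(2 * f (y, t))) * brk e G β ν (sl t f) y -
      Real.exp (-(2 * ν y) - 2 * β * f (y, t)) * (Fintype.card ι : ℝ) *
        (2 * deriv (fun s => deriv (fun r => f (y, r)) s) t +
          ((Fintype.card ι : ℝ) + 1 - 2 * β) * deriv (fun s => f (y, s)) t ^ 2) := by
  have hU := hG.isOpen
  have hνW : ContDiffOn ℝ ∞ (fun z : E × ℝ => ν z.1) (U ×ˢ I) :=
    hν.comp contDiff_fst.contDiffOn fun z hz => hz.1
  have hL : ContDiffOn ℝ ∞ (fun z : E × ℝ => Real.exp (ν z.1) * Real.exp (β * f z)) (U ×ˢ I) :=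
    (Real.contDiff_exp.comp_contDiffOn hνW).mul
      (Real.contDiff_exp.comp_contDiffOn (contDiffOn_const.mul hf))
  have h : BandHyp U I G (fun z => Real.exp (ν z.1) * Real.exp (β * f z)) f :=
    ⟨hG, hI, hf, hL, fun z _ => by positivity⟩
  have hF := h.sl_smooth hf ht
  have hμ : ContDiffOn ℝ ∞ (fun z => 1 * ν z + β * sl t f z) U :=
    (contDiffOn_const.mul hν).add (contDiffOn_const.mul hF)
  have hνd := diffAt hU hν hy
  have hFd := diffAt hU hF hy
  have hμd := diffAt hU hμ hy
  have hsl : sl t (fun z : E × ℝ => Real.exp (ν z.1) * Real.exp (β * f z)) =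
      fun z => Real.exp (1 * ν z + β * sl t f z) := by
    funext z
    rw [Real.exp_add, one_mul]
    rfl
  have hf1 : ∀ s ∈ I, pd (fr e) (Sum.inr ()) f (y, s) = deriv (fun r => f (y, r)) s :=
    fun s hs => pd_inr (h.dAt hf hy hs)
  have hf2 : pd (fr e) (Sum.inr ()) (pd (fr e) (Sum.inr ()) f) (y, t) =
      deriv (fun s => deriv (fun r => f (y, r)) s) t := by
    rw [pd_inr (h.dAt (pd_smooth h.openW hf (Sum.inr ())) hy ht)]
    exact Filter.EventuallyEq.deriv_eq (Filter.eventually_of_mem (hI.mem_nhds ht) hf1)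
  have hLt : pd (fr e) (Sum.inr ()) (fun z : E × ℝ => Real.exp (ν z.1) * Real.exp (β * f z))
      (y, t) = Real.exp (ν y) * Real.exp (β * f (y, t)) * (β * deriv (fun r => f (y, r)) t) := by
    rw [pd_inr (h.dAt hL hy ht)]
    have h1 : DifferentiableAt ℝ (fun r => f (y, r)) t := by
      have h2 : HasDerivAt (fun s : ℝ => (y, s)) ((0 : E), (1 : ℝ)) t :=
        (hasDerivAt_const t y).prodMk (hasDerivAt_id t)
      exact (HasFDerivAt.comp_hasDerivAt (l := f) t (h.dAt hf hy ht).hasFDerivAt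
        h2).differentiableAt
    have h3 : HasDerivAt (fun s => Real.exp (ν y) * Real.exp (β * f (y, s)))
        (Real.exp (ν y) * (Real.exp (β * f (y, t)) * (β * deriv (fun r => f (y, r)) t))) t :=
      ((h1.hasDerivAt.const_mul β).exp).const_mul _
    rw [h3.deriv]
    ring
  have hgl : grd e G (sl t f) (fun z => Real.exp (1 * ν z + β * sl t f z)) y =
      Real.exp (1 * ν y + β * sl t f y) * grd e G (sl t f) (fun z => 1 * ν z + β * sl t f z) y := by
    unfold grd
    rw [Finset.mul_sum]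
    refine Finset.sum_congr rfl fun i _ => ?_
    rw [Finset.mul_sum]
    refine Finset.sum_congr rfl fun j _ => ?_
    rw [pd_exp hμd]
    ring
  rw [h.scal_band hy ht, hf2, hf1 t ht, hLt, hsl, scal_cm hG hF hy, lap_cm hG hF hy,
    lap_exp hG hμ hy, hgl, lap_lin hU hν hF hy, grd_lin_left hνd hFd, grd_lin_right hνd hFd,
    grd_lin_right hνd hFd, grd_comm (f := ν) (u := sl t f) hG hy]
  dsimp only
  have hexp : Real.exp (1 * ν y + β * sl t f y) = Real.exp (ν y) * Real.exp (β * f (y, t)) := by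
    rw [Real.exp_add, one_mul]
    rfl
  have hexp2 : Real.exp (-(2 * ν y) - 2 * β * f (y, t)) =
      ((Real.exp (ν y) * Real.exp (β * f (y, t))) ^ 2)⁻¹ := by
    rw [← Real.exp_add, ← Real.exp_nat_mul, ← Real.exp_neg]
    congr 1
    push_cast
    ring
  have hne : Real.exp (ν y) * Real.exp (β * f (y, t)) ≠ 0 := by positivity
  rw [hexp, hexp2]
  unfold brk
  have hs2 : sl t f y = f (y, t) := rfl
  rw [hs2]
  have hne1 : Real.exp (ν y) ≠ 0 := (Real.exp_pos _).ne'
  have hne2 : Real.exp (β * f (y, t)) ≠ 0 := (Real.exp_pos _).ne'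
  field_simp
  ring

end Pool.Agent.Work.MP_2fa4be_gt
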