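import Pool.Agent.Work.MP_2fa4be_gt.Pd

/-!
# Module Mat: the inverse matrix and the Christoffel symbols (everything here is proved)
-/

namespace Pool.Agent.Work.MP_2fa4be_gt

open scoped ContDiff Topology

variable {E ι : Type*} [NormedAddCommGroup E] [NormedSpace ℝ E] [Fintype ι] [DecidableEq ι]

/-- `G` is a smooth positive definite matrix on the open set `U` -/
structure GoodMat (U : Set E) (G : E → Matrix ι ι ℝ) : Prop where
  isOpen : IsOpen U
  smooth : ∀ i j, ContDiffOn ℝ ∞ (fun z => G z i j) U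
  pos : ∀ y ∈ U, (G y).PosDef

variable {e : ι → E} {y : E} {U : Set E} {G : E → Matrix ι ι ℝ}

omit [Fintype ι] [DecidableEq ι] in
theorem GoodMat.symm (h : GoodMat U G) (hy : y ∈ U) (i j : ι) : G y i j = G y j i := by
  have h1 := congrFun (congrFun (h.pos y hy).isHermitian i) j
  rw [Matrix.conjTranspose_apply] at h1
  simpa using h1.symm

theorem GoodMat.det_ne (h : GoodMat U G) (hy : y ∈ U) : (G y).det ≠ 0 := (h.pos y hy).det_pos.ne'

theorem GoodMat.inv_mul (h : GoodMat U G) (hy : y ∈ U) (i j : ι) :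
    ∑ l, (G y)⁻¹ i l * G y l j = if i = j then 1 else 0 := by
  have h1 : (G y)⁻¹ * G y = 1 := Matrix.nonsing_inv_mul _ (IsUnit.mk0 _ (h.det_ne hy))
  have h2 := congrFun (congrFun h1 i) j
  rw [Matrix.mul_apply, Matrix.one_apply] at h2
  exact h2

theorem GoodMat.mul_inv (h : GoodMat U G) (hy : y ∈ U) (i j : ι) :
    ∑ l, G y i l * (G y)⁻¹ l j = if i = j then 1 else 0 := by
  have h1 : G y * (G y)⁻¹ = 1 := Matrix.mul_nonsing_inv _ (IsUnit.mk0 _ (h.det_ne hy))
  have h2 := congrFun (congrFun h1 i) j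
  rw [Matrix.mul_apply, Matrix.one_apply] at h2
  exact h2

theorem GoodMat.inv_symm (h : GoodMat U G) (hy : y ∈ U) (i j : ι) :
    (G y)⁻¹ i j = (G y)⁻¹ j i := by
  have h1 : (G y).transpose = G y := by
    ext a b
    exact h.symm hy b a
  have h2 : ((G y)⁻¹).transpose = (G y)⁻¹ := by
    rw [Matrix.transpose_nonsing_inv, h1]
  exact congrFun (congrFun h2 j) i

private theorem det_smooth {A : E → Matrix ι ι ℝ} (hA : ∀ i j, ContDiffOn ℝ ∞ (fun z => A z i j) U) :
    ContDiffOn ℝ ∞ (fun z => (A z).det) U := by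
  have h1 : (fun z => (A z).det) =
      fun z => ∑ σ : Equiv.Perm ι, ((Equiv.Perm.sign σ : ℤ) : ℝ) * ∏ i, A z (σ i) i := by
    funext z
    rw [Matrix.det_apply]
    refine Finset.sum_congr rfl fun σ _ => ?_
    rw [Units.smul_def, zsmul_eq_mul]
  rw [h1]
  refine ContDiffOn.sum fun σ _ => ?_
  refine contDiffOn_const.mul ?_
  exact contDiffOn_prod fun i _ => hA (σ i) i

theorem GoodMat.inv_smooth (h : GoodMat U G) (i j : ι) :
    ContDiffOn ℝ ∞ (fun z => (G z)⁻¹ i j) U := by
  have h1 : ∀ z ∈ U, (G z)⁻¹ i j = ((G z).det)⁻¹ * (G z).adjugate i j := by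
    intro z hz
    rw [Matrix.inv_def, Matrix.smul_apply, smul_eq_mul, Ring.inverse_eq_inv']
  refine ContDiffOn.congr ?_ h1
  refine ((det_smooth h.smooth).inv fun z hz => h.det_ne hz).mul ?_
  have h2 : (fun z => (G z).adjugate i j) =
      fun z => ((G z).updateRow j (Pi.single i 1)).det := by
    funext z
    rw [Matrix.adjugate_apply]
  rw [h2]
  refine det_smooth ?_
  intro a b
  by_cases hab : a = j
  · subst hab
    simp only [Matrix.updateRow_self]
    exact contDiffOn_const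
  · simp only [Matrix.updateRow_ne hab]
    exact h.smooth a b

theorem GoodMat.chr_smooth (h : GoodMat U G) (k i j : ι) : ContDiffOn ℝ ∞ (chr e G k i j) U := by
  unfold chr
  refine contDiffOn_const.mul (ContDiffOn.sum fun l _ => ?_)
  refine (h.inv_smooth k l).mul ?_
  exact ((pd_smooth h.isOpen (h.smooth j l) i).add (pd_smooth h.isOpen (h.smooth i l) j)).sub
    (pd_smooth h.isOpen (h.smooth i j) l)

omit [Fintype ι] [DecidableEq ι] in
theorem GoodMat.pd_symm (h : GoodMat U G) (hy : y ∈ U) (k i j : ι) :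
    pd e k (fun z => G z i j) y = pd e k (fun z => G z j i) y :=
  pd_congr_on h.isOpen (fun _ hz => h.symm hz i j) hy k

theorem GoodMat.chr_symm (h : GoodMat U G) (hy : y ∈ U) (k i j : ι) :
    chr e G k i j y = chr e G k j i y := by
  unfold chr
  congr 1
  refine Finset.sum_congr rfl fun l _ => ?_
  rw [h.pd_symm hy l i j]
  ring

/-- `∑_l G_{al} Γ^l_{ij} = (∂_i G_{ja} + ∂_j G_{ia} - ∂_a G_{ij}) / 2` -/
theorem GoodMat.low (h : GoodMat U G) (hy : y ∈ U) (a i j : ι) :
    ∑ l, G y a l * chr e G l i j y = (1 / 2) *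
      (pd e i (fun z => G z j a) y + pd e j (fun z => G z i a) y - pd e a (fun z => G z i j) y) := by
  unfold chr
  have h1 : ∀ l, G y a l * ((1 / 2) * ∑ p, (G y)⁻¹ l p *
      (pd e i (fun z => G z j p) y + pd e j (fun z => G z i p) y - pd e p (fun z => G z i j) y)) =
      ∑ p, (1 / 2) * ((G y a l * (G y)⁻¹ l p) *
      (pd e i (fun z => G z j p) y + pd e j (fun z => G z i p) y -
        pd e p (fun z => G z i j) y)) := by
    intro l
    rw [← mul_assoc, Finset.mul_sum]
    refine Finset.sum_congr rfl fun p _ => ?_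
    ring
  rw [Finset.sum_congr rfl fun l _ => h1 l, Finset.sum_comm]
  have h2 : ∀ p, ∑ l, (1 / 2) * ((G y a l * (G y)⁻¹ l p) *
      (pd e i (fun z => G z j p) y + pd e j (fun z => G z i p) y -
        pd e p (fun z => G z i j) y)) =
      (1 / 2) * ((if a = p then 1 else 0) *
      (pd e i (fun z => G z j p) y + pd e j (fun z => G z i p) y -
        pd e p (fun z => G z i j) y)) := by
    intro p
    rw [← Finset.mul_sum, ← Finset.sum_mul, h.mul_inv hy]
  rw [Finset.sum_congr rfl fun p _ => h2 p, ← Finset.mul_sum]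
  simp

/-- the metric is parallel -/
theorem GoodMat.met (h : GoodMat U G) (hy : y ∈ U) (k i j : ι) :
    pd e k (fun z => G z i j) y =
      ∑ l, (chr e G l k i y * G y l j + chr e G l k j y * G y i l) := by
  rw [Finset.sum_add_distrib]
  have h1 : ∑ l, chr e G l k i y * G y l j = ∑ l, G y j l * chr e G l k i y :=
    Finset.sum_congr rfl fun l _ => by rw [h.symm hy l j, mul_comm]
  have h2 : ∑ l, chr e G l k j y * G y i l = ∑ l, G y i l * chr e G l k j y :=
    Finset.sum_congr rfl fun l _ => mul_comm _ _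
  rw [h1, h2, h.low hy, h.low hy, h.pd_symm hy k j i]
  ring

/-- the derivative of the inverse matrix -/
theorem GoodMat.pd_inv (h : GoodMat U G) (hy : y ∈ U) (k i j : ι) :
    pd e k (fun z => (G z)⁻¹ i j) y =
      -∑ a, ∑ b, (G y)⁻¹ i a * pd e k (fun z => G z a b) y * (G y)⁻¹ b j := by
  have hd1 : ∀ i j, DifferentiableAt ℝ (fun z => G z i j) y := fun i j =>
    diffAt h.isOpen (h.smooth i j) hy
  have hd2 : ∀ i j, DifferentiableAt ℝ (fun z => (G z)⁻¹ i j) y := fun i j =>
    diffAt h.isOpen (h.inv_smooth i j) hy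
  have h1 : ∀ b, pd e k (fun z => ∑ a, (G z)⁻¹ i a * G z a b) y = 0 := by
    intro b
    rw [pd_congr_on h.isOpen (G := fun _ => if i = b then 1 else 0)
      (fun z hz => h.inv_mul hz i b) hy k, pd_const]
  have h2 : ∀ b, ∑ a, ((G y)⁻¹ i a * pd e k (fun z => G z a b) y +
      pd e k (fun z => (G z)⁻¹ i a) y * G y a b) = 0 := by
    intro b
    rw [← h1 b, pd_sum (F := fun a z => (G z)⁻¹ i a * G z a b)
      (fun a _ => (hd2 i a).mul (hd1 a b))]
    refine Finset.sum_congr rfl fun a _ => ?_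
    rw [pd_mul (hd2 i a) (hd1 a b)]
  have h3 : ∀ b, ∑ a, pd e k (fun z => (G z)⁻¹ i a) y * G y a b =
      -∑ a, (G y)⁻¹ i a * pd e k (fun z => G z a b) y := by
    intro b
    have := h2 b
    rw [Finset.sum_add_distrib] at this
    linarith
  have h4 : pd e k (fun z => (G z)⁻¹ i j) y =
      ∑ b, (∑ a, pd e k (fun z => (G z)⁻¹ i a) y * G y a b) * (G y)⁻¹ b j := by
    have h5 : ∀ b, (∑ a, pd e k (fun z => (G z)⁻¹ i a) y * G y a b) * (G y)⁻¹ b j =
        ∑ a, pd e k (fun z => (G z)⁻¹ i a) y * (G y a b * (G y)⁻¹ b j) := by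
      intro b
      rw [Finset.sum_mul]
      exact Finset.sum_congr rfl fun a _ => by ring
    rw [Finset.sum_congr rfl fun b _ => h5 b, Finset.sum_comm]
    have h6 : ∀ a, ∑ b, pd e k (fun z => (G z)⁻¹ i a) y * (G y a b * (G y)⁻¹ b j) =
        pd e k (fun z => (G z)⁻¹ i a) y * (if a = j then 1 else 0) := by
      intro a
      rw [← Finset.mul_sum, h.mul_inv hy]
    rw [Finset.sum_congr rfl fun a _ => h6 a]
    simp
  rw [h4, Finset.sum_congr rfl fun b _ => by rw [h3 b, neg_mul, Finset.sum_mul],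
    Finset.sum_neg_distrib, Finset.sum_comm]

/-- the inverse metric is parallel -/
theorem GoodMat.inv_met (h : GoodMat U G) (hy : y ∈ U) (k i j : ι) :
    pd e k (fun z => (G z)⁻¹ i j) y =
      -∑ l, (chr e G i k l y * (G y)⁻¹ l j + chr e G j k l y * (G y)⁻¹ i l) := by
  rw [h.pd_inv hy]
  congr 1
  have h1 : ∀ a b, (G y)⁻¹ i a * pd e k (fun z => G z a b) y * (G y)⁻¹ b j =
      (∑ l, (G y)⁻¹ i a * G y a l * (chr e G l k b y * (G y)⁻¹ b j)) +
        ∑ l, G y l b * (G y)⁻¹ b j * (chr e G l k a y * (G y)⁻¹ i a) := by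
    intro a b
    rw [h.met hy, Finset.mul_sum, Finset.sum_mul, ← Finset.sum_add_distrib]
    exact Finset.sum_congr rfl fun l _ => by ring
  simp only [h1, Finset.sum_add_distrib]
  congr 1
  · have h2 : ∀ a, ∑ b, ∑ l, (G y)⁻¹ i a * G y a l * (chr e G l k b y * (G y)⁻¹ b j) =
        ∑ l, (G y)⁻¹ i a * G y a l * ∑ b, chr e G l k b y * (G y)⁻¹ b j := by
      intro a
      rw [Finset.sum_comm]
      exact Finset.sum_congr rfl fun l _ => (Finset.mul_sum _ _ _).symm
    rw [Finset.sum_congr rfl fun a _ => h2 a, Finset.sum_comm]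
    have h3 : ∀ l, ∑ a, (G y)⁻¹ i a * G y a l * ∑ b, chr e G l k b y * (G y)⁻¹ b j =
        (if i = l then 1 else 0) * ∑ b, chr e G l k b y * (G y)⁻¹ b j := by
      intro l
      rw [← Finset.sum_mul, h.inv_mul hy]
    rw [Finset.sum_congr rfl fun l _ => h3 l]
    simp
  · have h2 : ∀ a, ∑ b, ∑ l, G y l b * (G y)⁻¹ b j * (chr e G l k a y * (G y)⁻¹ i a) =
        chr e G j k a y * (G y)⁻¹ i a := by
      intro a
      rw [Finset.sum_comm]
      have h3 : ∀ l, ∑ b, G y l b * (G y)⁻¹ b j * (chr e G l k a y * (G y)⁻¹ i a) =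
          (if l = j then 1 else 0) * (chr e G l k a y * (G y)⁻¹ i a) := by
        intro l
        rw [← Finset.sum_mul, h.mul_inv hy]
      rw [Finset.sum_congr rfl fun l _ => h3 l]
      simp
    rw [Finset.sum_congr rfl fun a _ => h2 a]

end Pool.Agent.Work.MP_2fa4be_gt
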