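import Pool.Agent.Work.MP_2fa4be_gt.Space

/-!
# Module Mean: power means of finitely many functions (proved)
-/

namespace Pool.Agent.Work.MP_2fa4be_gt

open scoped ContDiff Topology

variable {E ι K : Type*} [NormedAddCommGroup E] [NormedSpace ℝ E] [Fintype ι] [DecidableEq ι]
  [Fintype K] {e : ι → E} {y : E} {U : Set E} {G : E → Matrix ι ι ℝ} {ν φ : E → ℝ} {β q : ℝ}
  {η : K → ℝ} {u : K → E → ℝ}

/-- the power mean with exponent `q` and weights `η` of the numbers `a` -/
noncomputable def pmean (q : ℝ) (η a : K → ℝ) : ℝ :=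
  if q = 0 then ∑ k, η k * a k else (1 / q) * Real.log (∑ k, η k * Real.exp (q * a k))

/-- the weights at a point -/
noncomputable def wt (q : ℝ) (η a : K → ℝ) (k : K) : ℝ :=
  η k * Real.exp (q * a k) * (∑ j, η j * Real.exp (q * a j))⁻¹

theorem sum_exp_pos (hη : ∀ k, 0 ≤ η k) (hη1 : ∑ k, η k = 1) (a : K → ℝ) :
    0 < ∑ k, η k * Real.exp (q * a k) := by
  have h1 : ∃ k ∈ Finset.univ, 0 < η k := by
    by_contra hcon
    push Not at hcon
    have h2 : ∑ k, η k ≤ 0 := Finset.sum_nonpos hcon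
    linarith
  obtain ⟨k, hk, hk0⟩ := h1
  exact Finset.sum_pos' (fun j _ => mul_nonneg (hη j) (Real.exp_pos _).le)
    ⟨k, hk, mul_pos hk0 (Real.exp_pos _)⟩

theorem wt_nonneg (hη : ∀ k, 0 ≤ η k) (hη1 : ∑ k, η k = 1) (a : K → ℝ) (k : K) :
    0 ≤ wt q η a k := by
  have h1 := sum_exp_pos (q := q) hη hη1 a
  have h2 := hη k
  unfold wt
  positivity

theorem wt_sum (hη : ∀ k, 0 ≤ η k) (hη1 : ∑ k, η k = 1) (a : K → ℝ) :
    ∑ k, wt q η a k = 1 := by
  have h1 := sum_exp_pos (q := q) hη hη1 a
  unfold wt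
  rw [← Finset.sum_mul, mul_inv_cancel₀ h1.ne']

theorem pmean_smooth (hη : ∀ k, 0 ≤ η k) (hη1 : ∑ k, η k = 1)
    (hu : ∀ k, ContDiffOn ℝ ∞ (u k) U) :
    ContDiffOn ℝ ∞ (fun z => pmean q η (fun k => u k z)) U := by
  unfold pmean
  split_ifs
  · exact ContDiffOn.sum fun k _ => contDiffOn_const.mul (hu k)
  · refine contDiffOn_const.mul (ContDiffOn.log (ContDiffOn.sum fun k _ =>
      contDiffOn_const.mul (Real.contDiff_exp.comp_contDiffOn (contDiffOn_const.mul (hu k))))
      fun z _ => (sum_exp_pos hη hη1 _).ne')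

/-- first derivatives of the power mean -/
theorem pd_pmean (hU : IsOpen U) (hη : ∀ k, 0 ≤ η k) (hη1 : ∑ k, η k = 1)
    (hu : ∀ k, ContDiffOn ℝ ∞ (u k) U) (hy : y ∈ U) (i : ι) :
    pd e i (fun z => pmean q η (fun k => u k z)) y =
      ∑ k, wt q η (fun k => u k y) k * pd e i (u k) y := by
  have hd := fun k => diffAt hU (hu k) hy
  unfold pmean wt
  split_ifs with hq
  · rw [pd_sum (F := fun k z => η k * u k z) fun k _ => (hd k).const_mul _]
    refine Finset.sum_congr rfl fun k _ => ?_
    rw [pd_const_mul (hd k), hq]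
    simp [hη1]
  · have h1 := sum_exp_pos (q := q) hη hη1 (fun k => u k y)
    have hdq : ∀ k, DifferentiableAt ℝ (fun z => q * u k z) y := fun k => (hd k).const_mul _
    have hde : ∀ k, DifferentiableAt ℝ (fun z => Real.exp (q * u k z)) y := fun k => (hdq k).exp
    have hS : DifferentiableAt ℝ (fun z => ∑ k, η k * Real.exp (q * u k z)) y :=
      DifferentiableAt.fun_sum fun k _ => (hde k).const_mul _
    have hlog : DifferentiableAt ℝ (fun z => Real.log (∑ k, η k * Real.exp (q * u k z))) y :=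
      hS.log h1.ne'
    rw [pd_const_mul hlog, pd_log hS h1.ne',
      pd_sum (F := fun k z => η k * Real.exp (q * u k z)) fun k _ => (hde k).const_mul _,
      Finset.mul_sum, Finset.mul_sum]
    refine Finset.sum_congr rfl fun k _ => ?_
    rw [pd_const_mul (hde k), pd_exp (hdq k), pd_const_mul (hd k)]
    field_simp

/-- second derivatives of the power mean -/
theorem pd2_pmean (hU : IsOpen U) (hη : ∀ k, 0 ≤ η k) (hη1 : ∑ k, η k = 1)
    (hu : ∀ k, ContDiffOn ℝ ∞ (u k) U) (hy : y ∈ U) (i j : ι) :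
    pd e i (pd e j (fun z => pmean q η (fun k => u k z))) y =
      ∑ k, wt q η (fun k => u k y) k * (pd e i (pd e j (u k)) y +
        q * (pd e i (u k) y * pd e j (u k) y)) -
      q * (pd e i (fun z => pmean q η (fun k => u k z)) y *
        pd e j (fun z => pmean q η (fun k => u k z)) y) := by
  have hd := fun k => diffAt hU (hu k) hy
  have h1 := sum_exp_pos (q := q) hη hη1 (fun k => u k y)
  have hdq : ∀ k, DifferentiableAt ℝ (fun z => q * u k z) y := fun k => (hd k).const_mul _
  have hde : ∀ k, DifferentiableAt ℝ (fun z => Real.exp (q * u k z)) y := fun k => (hdq k).exp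
  have hS : DifferentiableAt ℝ (fun z => ∑ k, η k * Real.exp (q * u k z)) y :=
    DifferentiableAt.fun_sum fun k _ => (hde k).const_mul _
  have hSi : DifferentiableAt ℝ (fun z => (∑ k, η k * Real.exp (q * u k z))⁻¹) y := hS.inv h1.ne'
  have hdj : ∀ k, DifferentiableAt ℝ (pd e j (u k)) y := fun k =>
    diffAt hU (pd_smooth hU (hu k) j) hy
  have hde2 : ∀ k, DifferentiableAt ℝ (fun z => η k * Real.exp (q * u k z)) y := fun k =>
    (hde k).const_mul _
  have hTk : ∀ k, DifferentiableAt ℝ (fun z => η k * Real.exp (q * u k z) * pd e j (u k) z) y :=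
    fun k => (hde2 k).mul (hdj k)
  have hT : DifferentiableAt ℝ (fun z => ∑ k, η k * Real.exp (q * u k z) * pd e j (u k) z) y :=
    DifferentiableAt.fun_sum fun k _ => hTk k
  have hS1 : pd e i (fun z => ∑ k, η k * Real.exp (q * u k z)) y =
      q * ∑ k, η k * Real.exp (q * u k y) * pd e i (u k) y := by
    rw [pd_sum (F := fun k z => η k * Real.exp (q * u k z)) fun k _ => hde2 k, Finset.mul_sum]
    refine Finset.sum_congr rfl fun k _ => ?_
    rw [pd_const_mul (hde k), pd_exp (hdq k), pd_const_mul (hd k)]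
    ring
  have hT1 : pd e i (fun z => ∑ k, η k * Real.exp (q * u k z) * pd e j (u k) z) y =
      ∑ k, η k * Real.exp (q * u k y) * (pd e i (pd e j (u k)) y +
        q * (pd e i (u k) y * pd e j (u k) y)) := by
    rw [pd_sum (F := fun k z => η k * Real.exp (q * u k z) * pd e j (u k) z) fun k _ => hTk k]
    refine Finset.sum_congr rfl fun k _ => ?_
    rw [pd_mul (hde2 k) (hdj k), pd_const_mul (hde k), pd_exp (hdq k), pd_const_mul (hd k)]
    ring
  have hpd : ∀ z ∈ U, pd e j (fun z => pmean q η (fun k => u k z)) z =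
      (∑ k, η k * Real.exp (q * u k z) * pd e j (u k) z) *
        (∑ k, η k * Real.exp (q * u k z))⁻¹ := by
    intro z hz
    rw [pd_pmean hU hη hη1 hu hz j, Finset.sum_mul]
    unfold wt
    exact Finset.sum_congr rfl fun k _ => by ring
  have hpdi : pd e i (fun z => pmean q η (fun k => u k z)) y =
      (∑ k, η k * Real.exp (q * u k y) * pd e i (u k) y) *
        (∑ k, η k * Real.exp (q * u k y))⁻¹ := by
    rw [pd_pmean hU hη hη1 hu hy i, Finset.sum_mul]
    unfold wt
    exact Finset.sum_congr rfl fun k _ => by ring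
  have hw : ∑ k, wt q η (fun k => u k y) k * (pd e i (pd e j (u k)) y +
        q * (pd e i (u k) y * pd e j (u k) y)) =
      (∑ k, η k * Real.exp (q * u k y) * (pd e i (pd e j (u k)) y +
        q * (pd e i (u k) y * pd e j (u k) y))) * (∑ k, η k * Real.exp (q * u k y))⁻¹ := by
    rw [Finset.sum_mul]
    unfold wt
    exact Finset.sum_congr rfl fun k _ => by ring
  rw [hw, pd_congr_on hU hpd hy i, pd_mul hT hSi, pd_inv' hS h1.ne', hS1, hT1, hpdi, hpd y hy]
  field_simp
  ring

theorem brk_mean (h : GoodMat U G) (hm : 1 ≤ (Fintype.card ι : ℝ)) (hβ : β ≤ 1)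
    (hq : 2 * q = (Fintype.card ι : ℝ) - 3 + 2 * β) (hη : ∀ k, 0 ≤ η k) (hη1 : ∑ k, η k = 1)
    (hu : ∀ k, ContDiffOn ℝ ∞ (u k) U) (hy : y ∈ U) :
    ∑ k, wt q η (fun k => u k y) k * brk e G β ν (u k) y ≤
      brk e G β ν (fun z => pmean q η (fun k => u k z)) y := by
  have hU := h.isOpen
  set w : K → ℝ := wt q η (fun k => u k y) with hw
  set φ : E → ℝ := fun z => pmean q η (fun k => u k z) with hφ
  have hw0 : ∀ k, 0 ≤ w k := fun k => wt_nonneg hη hη1 _ k
  have hw1 : ∑ k, w k = 1 := wt_sum hη hη1 _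
  have hφs : ContDiffOn ℝ ∞ φ U := pmean_smooth hη hη1 hu
  have hp : ∀ i, pd e i φ y = ∑ k, w k * pd e i (u k) y := fun i => pd_pmean hU hη hη1 hu hy i
  -- first order terms
  have hg1 : ∀ v : E → ℝ, ∑ k, w k * grd e G (u k) v y = grd e G φ v y := by
    intro v
    unfold grd
    simp only [hp, Finset.mul_sum, Finset.sum_mul]
    rw [Finset.sum_comm]
    refine Finset.sum_congr rfl fun i _ => ?_
    rw [Finset.sum_comm]
    refine Finset.sum_congr rfl fun j _ => ?_
    exact Finset.sum_congr rfl fun k _ => by ring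
  -- second order terms
  have hl : lap e G φ y = ∑ k, w k * lap e G (u k) y + q * ∑ k, w k * grd e G (u k) (u k) y -
      q * grd e G φ φ y := by
    have h1 : ∀ i j, (G y)⁻¹ i j * (pd e i (pd e j φ) y - ∑ l, chr e G l i j y * pd e l φ y) =
        ∑ k, w k * ((G y)⁻¹ i j * (pd e i (pd e j (u k)) y -
          ∑ l, chr e G l i j y * pd e l (u k) y)) +
        q * ∑ k, w k * ((G y)⁻¹ i j * (pd e i (u k) y * pd e j (u k) y)) -
        q * ((G y)⁻¹ i j * (pd e i φ y * pd e j φ y)) := by
      intro i j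
      have h2 : ∑ l, chr e G l i j y * pd e l φ y =
          ∑ k, w k * ∑ l, chr e G l i j y * pd e l (u k) y := by
        simp only [hp, Finset.mul_sum]
        rw [Finset.sum_comm]
        refine Finset.sum_congr rfl fun k _ => ?_
        exact Finset.sum_congr rfl fun l _ => by ring
      have h3 : pd e i (pd e j φ) y = ∑ k, w k * pd e i (pd e j (u k)) y +
          q * ∑ k, w k * (pd e i (u k) y * pd e j (u k) y) -
          q * (pd e i φ y * pd e j φ y) := by
        have h4 : pd e i (pd e j φ) y = ∑ k, w k * (pd e i (pd e j (u k)) y +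
          q * (pd e i (u k) y * pd e j (u k) y)) - q * (pd e i φ y * pd e j φ y) :=
          pd2_pmean hU hη hη1 hu hy i j
        rw [h4, Finset.mul_sum, ← Finset.sum_add_distrib]
        congr 1
        exact Finset.sum_congr rfl fun k _ => by ring
      have h5 : ∑ k, w k * ((G y)⁻¹ i j * (pd e i (pd e j (u k)) y -
          ∑ l, chr e G l i j y * pd e l (u k) y)) =
          (G y)⁻¹ i j * (∑ k, w k * pd e i (pd e j (u k)) y -
            ∑ k, w k * ∑ l, chr e G l i j y * pd e l (u k) y) := by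
        rw [← Finset.sum_sub_distrib, Finset.mul_sum]
        exact Finset.sum_congr rfl fun k _ => by ring
      have h6 : ∑ k, w k * ((G y)⁻¹ i j * (pd e i (u k) y * pd e j (u k) y)) =
          (G y)⁻¹ i j * ∑ k, w k * (pd e i (u k) y * pd e j (u k) y) := by
        rw [Finset.mul_sum]
        exact Finset.sum_congr rfl fun k _ => by ring
      rw [h5, h6, h2, h3]
      ring
    have h7 : ∀ T : K → ι → ι → ℝ, ∑ k, w k * ∑ i, ∑ j, T k i j =
        ∑ i, ∑ j, ∑ k, w k * T k i j := by
      intro T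
      simp only [Finset.mul_sum]
      rw [Finset.sum_comm]
      exact Finset.sum_congr rfl fun i _ => Finset.sum_comm
    unfold lap grd
    rw [h7, h7]
    simp only [h1, Finset.sum_add_distrib, Finset.sum_sub_distrib, ← Finset.mul_sum]
  -- convexity
  have hV : grd e G φ φ y ≤ ∑ k, w k * grd e G (u k) (u k) y := by
    have hφd := diffAt hU hφs hy
    have h1 : ∀ k, 0 ≤ grd e G (u k) (u k) y - 2 * grd e G (u k) φ y + grd e G φ φ y := by
      intro k
      have hkd := diffAt hU (hu k) hy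
      have h2 : 0 ≤ grd e G (fun z => 1 * u k z + (-1) * φ z)
        (fun z => 1 * u k z + (-1) * φ z) y := grd_nonneg h hy
      rw [grd_lin_left hkd hφd, grd_lin_right hkd hφd, grd_lin_right hkd hφd,
        grd_comm (f := φ) (u := u k) h hy] at h2
      linarith
    have h3 : 0 ≤ ∑ k, w k * (grd e G (u k) (u k) y - 2 * grd e G (u k) φ y + grd e G φ φ y) :=
      Finset.sum_nonneg fun k _ => mul_nonneg (hw0 k) (h1 k)
    have h4 : ∑ k, w k * (grd e G (u k) (u k) y - 2 * grd e G (u k) φ y + grd e G φ φ y) =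
        ∑ k, w k * grd e G (u k) (u k) y - 2 * ∑ k, w k * grd e G (u k) φ y +
          (∑ k, w k) * grd e G φ φ y := by
      rw [Finset.mul_sum, Finset.sum_mul, ← Finset.sum_sub_distrib, ← Finset.sum_add_distrib]
      exact Finset.sum_congr rfl fun k _ => by ring
    rw [h4, hg1, hw1] at h3
    linarith
  have hsum : ∑ k, w k * brk e G β ν (u k) y = scal e G y -
      2 * ((Fintype.card ι : ℝ) - 1 + β) * ∑ k, w k * lap e G (u k) y -
      (((Fintype.card ι : ℝ) - 1) * ((Fintype.card ι : ℝ) - 2) + 2 * β ^ 2 +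
        2 * ((Fintype.card ι : ℝ) - 2) * β) * ∑ k, w k * grd e G (u k) (u k) y -
      2 * lap e G ν y - 2 * grd e G ν ν y -
      (4 * β + 2 * ((Fintype.card ι : ℝ) - 2)) * grd e G φ ν y := by
    rw [← hg1 ν]
    have h1 : scal e G y - 2 * lap e G ν y - 2 * grd e G ν ν y =
        ∑ k, w k * (scal e G y - 2 * lap e G ν y - 2 * grd e G ν ν y) := by
      rw [← Finset.sum_mul, hw1, one_mul]
    have h2 : ∀ a b c d : ℝ, scal e G y - a - b - 2 * lap e G ν y - 2 * grd e G ν ν y - d =
        (scal e G y - 2 * lap e G ν y - 2 * grd e G ν ν y) - a - b - d := by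
      intro a b c d
      ring
    rw [h2 _ _ 0, h1, Finset.mul_sum, Finset.mul_sum, Finset.mul_sum, ← Finset.sum_sub_distrib,
      ← Finset.sum_sub_distrib, ← Finset.sum_sub_distrib]
    refine Finset.sum_congr rfl fun k _ => ?_
    unfold brk
    ring
  rw [hsum]
  unfold brk
  rw [hl]
  set m : ℝ := (Fintype.card ι : ℝ) with hmdef
  have hqv : q = (m - 3 + 2 * β) / 2 := by linarith
  have hfin : 0 ≤ (m - 1) * (1 - β) * (∑ k, w k * grd e G (u k) (u k) y - grd e G φ φ y) :=
    mul_nonneg (mul_nonneg (by linarith) (by linarith)) (by linarith)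
  rw [hqv]
  nlinarith [hfin]

end Pool.Agent.Work.MP_2fa4be_gt
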