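import Pool.Agent.Work.MP_2fa4be_gt.Defs

/-!
# Module Pd: rules for partial derivatives (everything here is proved)
-/

namespace Pool.Agent.Work.MP_2fa4be_gt

open scoped ContDiff Topology

variable {E ι : Type*} [NormedAddCommGroup E] [NormedSpace ℝ E] {e : ι → E} {y : E} {U : Set E}
  {F G : E → ℝ}

theorem pd_const (c : ℝ) (i : ι) : pd e i (fun _ => c) y = 0 := by
  simp [pd]

theorem pd_add (hF : DifferentiableAt ℝ F y) (hG : DifferentiableAt ℝ G y) (i : ι) :
    pd e i (fun z => F z + G z) y = pd e i F y + pd e i G y := by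
  unfold pd
  rw [fderiv_fun_add hF hG]
  rfl

theorem pd_sub (hF : DifferentiableAt ℝ F y) (hG : DifferentiableAt ℝ G y) (i : ι) :
    pd e i (fun z => F z - G z) y = pd e i F y - pd e i G y := by
  unfold pd
  rw [fderiv_fun_sub hF hG]
  rfl

theorem pd_neg (i : ι) : pd e i (fun z => -F z) y = -pd e i F y := by
  unfold pd
  rw [fderiv_fun_neg]
  rfl

theorem pd_mul (hF : DifferentiableAt ℝ F y) (hG : DifferentiableAt ℝ G y) (i : ι) :
    pd e i (fun z => F z * G z) y = F y * pd e i G y + pd e i F y * G y := by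
  unfold pd
  rw [fderiv_fun_mul hF hG]
  simp only [ContinuousLinearMap.add_apply, ContinuousLinearMap.smul_apply, smul_eq_mul]
  ring

theorem pd_const_mul (hF : DifferentiableAt ℝ F y) (c : ℝ) (i : ι) :
    pd e i (fun z => c * F z) y = c * pd e i F y := by
  rw [pd_mul (differentiableAt_const c) hF, pd_const, zero_mul, add_zero]

theorem pd_sum {κ : Type*} {s : Finset κ} {F : κ → E → ℝ}
    (hF : ∀ k ∈ s, DifferentiableAt ℝ (F k) y) (i : ι) :
    pd e i (fun z => ∑ k ∈ s, F k z) y = ∑ k ∈ s, pd e i (F k) y := by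
  unfold pd
  rw [fderiv_fun_sum hF, ContinuousLinearMap.sum_apply]

theorem pd_exp (hF : DifferentiableAt ℝ F y) (i : ι) :
    pd e i (fun z => Real.exp (F z)) y = Real.exp (F y) * pd e i F y := by
  unfold pd
  rw [fderiv_exp hF]
  rfl

theorem pd_log (hF : DifferentiableAt ℝ F y) (h0 : F y ≠ 0) (i : ι) :
    pd e i (fun z => Real.log (F z)) y = (F y)⁻¹ * pd e i F y := by
  unfold pd
  rw [fderiv.log hF h0]
  rfl

theorem pd_congr (h : F =ᶠ[𝓝 y] G) (i : ι) : pd e i F y = pd e i G y := by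
  unfold pd
  rw [h.fderiv_eq]

/-- functions which agree on an open set have the same derivatives there -/
theorem pd_congr_on (hU : IsOpen U) (h : ∀ z ∈ U, F z = G z) (hy : y ∈ U) (i : ι) :
    pd e i F y = pd e i G y :=
  pd_congr (Filter.eventually_of_mem (hU.mem_nhds hy) h) i

theorem diffAt (hU : IsOpen U) (hF : ContDiffOn ℝ ∞ F U) (hy : y ∈ U) : DifferentiableAt ℝ F y :=
  (hF.contDiffAt (hU.mem_nhds hy)).differentiableAt (by simp)

theorem pd_smooth (hU : IsOpen U) (hF : ContDiffOn ℝ ∞ F U) (i : ι) :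
    ContDiffOn ℝ ∞ (pd e i F) U := by
  have h1 : ContDiffOn ℝ ∞ (fderiv ℝ F) U := hF.fderiv_of_isOpen hU (by simp)
  exact h1.clm_apply contDiffOn_const

theorem pd_comm (hU : IsOpen U) (hF : ContDiffOn ℝ ∞ F U) (hy : y ∈ U) (i j : ι) :
    pd e i (pd e j F) y = pd e j (pd e i F) y := by
  have hF' : ContDiffAt ℝ ∞ F y := hF.contDiffAt (hU.mem_nhds hy)
  have h1 : ContDiffAt ℝ 1 (fderiv ℝ F) y := hF'.fderiv_right (by norm_cast)
  have h2 : DifferentiableAt ℝ (fderiv ℝ F) y := h1.differentiableAt (by simp)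
  have h3 : ∀ a b : ι, pd e a (pd e b F) y = fderiv ℝ (fderiv ℝ F) y (e a) (e b) := by
    intro a b
    unfold pd
    rw [fderiv_clm_apply h2 (differentiableAt_const _)]
    simp
  rw [h3, h3]
  have h4 : IsSymmSndFDerivAt ℝ F y := by
    apply ContDiffAt.isSymmSndFDerivAt (n := 2) (hF'.of_le (by norm_cast))
    simp
  exact h4 (e i) (e j)

end Pool.Agent.Work.MP_2fa4be_gt
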