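import Pool.Agent.Work.MP_2fa4be_gt.Metric

/-!
# Module Reduce: reduction to an inequality for the time derivatives
-/

namespace Pool.Agent.Work.MP_2fa4be_gt

open scoped Manifold ContDiff Topology
open Bundle

variable {m : ℕ} {M : Type*} [TopologicalSpace M] [ChartedSpace (Eu m) M] [IsManifold (𝓡 m) ∞ M]

/-- the time part -/
noncomputable def tpart (m : ℕ) (β : ℝ) (N : ℝ) (a a1 a2 : ℝ) : ℝ :=
  ((m : ℝ) + 1) * Real.exp ((((m : ℝ) + 1) / 2 + β) * a) +
    2 * (N ^ 2)⁻¹ * Real.exp ((((m : ℝ) + 1) / 2 - β) * a) *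
      (a2 + (((m : ℝ) + 1) / 2 - β) * a1 ^ 2)

/-- the weights and the times -/
def TimeOK {M : Type*} (m : ℕ) (β : ℝ) (N : M → ℝ) (f : M × ℝ → ℝ) : Prop :=
  ∃ (K : ℕ) (τ η : Fin K → ℝ), (∀ k, τ k ∈ Set.Ioo (-1 : ℝ) 1) ∧ (∀ k, 0 ≤ η k) ∧
    ∑ k, η k = 1 ∧ ∀ x, 0 < ∑ k, η k * tpart m β (N x) (f (x, τ k))
      (deriv (fun s => f (x, s)) (τ k)) (deriv (fun s => deriv (fun r => f (x, r)) s) (τ k))

omit [IsManifold (𝓡 m) ∞ M] in
theorem ConfPSC.admits {h : RMetric m M} (hc : ConfPSC h) : AdmitsPSC m M := by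
  obtain ⟨h', _, _, _, h1⟩ := hc
  exact ⟨h', h1⟩

theorem psc_of_time (hm : 2 ≤ m) (h : RMetric m M) {N : M → ℝ}
    (hN : ContMDiff (𝓡 m) 𝓘(ℝ) ∞ N) (hN0 : ∀ x, 0 < N x) {β : ℝ} (hβ1 : β ≤ 1)
    {f : M × ℝ → ℝ}
    (hf : ContMDiffOn ((𝓡 m).prod 𝓘(ℝ)) 𝓘(ℝ) ∞ f (Set.univ ×ˢ Set.Ioo (-1) 1))
    (hs : ∀ x, ∀ t ∈ Set.Ioo (-1 : ℝ) 1, ((m : ℝ) + 1) * m ≤ bandScal h N β f x t)
    (ht : TimeOK m β N f) : ConfPSC h := by
  obtain ⟨K, τ, η, hτ, hη, hη1, hsum⟩ := ht
  set q : ℝ := ((m : ℝ) + 1) / 2 + β - 2 with hq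
  have hm0 : (0 : ℝ) < m := by
    have : 0 < m := by omega
    exact_mod_cast this
  have hm1 : (1 : ℝ) < m := by
    have : 1 < m := by omega
    exact_mod_cast this
  have hcard : (Fintype.card (Fin m) : ℝ) = m := by simp
  -- smoothness of the slices
  have hfs : ∀ t ∈ Set.Ioo (-1 : ℝ) 1, ContMDiff (𝓡 m) 𝓘(ℝ) ∞ (fun x => f (x, t)) := by
    intro t ht
    have h1 : ContMDiff (𝓡 m) ((𝓡 m).prod 𝓘(ℝ)) ∞ (fun x : M => (x, t)) :=
      contMDiff_id.prodMk contMDiff_const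
    exact contMDiffOn_univ.1 (hf.comp h1.contMDiffOn fun x _ => ⟨Set.mem_univ _, ht⟩)
  have hlog : ContMDiff (𝓡 m) 𝓘(ℝ) ∞ (fun x => Real.log (N x)) := by
    intro x
    exact (Real.contDiffAt_log.2 (hN0 x).ne').contMDiffAt.comp x (hN x)
  have hpm : ContMDiff (𝓡 m) 𝓘(ℝ) ∞ (fun x => pmean q η (fun k => f (x, τ k))) := by
    have h1 : ContDiff ℝ ∞ (fun a : Fin K → ℝ => pmean q η a) := by
      have h2 := pmean_smooth (q := q) (E := Fin K → ℝ) (u := fun k a => a k) (U := Set.univ)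
        hη hη1 (fun k => (contDiff_apply ℝ ℝ k).contDiffOn)
      exact contDiffOn_univ.1 h2
    have h3 : ContMDiff (𝓡 m) 𝓘(ℝ, Fin K → ℝ) ∞ (fun x : M => fun k => f (x, τ k)) :=
      contMDiff_pi_space.2 fun k => hfs (τ k) (hτ k)
    exact h1.contMDiff.comp h3
  set ψ : M → ℝ := fun x => (1 + β / ((m : ℝ) - 1)) * pmean q η (fun k => f (x, τ k)) +
    (1 / ((m : ℝ) - 1)) * Real.log (N x) with hψdef
  have hψ : ContMDiff (𝓡 m) 𝓘(ℝ) ∞ ψ :=
    (contMDiff_const.mul hpm).add (contMDiff_const.mul hlog)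
  obtain ⟨h', hh'⟩ := exists_scaled h hψ
  refine ⟨h', ψ, hψ, fun c _ y _ => hh' c y, fun x => ?_⟩
  have hG := coeff_good h x
  have hy := mem_dom (m := m) x
  set y₀ : Eu m := chartAt (Eu m) x x with hy₀
  have hu : ∀ k, ContDiffOn ℝ ∞ (fun y => f (pt x y, τ k)) (dom m x) := fun k =>
    comp_pt (hfs (τ k) (hτ k)) x
  have hν : ContDiffOn ℝ ∞ (fun y => Real.log (N (pt x y))) (dom m x) := comp_pt hlog x
  have hcoeff : coeff h' x = cm (fun z => (1 + β / ((Fintype.card (Fin m) : ℝ) - 1)) *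
      pmean q η (fun k => f (pt x z, τ k)) + (1 / ((Fintype.card (Fin m) : ℝ) - 1)) *
      Real.log (N (pt x z))) (coeff h x) := by
    funext y
    unfold coeff
    rw [hh', hcard]
    rfl
  have hφ := pmean_smooth (q := q) hη hη1 hu
  unfold scalAt
  rw [hcoeff]
  refine scal_static hG (by rw [hcard]; exact hm1) hφ hν hy ?_
  -- positivity of the bracket
  refine lt_of_lt_of_le ?_ (brk_mean (β := β) (q := q) hG (by rw [hcard]; linarith) hβ1
    (by rw [hcard, hq]; ring) hη hη1 hu hy)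
  have hS := sum_exp_pos (q := q) hη hη1 (fun k => f (pt x y₀, τ k))
  have h1 : ∑ k, wt q η (fun k => f (pt x y₀, τ k)) k *
      brk (bas m) (coeff h x) β (fun y => Real.log (N (pt x y))) (fun y => f (pt x y, τ k)) y₀ =
      (∑ k, η k * Real.exp (q * f (pt x y₀, τ k)))⁻¹ * ∑ k, η k *
        (Real.exp (q * f (pt x y₀, τ k)) *
        brk (bas m) (coeff h x) β (fun y => Real.log (N (pt x y))) (fun y => f (pt x y, τ k))
          y₀) := by
    rw [Finset.mul_sum]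
    unfold wt
    exact Finset.sum_congr rfl fun k _ => by ring
  rw [h1]
  refine mul_pos (inv_pos.2 hS) ?_
  have hpt : pt x y₀ = x := pt_self x
  have h2 : ∀ k, (m : ℝ) * tpart m β (N x) (f (x, τ k)) (deriv (fun s => f (x, s)) (τ k))
      (deriv (fun s => deriv (fun r => f (x, r)) s) (τ k)) ≤
      Real.exp (q * f (pt x y₀, τ k)) *
        brk (bas m) (coeff h x) β (fun y => Real.log (N (pt x y))) (fun y => f (pt x y, τ k))
          y₀ := by
    intro k
    have h3 := scal_space (e := bas m) (β := β) (I := Set.Ioo (-1) 1) (t := τ k)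
      (f := fun z : Eu m × ℝ => f (pt x z.1, z.2)) hG isOpen_Ioo (comp_pt_prod hf x) hν hy (hτ k)
    have h4 : bandScal h N β f x (τ k) = scal (fr (bas m)) (bandMat (coeff h x)
      (fun z => Real.exp (Real.log (N (pt x z.1))) * Real.exp (β * f (pt x z.1, z.2)))
      (fun z => f (pt x z.1, z.2))) (y₀, τ k) := by
      unfold bandScal
      congr 2
      funext z
      rw [Real.exp_log (hN0 _)]
    have h5 := hs x (τ k) (hτ k)
    rw [h4, h3] at h5
    simp only [hpt] at h5 ⊢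
    have h6 : (sl (τ k) fun z : Eu m × ℝ => f (pt x z.1, z.2)) = fun y => f (pt x y, τ k) := rfl
    rw [h6, hcard] at h5
    set B := brk (bas m) (coeff h x) β (fun y => Real.log (N (pt x y)))
      (fun y => f (pt x y, τ k)) y₀ with hB
    set a := f (x, τ k) with ha
    set a1 := deriv (fun s => f (x, s)) (τ k) with ha1
    set a2 := deriv (fun s => deriv (fun r => f (x, r)) s) (τ k) with ha2
    have h7 := mul_le_mul_of_nonneg_left h5
      (Real.exp_pos ((((m : ℝ) + 1) / 2 + β) * a)).le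
    have e1 : Real.exp ((((m : ℝ) + 1) / 2 + β) * a) * Real.exp (-(2 * a)) =
        Real.exp (q * a) := by
      rw [← Real.exp_add, hq]
      congr 1
      ring
    have e2 : Real.exp ((((m : ℝ) + 1) / 2 + β) * a) *
        Real.exp (-(2 * Real.log (N x)) - 2 * β * a) =
        (N x ^ 2)⁻¹ * Real.exp ((((m : ℝ) + 1) / 2 - β) * a) := by
      have e3 : (N x ^ 2)⁻¹ = Real.exp (-(2 * Real.log (N x))) := by
        rw [Real.exp_neg, two_mul, Real.exp_add, Real.exp_log (hN0 x)]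
        ring
      rw [e3, ← Real.exp_add, ← Real.exp_add]
      congr 1
      ring
    unfold tpart
    have e4 : Real.exp ((((m : ℝ) + 1) / 2 + β) * a) * (Real.exp (-(2 * a)) * B -
        Real.exp (-(2 * Real.log (N x)) - 2 * β * a) * (m : ℝ) *
        (2 * a2 + ((m : ℝ) + 1 - 2 * β) * a1 ^ 2)) =
        Real.exp (q * a) * B - (N x ^ 2)⁻¹ * Real.exp ((((m : ℝ) + 1) / 2 - β) * a) * (m : ℝ) *
        (2 * a2 + ((m : ℝ) + 1 - 2 * β) * a1 ^ 2) := by
      rw [← e1, ← e2]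
      ring
    rw [e4] at h7
    linarith
  calc (0 : ℝ) < (m : ℝ) * ∑ k, η k * tpart m β (N x) (f (x, τ k))
        (deriv (fun s => f (x, s)) (τ k))
        (deriv (fun s => deriv (fun r => f (x, r)) s) (τ k)) := mul_pos hm0 (hsum x)
    _ = ∑ k, η k * ((m : ℝ) * tpart m β (N x) (f (x, τ k))
        (deriv (fun s => f (x, s)) (τ k))
        (deriv (fun s => deriv (fun r => f (x, r)) s) (τ k))) := by
        rw [Finset.mul_sum]
        exact Finset.sum_congr rfl fun k _ => by ring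
    _ ≤ _ := Finset.sum_le_sum fun k _ => mul_le_mul_of_nonneg_left (h2 k) (hη k)

end Pool.Agent.Work.MP_2fa4be_gt
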