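import Mathlib

/-!
# Module Riem: Riemann sums with parameters (proved)
-/

namespace Pool.Agent.Work.MP_2fa4be_gt

open MeasureTheory

/-- Riemann sums of a continuous function with values in a Banach space -/
theorem riemann_sum {X : Type*} [NormedAddCommGroup X] [NormedSpace ℝ X] [CompleteSpace X]
    {a b : ℝ} (hab : a < b) {Φ : ℝ → X} (hΦ : Continuous Φ) {ε : ℝ} (hε : 0 < ε) :
    ∃ K : ℕ, 0 < K ∧ ‖(∫ s in a..b, Φ s) - ∑ k ∈ Finset.range K,
      ((b - a) / K) • Φ (a + k * ((b - a) / K))‖ < ε := by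
  have hba : 0 < b - a := sub_pos.2 hab
  have huc : UniformContinuousOn Φ (Set.Icc a b) :=
    isCompact_Icc.uniformContinuousOn_of_continuous hΦ.continuousOn
  rw [Metric.uniformContinuousOn_iff] at huc
  obtain ⟨δ, hδ, hδ2⟩ := huc (ε / (2 * (b - a))) (by positivity)
  obtain ⟨K, hK⟩ := exists_nat_gt ((b - a) / δ)
  have hK0 : 0 < (K : ℝ) := lt_trans (by positivity) hK
  have hKpos : 0 < K := by exact_mod_cast hK0
  set h : ℝ := (b - a) / K with hh
  have hhpos : 0 < h := by positivity
  have hhδ : h < δ := by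
    rw [hh, div_lt_iff₀ hK0]
    rw [div_lt_iff₀ hδ] at hK
    linarith
  refine ⟨K, hKpos, ?_⟩
  have hsum : ∑ k ∈ Finset.range K, ∫ s in (a + k * h)..(a + (k + 1 : ℕ) * h), Φ s =
      ∫ s in a..b, Φ s := by
    have h1 := intervalIntegral.sum_integral_adjacent_intervals (μ := volume) (f := Φ)
      (a := fun k : ℕ => a + k * h) (n := K) (fun k _ => hΦ.intervalIntegrable _ _)
    rw [h1]
    have e1 : a + ((0 : ℕ) : ℝ) * h = a := by simp
    have e2 : a + (K : ℝ) * h = b := by
      rw [hh]
      field_simp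
      ring
    rw [e1, e2]
  rw [← hsum, ← Finset.sum_sub_distrib]
  have hterm : ∀ k ∈ Finset.range K, ‖(∫ s in (a + k * h)..(a + (k + 1 : ℕ) * h), Φ s) -
      h • Φ (a + k * h)‖ ≤ ε / (2 * (b - a)) * h := by
    intro k hk
    have hkK : (k : ℝ) + 1 ≤ K := by
      have := Finset.mem_range.1 hk
      exact_mod_cast this
    have hKh : (K : ℝ) * h = b - a := by
      rw [hh]
      field_simp
    have e1 : h • Φ (a + k * h) = ∫ _ in (a + k * h)..(a + (k + 1 : ℕ) * h), Φ (a + k * h) := by
      rw [intervalIntegral.integral_const]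
      congr 1
      push_cast
      ring
    rw [e1, ← intervalIntegral.integral_sub (hΦ.intervalIntegrable _ _) (by simp)]
    have h2 := intervalIntegral.norm_integral_le_of_norm_le_const
      (f := fun s => Φ s - Φ (a + k * h)) (C := ε / (2 * (b - a))) (a := a + k * h)
      (b := a + (k + 1 : ℕ) * h) (by
        intro s hs
        have hle : a + (k : ℝ) * h ≤ a + ((k + 1 : ℕ) : ℝ) * h := by
          push_cast
          nlinarith
        rw [Set.uIoc_of_le hle] at hs
        have hs1 := hs.1
        have hs2 : s ≤ a + ((k : ℝ) + 1) * h := by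
          have := hs.2
          push_cast at this
          exact this
        have hk0 : 0 ≤ (k : ℝ) * h := by positivity
        have hkb : a + ((k : ℝ) + 1) * h ≤ b := by nlinarith
        have hsI : s ∈ Set.Icc a b := ⟨by linarith, by linarith⟩
        have hkI : a + (k : ℝ) * h ∈ Set.Icc a b := ⟨by linarith, by nlinarith⟩
        have hdist : dist s (a + k * h) < δ := by
          rw [Real.dist_eq, abs_of_nonneg (by linarith)]
          linarith
        have := hδ2 s hsI _ hkI hdist
        rw [dist_eq_norm] at this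
        exact this.le)
    refine h2.trans (le_of_eq ?_)
    congr 1
    push_cast
    rw [show a + ((k : ℝ) + 1) * h - (a + k * h) = h by ring, abs_of_pos hhpos]
  calc ‖∑ k ∈ Finset.range K, ((∫ s in (a + k * h)..(a + (k + 1 : ℕ) * h), Φ s) -
        h • Φ (a + k * h))‖
      ≤ ∑ k ∈ Finset.range K, ε / (2 * (b - a)) * h := norm_sum_le_of_le _ hterm
    _ = ε / 2 := by
        rw [Finset.sum_const, Finset.card_range, nsmul_eq_mul, hh]
        field_simp
    _ < ε := by linarith

/-- restriction of the time variable to an interval -/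
noncomputable def clamp (a b t : ℝ) : ℝ := max a (min t b)

theorem clamp_mem {a b : ℝ} (hab : a ≤ b) (t : ℝ) : clamp a b t ∈ Set.Icc a b :=
  ⟨le_max_left _ _, max_le hab (min_le_right _ _)⟩

theorem clamp_of_mem {a b t : ℝ} (ht : t ∈ Set.Icc a b) : clamp a b t = t := by
  unfold clamp
  rw [min_eq_left ht.2, max_eq_right ht.1]

theorem clamp_continuous (a b : ℝ) : Continuous (clamp a b) :=
  continuous_const.max (continuous_id.min continuous_const)

theorem clamp_comp {M : Type*} [TopologicalSpace M] {a b : ℝ} (hab : a ≤ b) {H : M × ℝ → ℝ}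
    (hH : ContinuousOn H (Set.univ ×ˢ Set.Icc a b)) :
    Continuous fun z : M × ℝ => H (z.1, clamp a b z.2) := by
  apply hH.comp_continuous
  · exact continuous_fst.prodMk ((clamp_continuous a b).comp continuous_snd)
  · intro z
    exact ⟨Set.mem_univ _, clamp_mem hab _⟩

/-- a positive integral gives positive Riemann sums, uniformly in a compact parameter -/
theorem riemann_pos {M : Type*} [TopologicalSpace M] [CompactSpace M] [Nonempty M] {a b : ℝ}
    (hab : a < b) {H : M × ℝ → ℝ} (hH : ContinuousOn H (Set.univ ×ˢ Set.Icc a b))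
    (hpos : ∀ x, 0 < ∫ s in a..b, H (x, s)) :
    ∃ (K : ℕ) (s : Fin K → ℝ), (∀ k, s k ∈ Set.Icc a b) ∧ ∀ x, 0 < ∑ k, H (x, s k) := by
  have hc := clamp_comp hab.le hH
  let Ψ : C(ℝ × M, ℝ) := ⟨fun z => H (z.2, clamp a b z.1),
    hc.comp (continuous_snd.prodMk continuous_fst)⟩
  let Φ : C(ℝ, C(M, ℝ)) := Ψ.curry
  set J : C(M, ℝ) := ∫ s in a..b, Φ s with hJ
  have hJx : ∀ x, J x = ∫ s in a..b, H (x, s) := by
    intro x
    have h1 := (ContinuousMap.evalCLM ℝ x).intervalIntegral_comp_comm
      (Φ.continuous.intervalIntegrable (μ := volume) a b)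
    have h2 : J x = (ContinuousMap.evalCLM ℝ x) (∫ s in a..b, Φ s) := rfl
    rw [h2, ← h1]
    refine intervalIntegral.integral_congr fun s hs => ?_
    rw [Set.uIcc_of_le hab.le] at hs
    change H (x, clamp a b s) = H (x, s)
    rw [clamp_of_mem hs]
  obtain ⟨x₀, -, hx₀⟩ := isCompact_univ.exists_isMinOn Set.univ_nonempty J.continuous.continuousOn
  have hδ : 0 < J x₀ := by
    rw [hJx]
    exact hpos x₀
  obtain ⟨K, hK, hK2⟩ := riemann_sum hab Φ.continuous hδ
  have hba : 0 < b - a := sub_pos.2 hab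
  have hK0 : (0 : ℝ) < K := by exact_mod_cast hK
  have hh : 0 < (b - a) / K := by positivity
  have hmem : ∀ k : Fin K, a + (k : ℕ) * ((b - a) / K) ∈ Set.Icc a b := by
    intro k
    have hk : ((k : ℕ) : ℝ) ≤ K := by exact_mod_cast k.2.le
    have hKh : (K : ℝ) * ((b - a) / K) = b - a := by field_simp
    constructor
    · have : 0 ≤ ((k : ℕ) : ℝ) * ((b - a) / K) := by positivity
      linarith
    · have := mul_le_mul_of_nonneg_right hk hh.le
      linarith
  refine ⟨K, fun k => a + (k : ℕ) * ((b - a) / K), hmem, fun x => ?_⟩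
  have h1 : ‖(J - ∑ k ∈ Finset.range K, ((b - a) / K) • Φ (a + k * ((b - a) / K))) x‖ < J x₀ :=
    lt_of_le_of_lt (ContinuousMap.norm_coe_le_norm _ x) hK2
  have h2 : (J - ∑ k ∈ Finset.range K, ((b - a) / K) • Φ (a + k * ((b - a) / K))) x =
      J x - (b - a) / K * ∑ k : Fin K, H (x, a + (k : ℕ) * ((b - a) / K)) := by
    rw [ContinuousMap.sub_apply, ContinuousMap.sum_apply, Finset.mul_sum,
      Finset.sum_range (fun k => (((b - a) / K) • Φ (a + k * ((b - a) / K))) x)]
    congr 1
    refine Finset.sum_congr rfl fun k _ => ?_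
    change (b - a) / K * H (x, clamp a b (a + (k : ℕ) * ((b - a) / K))) = _
    rw [clamp_of_mem (hmem k)]
  rw [h2, Real.norm_eq_abs] at h1
  have h3 := (abs_lt.1 h1).2
  have h4 : J x₀ ≤ J x := hx₀ (Set.mem_univ x)
  have h5 : 0 < (b - a) / K * ∑ k : Fin K, H (x, a + (k : ℕ) * ((b - a) / K)) := by linarith
  exact pos_of_mul_pos_right h5 hh.le

end Pool.Agent.Work.MP_2fa4be_gt
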