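import Mathlib

/-!
# Module TimeA: one variable inequalities (proved)
-/

namespace Pool.Agent.Work.MP_2fa4be_gt

open Real

/-- weighted arithmetic-geometric mean inequality for exponentials -/
theorem exp_young {w a : ℝ} (h0 : 0 ≤ w) (h1 : w ≤ 1) : exp (w * a) ≤ w * exp a + (1 - w) := by
  have h := convexOn_exp.2 (Set.mem_univ a) (Set.mem_univ 0) h0 (sub_nonneg.2 h1)
    (by ring)
  simpa using h

/-- the pointwise inequality behind the estimate of the width -/
theorem pointwise {b r C ζ : ℝ} (hb0 : 0 < b) (hr : 1 ≤ r) (hbr : b * (r + 1) = 1) (hC0 : 0 ≤ C)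
    (hC1 : C ≤ 1) :
    (1 - b) * exp ζ + 2 * b - 2 * b * C - 1 ≤
      (1 - b) * C * exp ((r + 2) * ζ) - ((1 + b) * C - b) * exp (r * ζ) := by
  have hr0 : 0 < r := by linarith
  have hb1 : 1 - b = b * r := by linarith
  -- the case `C = 0`
  have h1 : exp ζ ≤ 1 / r * exp (r * ζ) + (1 - 1 / r) := by
    have h := exp_young (w := 1 / r) (a := r * ζ) (by positivity)
      ((div_le_one hr0).2 hr)
    rwa [← mul_assoc, one_div_mul_cancel hr0.ne', one_mul] at h
  have h2 : 0 ≤ b * exp (r * ζ) - (1 - b) * exp ζ - 2 * b + 1 := by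
    have h3 := mul_le_mul_of_nonneg_left h1 (show 0 ≤ b * r by positivity)
    have h4 : b * r * (1 / r * exp (r * ζ) + (1 - 1 / r)) = b * exp (r * ζ) + (b * r - b) := by
      field_simp
    rw [h4] at h3
    rw [hb1]
    linarith
  -- the case `C = 1`
  have hr2 : 0 < r + 2 := by linarith
  have h5 : exp (r * ζ) ≤ r / (r + 2) * exp ((r + 2) * ζ) + 2 / (r + 2) := by
    have h := exp_young (w := r / (r + 2)) (a := (r + 2) * ζ) (by positivity)
      ((div_le_one hr2).2 (by linarith))
    have e1 : r / (r + 2) * ((r + 2) * ζ) = r * ζ := by field_simp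
    have e2 : 1 - r / (r + 2) = 2 / (r + 2) := by
      field_simp
      ring
    rwa [e1, e2] at h
  have h6 : exp ζ ≤ 1 / (r + 2) * exp ((r + 2) * ζ) + (r + 1) / (r + 2) := by
    have h := exp_young (w := 1 / (r + 2)) (a := (r + 2) * ζ) (by positivity)
      ((div_le_one hr2).2 (by linarith))
    have e1 : 1 / (r + 2) * ((r + 2) * ζ) = ζ := by field_simp
    have e2 : 1 - 1 / (r + 2) = (r + 1) / (r + 2) := by
      field_simp
      ring
    rwa [e1, e2] at h
  have h7 : 0 ≤ (1 - b) * exp ((r + 2) * ζ) - exp (r * ζ) - (1 - b) * exp ζ + 1 := by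
    have h8 : exp (r * ζ) + b * r * exp ζ ≤ b * r * exp ((r + 2) * ζ) + 1 := by
      have h9 := mul_le_mul_of_nonneg_left h6 (show 0 ≤ b * r by positivity)
      have h10 : (r / (r + 2) * exp ((r + 2) * ζ) + 2 / (r + 2)) +
          b * r * (1 / (r + 2) * exp ((r + 2) * ζ) + (r + 1) / (r + 2)) =
          b * r * exp ((r + 2) * ζ) + 1 := by
        have hb : b = 1 / (r + 1) := by
          rw [eq_div_iff (by linarith)]
          exact hbr
        rw [hb]
        field_simp
        ring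
      linarith
    rw [hb1]
    linarith
  nlinarith [mul_nonneg hC0 h7, mul_nonneg (sub_nonneg.2 hC1) h2]

/-- double integration by parts -/
theorem ibp2 {a b : ℝ} {E E1 P P1 V V1 W w : ℝ → ℝ}
    (hE : ∀ s ∈ Set.uIcc a b, HasDerivAt E (E1 s) s)
    (hP : ∀ s ∈ Set.uIcc a b, HasDerivAt P (P1 s) s)
    (hV : ∀ s ∈ Set.uIcc a b, HasDerivAt V (V1 s) s)
    (hW : ∀ s ∈ Set.uIcc a b, HasDerivAt W (V s * w s) s)
    (hPw : ∀ s ∈ Set.uIcc a b, P s * w s = E1 s)
    (cE1 : ContinuousOn E1 (Set.uIcc a b)) (cP1 : ContinuousOn P1 (Set.uIcc a b))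
    (cV1 : ContinuousOn V1 (Set.uIcc a b)) (cw : ContinuousOn w (Set.uIcc a b))
    (ha : E a = 0) (hb : E b = 0) :
    ∫ s in a..b, E s * V1 s = -(P b * W b - P a * W a) + ∫ s in a..b, P1 s * W s := by
  have cV : ContinuousOn V (Set.uIcc a b) := fun s hs => (hV s hs).continuousAt.continuousWithinAt
  have h1 := intervalIntegral.integral_mul_deriv_eq_deriv_mul hE hV
    cE1.intervalIntegrable cV1.intervalIntegrable
  have h2 := intervalIntegral.integral_mul_deriv_eq_deriv_mul hP hW
    cP1.intervalIntegrable (cV.mul cw).intervalIntegrable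
  rw [h1, ha, hb]
  have h3 : ∫ s in a..b, E1 s * V s = ∫ s in a..b, P s * (V s * w s) := by
    refine intervalIntegral.integral_congr fun s hs => ?_
    rw [← hPw s hs]
    ring
  rw [h3, h2]
  ring

end Pool.Agent.Work.MP_2fa4be_gt
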