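import Pool.Agent.Work.MP_2fa4be_gt.TimeA

/-!
# Module TimeB: the estimate for one vertical line (proved)
-/

namespace Pool.Agent.Work.MP_2fa4be_gt

open Real

/-- the density of the time change -/
noncomputable def dens (n b N₀ : ℝ) (s : ℝ) : ℝ := exp (-b * log (cos (n * s / 2))) / N₀

theorem cos_pos_of {n σ s : ℝ} (hn : 0 < n) (hσ1 : σ < π / n) (hs : s ∈ Set.Icc (-σ) σ) :
    0 < cos (n * s / 2) := by
  have h1 : n * σ < π := by
    rw [lt_div_iff₀ hn] at hσ1
    linarith
  apply cos_pos_of_mem_Ioo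
  constructor
  · have : n * (-σ) ≤ n * s := mul_le_mul_of_nonneg_left hs.1 hn.le
    linarith
  · have : n * s ≤ n * σ := mul_le_mul_of_nonneg_left hs.2 hn.le
    linarith

theorem hasDerivAt_cosn (n s : ℝ) :
    HasDerivAt (fun s => cos (n * s / 2)) (-(n / 2) * sin (n * s / 2)) s := by
  have h1 : HasDerivAt (fun s : ℝ => n * s / 2) (n / 2) s := by
    have := ((hasDerivAt_id s).const_mul n).div_const 2
    simpa using this
  exact h1.cos.congr_deriv (by ring)

theorem hasDerivAt_sinn (n s : ℝ) :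
    HasDerivAt (fun s => sin (n * s / 2)) ((n / 2) * cos (n * s / 2)) s := by
  have h1 : HasDerivAt (fun s : ℝ => n * s / 2) (n / 2) s := by
    have := ((hasDerivAt_id s).const_mul n).div_const 2
    simpa using this
  exact h1.sin.congr_deriv (by ring)

theorem hasDerivAt_powc {n s : ℝ} (b : ℝ) (hc : 0 < cos (n * s / 2)) :
    HasDerivAt (fun s => exp (b * log (cos (n * s / 2))))
      (exp (b * log (cos (n * s / 2))) * (b * (-(n / 2) * sin (n * s / 2) / cos (n * s / 2)))) s :=
  (((hasDerivAt_cosn n s).log hc.ne').const_mul b).exp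

/-- the integral of `cos²` -/
theorem int_cos_sq {n : ℝ} (hn : 0 < n) (σ : ℝ) :
    ∫ s in (-σ)..σ, cos (n * s / 2) ^ 2 = σ + sin (n * σ) / n := by
  have h1 : ∀ s : ℝ, HasDerivAt (fun s => s / 2 + sin (n * s) / (2 * n))
      (cos (n * s / 2) ^ 2) s := by
    intro s
    have h2 : HasDerivAt (fun s : ℝ => n * s) n s := by
      simpa using (hasDerivAt_id s).const_mul n
    have h3 := ((hasDerivAt_id s).div_const 2).add (h2.sin.div_const (2 * n))
    have h4 : cos (n * s / 2) ^ 2 = 1 / 2 + cos (n * s) * n / (2 * n) := by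
      rw [cos_sq]
      have : 2 * (n * s / 2) = n * s := by ring
      rw [this]
      field_simp
    rw [h4]
    exact h3
  rw [intervalIntegral.integral_eq_sub_of_hasDerivAt (fun s _ => h1 s)
    (Continuous.intervalIntegrable (by fun_prop) _ _)]
  have : n * -σ = -(n * σ) := by ring
  rw [this, sin_neg]
  field_simp
  ring

theorem est {n β b r N N₀ σ a₀ b₀ : ℝ} (hn : 0 < n) (hβ : 0 < β) (hb : b * n = 2 * β)
    (hr : 1 ≤ r) (hbr : b * (r + 1) = 1) (hN : 0 < N) (hN₀ : 0 < N₀) (hσ0 : 0 < σ)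
    (hσ1 : σ < π / n) {τ : ℝ → ℝ} (hτ : ∀ s ∈ Set.Icc (-σ) σ, HasDerivAt τ (dens n b N₀ s) s)
    (hτa : τ (-σ) = a₀) (hτb : τ σ = b₀) (hτm : ∀ s ∈ Set.Icc (-σ) σ, τ s ∈ Set.Icc a₀ b₀)
    {f f1 f2 : ℝ → ℝ} (hf : ∀ t ∈ Set.Icc a₀ b₀, HasDerivAt f (f1 t) t)
    (hf1 : ∀ t ∈ Set.Icc a₀ b₀, HasDerivAt f1 (f2 t) t) (hf2 : ContinuousOn f2 (Set.Icc a₀ b₀)) :
    n ^ 2 / 4 * N₀ * exp (r * (log N₀ - log N)) *
      ((1 - b) * ((∫ t in a₀..b₀, N * exp (β * f t)) - 2 * σ) - 2 * b / n * sin (n * σ)) -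
      n * (n / 2 - β) * N ^ 2 / 2 * cos (n * σ / 2) * (∫ t in a₀..b₀, exp ((n / 2 + β) * f t)) ≤
    (n / 2 - β) * N ^ 2 / 2 * ∫ s in (-σ)..σ, (cos (n * s / 2) - cos (n * σ / 2)) *
      (n * exp ((n / 2 + β) * f (τ s)) + 2 * (N ^ 2)⁻¹ * exp ((n / 2 - β) * f (τ s)) *
        (f2 (τ s) + (n / 2 - β) * f1 (τ s) ^ 2)) * dens n b N₀ s := by
  have hle : -σ ≤ σ := by linarith
  have hI : Set.uIcc (-σ) σ = Set.Icc (-σ) σ := Set.uIcc_of_le hle
  have hσm : σ ∈ Set.Icc (-σ) σ := ⟨hle, le_refl _⟩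
  have hσm' : -σ ∈ Set.Icc (-σ) σ := ⟨le_refl _, hle⟩
  have hc : ∀ s ∈ Set.Icc (-σ) σ, 0 < cos (n * s / 2) := fun s hs => cos_pos_of hn hσ1 hs
  have hab : a₀ ≤ b₀ := by
    have := hτm _ hσm
    rw [hτb] at this
    exact this.1
  have hI2 : Set.uIcc a₀ b₀ = Set.Icc a₀ b₀ := Set.uIcc_of_le hab
  have hb0 : 0 < b := by
    have : 0 < b * n := by rw [hb]; linarith
    exact pos_of_mul_pos_left this hn.le
  have hκr : n / 2 - β = r * β := by
    have h1 : n = 2 * β * (r + 1) := by
      calc n = b * (r + 1) * n := by rw [hbr, one_mul]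
        _ = b * n * (r + 1) := by ring
        _ = 2 * β * (r + 1) := by rw [hb]
    linarith
  have hκ2 : n / 2 + β = (r + 2) * β := by linarith
  have hκpos : 0 < n / 2 - β := by
    rw [hκr]
    have : 0 < r := by linarith
    positivity
  have hdc : ContinuousOn (dens n b N₀) (Set.Icc (-σ) σ) := by
    intro s hs
    exact (((hasDerivAt_powc (-b) (hc s hs)).continuousAt).div_const _).continuousWithinAt
  have hcontτ : ContinuousOn τ (Set.Icc (-σ) σ) := fun s hs =>
    (hτ s hs).continuousAt.continuousWithinAt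
  have hcf : ContinuousOn f (Set.Icc a₀ b₀) := fun t ht =>
    (hf t ht).continuousAt.continuousWithinAt
  have hcf1 : ContinuousOn f1 (Set.Icc a₀ b₀) := fun t ht =>
    (hf1 t ht).continuousAt.continuousWithinAt
  have hcfτ : ContinuousOn (fun s => f (τ s)) (Set.Icc (-σ) σ) := hcf.comp hcontτ hτm
  have hcf1τ : ContinuousOn (fun s => f1 (τ s)) (Set.Icc (-σ) σ) := hcf1.comp hcontτ hτm
  have hcf2τ : ContinuousOn (fun s => f2 (τ s)) (Set.Icc (-σ) σ) := hf2.comp hcontτ hτm
  set κ : ℝ := n / 2 - β with hκ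
  -- the functions of the integration by parts
  set E : ℝ → ℝ := fun s => cos (n * s / 2) - cos (n * σ / 2) with hE
  set E1 : ℝ → ℝ := fun s => -(n / 2) * sin (n * s / 2) with hE1
  set P : ℝ → ℝ := fun s => N₀ * (exp (b * log (cos (n * s / 2))) * (-(n / 2) * sin (n * s / 2)))
    with hP
  set P1 : ℝ → ℝ := fun s => -(N₀ * (n ^ 2 / 4) * ((1 + b) * cos (n * s / 2) ^ 2 - b) *
    exp ((b - 1) * log (cos (n * s / 2)))) with hP1
  set V : ℝ → ℝ := fun s => κ * f1 (τ s) * exp (κ * f (τ s)) with hV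
  set V1 : ℝ → ℝ := fun s => (exp (κ * f (τ s)) * (κ * f2 (τ s) + κ ^ 2 * f1 (τ s) ^ 2)) *
    dens n b N₀ s with hV1
  set W : ℝ → ℝ := fun s => exp (κ * f (τ s)) with hW
  have dE : ∀ s ∈ Set.uIcc (-σ) σ, HasDerivAt E (E1 s) s := fun s _ =>
    (hasDerivAt_cosn n s).sub_const _
  have dP : ∀ s ∈ Set.uIcc (-σ) σ, HasDerivAt P (P1 s) s := by
    intro s hs
    rw [hI] at hs
    have hcs := hc s hs
    have h1 := (hasDerivAt_powc b hcs).mul ((hasDerivAt_sinn n s).const_mul (-(n / 2)))
    refine (h1.const_mul N₀).congr_deriv ?_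
    have e1 : exp ((b - 1) * log (cos (n * s / 2))) =
        exp (b * log (cos (n * s / 2))) / cos (n * s / 2) := by
      rw [sub_mul, one_mul, exp_sub, exp_log hcs]
    have e2 : sin (n * s / 2) ^ 2 = 1 - cos (n * s / 2) ^ 2 := by
      have := sin_sq_add_cos_sq (n * s / 2)
      linarith
    rw [hP1]
    dsimp only
    rw [e1]
    field_simp
    rw [e2]
    ring
  have dV : ∀ s ∈ Set.uIcc (-σ) σ, HasDerivAt V (V1 s) s := by
    intro s hs
    rw [hI] at hs
    have h1 := (hf (τ s) (hτm s hs)).comp s (hτ s hs)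
    have h2 := (hf1 (τ s) (hτm s hs)).comp s (hτ s hs)
    have h3 := (h2.const_mul κ).mul ((h1.const_mul κ).exp)
    refine h3.congr_deriv ?_
    rw [hV1]
    dsimp only [Function.comp_apply]
    ring
  have dW : ∀ s ∈ Set.uIcc (-σ) σ, HasDerivAt W (V s * dens n b N₀ s) s := by
    intro s hs
    rw [hI] at hs
    have h1 := (hf (τ s) (hτm s hs)).comp s (hτ s hs)
    refine ((h1.const_mul κ).exp).congr_deriv ?_
    rw [hV]
    dsimp only [Function.comp_apply]
    ring
  have hPw : ∀ s ∈ Set.uIcc (-σ) σ, P s * dens n b N₀ s = E1 s := by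
    intro s hs
    rw [hP, hE1]
    unfold dens
    dsimp only
    have e1 : -b * log (cos (n * s / 2)) = -(b * log (cos (n * s / 2))) := by ring
    rw [e1, exp_neg]
    field_simp
  have cE1 : ContinuousOn E1 (Set.uIcc (-σ) σ) := by
    rw [hE1]
    fun_prop
  have clog : ContinuousOn (fun s => log (cos (n * s / 2))) (Set.Icc (-σ) σ) := fun s hs =>
    ((hasDerivAt_cosn n s).log (hc s hs).ne').continuousAt.continuousWithinAt
  have ccos : ContinuousOn (fun s => cos (n * s / 2)) (Set.Icc (-σ) σ) := by fun_prop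
  have cP1 : ContinuousOn P1 (Set.uIcc (-σ) σ) := by
    rw [hI, hP1]
    exact ((continuousOn_const.mul ((continuousOn_const.mul (ccos.pow 2)).sub
      continuousOn_const)).mul (continuousOn_const.mul clog).rexp).neg
  have cV1 : ContinuousOn V1 (Set.uIcc (-σ) σ) := by
    rw [hI, hV1]
    exact ((continuousOn_const.mul hcfτ).rexp.mul ((continuousOn_const.mul hcf2τ).add
      (continuousOn_const.mul (hcf1τ.pow 2)))).mul hdc
  have hEa : E (-σ) = 0 := by
    rw [hE]
    dsimp only
    have : n * -σ / 2 = -(n * σ / 2) := by ring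
    rw [this, cos_neg, sub_self]
  have hEb : E σ = 0 := sub_self _
  have hibp := ibp2 dE dP dV dW hPw cE1 cP1 cV1 (hI ▸ hdc) hEa hEb
  -- the boundary terms
  have hsin : 0 ≤ sin (n * σ / 2) := by
    apply sin_nonneg_of_nonneg_of_le_pi
    · positivity
    · have : n * σ < π := by
        rw [lt_div_iff₀ hn] at hσ1
        linarith
      linarith [pi_pos]
  have hbdry : 0 ≤ -(P σ * W σ - P (-σ) * W (-σ)) := by
    have h1 : P σ ≤ 0 := by
      rw [hP]
      dsimp only
      have : 0 ≤ N₀ * (exp (b * log (cos (n * σ / 2))) * ((n / 2) * sin (n * σ / 2))) := by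
        positivity
      linarith
    have h2 : 0 ≤ P (-σ) := by
      rw [hP]
      dsimp only
      have e : n * -σ / 2 = -(n * σ / 2) := by ring
      rw [e, sin_neg]
      have : 0 ≤ N₀ * (exp (b * log (cos (-(n * σ / 2)))) * ((n / 2) * sin (n * σ / 2))) := by
        positivity
      linarith
    have h3 : 0 < W σ := exp_pos _
    have h4 : 0 < W (-σ) := exp_pos _
    nlinarith [mul_nonneg (neg_nonneg.2 h1) h3.le, mul_nonneg h2 h4.le]
  -- the pointwise inequality
  set ρ : ℝ := exp (r * (log N₀ - log N)) with hρ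
  have hpw : ∀ s ∈ Set.Icc (-σ) σ, n ^ 2 / 4 * N₀ * ρ *
      ((1 - b) * (N * exp (β * f (τ s)) * dens n b N₀ s) + 2 * b -
        2 * b * cos (n * s / 2) ^ 2 - 1) ≤
      n * κ * N ^ 2 / 2 * (cos (n * s / 2) * exp ((n / 2 + β) * f (τ s)) * dens n b N₀ s) +
        P1 s * W s := by
    intro s hs
    have hcs := hc s hs
    have hC1 : cos (n * s / 2) ^ 2 ≤ 1 := cos_sq_le_one _
    set ζ : ℝ := log N + β * f (τ s) - b * log (cos (n * s / 2)) - log N₀ with hζ
    have h1 := pointwise (ζ := ζ) hb0 hr hbr (sq_nonneg (cos (n * s / 2))) hC1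
    have h2 := mul_le_mul_of_nonneg_left h1 (show 0 ≤ n ^ 2 / 4 * N₀ * ρ by positivity)
    have e1 : exp ζ = N * exp (β * f (τ s)) * dens n b N₀ s := by
      unfold dens
      rw [hζ, exp_sub, exp_sub, exp_add, exp_log hN, exp_log hN₀, neg_mul, exp_neg]
      field_simp
    have e2 : n ^ 2 / 4 * N₀ * ρ * ((1 - b) * cos (n * s / 2) ^ 2 * exp ((r + 2) * ζ)) =
        n * κ * N ^ 2 / 2 *
          (cos (n * s / 2) * exp ((n / 2 + β) * f (τ s)) * dens n b N₀ s) := by
      have hk : n * κ / 2 = n ^ 2 / 4 * (1 - b) := by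
        rw [hκ]
        have : b * n = 2 * β := hb
        nlinarith
      have e3 : N₀ * ρ * (cos (n * s / 2) ^ 2 * exp ((r + 2) * ζ)) =
          N ^ 2 * (cos (n * s / 2) * exp ((n / 2 + β) * f (τ s)) * dens n b N₀ s) := by
        have l0 : N₀ = exp (log N₀) := (exp_log hN₀).symm
        have l1 : N ^ 2 = exp (2 * log N) := by
          rw [two_mul, exp_add, exp_log hN]
          ring
        have l2 : cos (n * s / 2) ^ 2 = exp (2 * log (cos (n * s / 2))) := by
          rw [two_mul, exp_add, exp_log hcs]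
          ring
        have l3 : cos (n * s / 2) = exp (log (cos (n * s / 2))) := (exp_log hcs).symm
        have l4 : dens n b N₀ s = exp (-b * log (cos (n * s / 2)) - log N₀) := by
          unfold dens
          rw [exp_sub, exp_log hN₀]
        rw [l1, l4, l2]
        calc N₀ * ρ * (exp (2 * log (cos (n * s / 2))) * exp ((r + 2) * ζ))
            = exp (log N₀) * ρ * (exp (2 * log (cos (n * s / 2))) * exp ((r + 2) * ζ)) := by
              rw [← l0]
          _ = exp (2 * log N) * (exp (log (cos (n * s / 2))) * exp ((n / 2 + β) * f (τ s)) *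
              exp (-b * log (cos (n * s / 2)) - log N₀)) := by
              rw [hρ, ← exp_add, ← exp_add, ← exp_add, ← exp_add, ← exp_add, ← exp_add]
              congr 1
              rw [hζ, hκ2]
              linear_combination (-log (cos (n * s / 2))) * hbr
          _ = _ := by rw [← l3]
      calc n ^ 2 / 4 * N₀ * ρ * ((1 - b) * cos (n * s / 2) ^ 2 * exp ((r + 2) * ζ))
          = n ^ 2 / 4 * (1 - b) * (N₀ * ρ * (cos (n * s / 2) ^ 2 * exp ((r + 2) * ζ))) := by ring
        _ = _ := by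
          rw [e3, ← hk]
          ring
    have e4 : n ^ 2 / 4 * N₀ * ρ * (((1 + b) * cos (n * s / 2) ^ 2 - b) * exp (r * ζ)) =
        -(P1 s * W s) := by
      have e5 : ρ * exp (r * ζ) = exp ((b - 1) * log (cos (n * s / 2))) * W s := by
        rw [hρ, hW]
        dsimp only
        rw [← exp_add, ← exp_add]
        congr 1
        rw [hζ, hκr]
        linear_combination (-log (cos (n * s / 2))) * hbr
      rw [hP1]
      dsimp only
      linear_combination (n ^ 2 / 4 * N₀ * ((1 + b) * cos (n * s / 2) ^ 2 - b)) * e5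
    have e6 : n ^ 2 / 4 * N₀ * ρ * ((1 - b) * cos (n * s / 2) ^ 2 * exp ((r + 2) * ζ) -
        ((1 + b) * cos (n * s / 2) ^ 2 - b) * exp (r * ζ)) =
        n ^ 2 / 4 * N₀ * ρ * ((1 - b) * cos (n * s / 2) ^ 2 * exp ((r + 2) * ζ)) -
        n ^ 2 / 4 * N₀ * ρ * (((1 + b) * cos (n * s / 2) ^ 2 - b) * exp (r * ζ)) := by ring
    rw [e6, e2, e4, e1] at h2
    linarith
  -- integrability
  have i1 : IntervalIntegrable (fun s => N * exp (β * f (τ s)) * dens n b N₀ s)
      MeasureTheory.volume (-σ) σ := by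
    apply ContinuousOn.intervalIntegrable
    rw [hI]
    exact (continuousOn_const.mul (continuousOn_const.mul hcfτ).rexp).mul hdc
  have i2 : IntervalIntegrable (fun s => cos (n * s / 2) ^ 2) MeasureTheory.volume (-σ) σ :=
    Continuous.intervalIntegrable (by fun_prop) _ _
  have cexp : ContinuousOn (fun s => exp ((n / 2 + β) * f (τ s)) * dens n b N₀ s)
      (Set.Icc (-σ) σ) := (continuousOn_const.mul hcfτ).rexp.mul hdc
  have i3 : IntervalIntegrable (fun s => exp ((n / 2 + β) * f (τ s)) * dens n b N₀ s)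
      MeasureTheory.volume (-σ) σ := ContinuousOn.intervalIntegrable (hI ▸ cexp)
  have i4 : IntervalIntegrable (fun s => cos (n * s / 2) * exp ((n / 2 + β) * f (τ s)) *
      dens n b N₀ s) MeasureTheory.volume (-σ) σ := by
    apply ContinuousOn.intervalIntegrable
    rw [hI]
    exact (ccos.mul (continuousOn_const.mul hcfτ).rexp).mul hdc
  have i5 : IntervalIntegrable (fun s => P1 s * W s) MeasureTheory.volume (-σ) σ := by
    apply ContinuousOn.intervalIntegrable
    refine cP1.mul ?_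
    rw [hI]
    exact (continuousOn_const.mul hcfτ).rexp
  have i6 : IntervalIntegrable (fun s => E s * V1 s) MeasureTheory.volume (-σ) σ := by
    apply ContinuousOn.intervalIntegrable
    refine ContinuousOn.mul ?_ cV1
    rw [hE]
    fun_prop
  -- change of variables
  have cv : ∀ g : ℝ → ℝ, ContinuousOn g (Set.Icc a₀ b₀) →
      ∫ s in (-σ)..σ, g (τ s) * dens n b N₀ s = ∫ t in a₀..b₀, g t := by
    intro g hg
    have h1 := intervalIntegral.integral_comp_mul_deriv'' (f := τ) (f' := dens n b N₀) (g := g)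
      (a := -σ) (b := σ) (hI ▸ hcontτ) (fun s hs => by
        have hs' : s ∈ Set.Icc (-σ) σ := by
          rw [min_eq_left hle, max_eq_right hle] at hs
          exact ⟨hs.1.le, hs.2.le⟩
        exact (hτ s hs').hasDerivWithinAt) (hI ▸ hdc) (by
        refine hg.mono ?_
        rintro _ ⟨s, hs, rfl⟩
        rw [hI] at hs
        exact hτm s hs)
    rw [hτa, hτb] at h1
    exact h1
  have cv1 : ∫ s in (-σ)..σ, N * exp (β * f (τ s)) * dens n b N₀ s =
      ∫ t in a₀..b₀, N * exp (β * f t) :=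
    cv (fun t => N * exp (β * f t)) (continuousOn_const.mul (continuousOn_const.mul hcf).rexp)
  have cv2 : ∫ s in (-σ)..σ, exp ((n / 2 + β) * f (τ s)) * dens n b N₀ s =
      ∫ t in a₀..b₀, exp ((n / 2 + β) * f t) :=
    cv (fun t => exp ((n / 2 + β) * f t)) (continuousOn_const.mul hcf).rexp
  -- integrate the pointwise inequality
  have hint := intervalIntegral.integral_mono_on hle
    (((((i1.const_mul (1 - b)).add (intervalIntegrable_const (c := 2 * b))).sub
      (i2.const_mul (2 * b))).sub (intervalIntegrable_const (c := 1))).const_mul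
      (n ^ 2 / 4 * N₀ * ρ)) ((i4.const_mul (n * κ * N ^ 2 / 2)).add i5) hpw
  rw [intervalIntegral.integral_const_mul,
    intervalIntegral.integral_sub (((i1.const_mul (1 - b)).add
      (intervalIntegrable_const (c := 2 * b))).sub (i2.const_mul (2 * b)))
      (intervalIntegrable_const (c := 1)),
    intervalIntegral.integral_sub ((i1.const_mul (1 - b)).add
      (intervalIntegrable_const (c := 2 * b))) (i2.const_mul (2 * b)),
    intervalIntegral.integral_add (i1.const_mul (1 - b)) (intervalIntegrable_const (c := 2 * b)),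
    intervalIntegral.integral_const_mul (1 - b),
    intervalIntegral.integral_const, intervalIntegral.integral_const,
    intervalIntegral.integral_const_mul (2 * b) (fun s => cos (n * s / 2) ^ 2),
    cv1, int_cos_sq hn,
    intervalIntegral.integral_add (i4.const_mul (n * κ * N ^ 2 / 2)) i5,
    intervalIntegral.integral_const_mul (n * κ * N ^ 2 / 2)] at hint
  have hgoal : κ * N ^ 2 / 2 * ∫ s in (-σ)..σ, (cos (n * s / 2) - cos (n * σ / 2)) *
      (n * exp ((n / 2 + β) * f (τ s)) + 2 * (N ^ 2)⁻¹ * exp (κ * f (τ s)) *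
        (f2 (τ s) + κ * f1 (τ s) ^ 2)) * dens n b N₀ s =
      n * κ * N ^ 2 / 2 * (∫ s in (-σ)..σ, cos (n * s / 2) * exp ((n / 2 + β) * f (τ s)) *
        dens n b N₀ s) - n * κ * N ^ 2 / 2 * cos (n * σ / 2) *
        (∫ t in a₀..b₀, exp ((n / 2 + β) * f t)) + ∫ s in (-σ)..σ, E s * V1 s := by
    rw [← cv2, ← intervalIntegral.integral_const_mul, ← intervalIntegral.integral_const_mul,
      ← intervalIntegral.integral_const_mul, ← intervalIntegral.integral_sub
        (i4.const_mul (n * κ * N ^ 2 / 2)) (i3.const_mul (n * κ * N ^ 2 / 2 * cos (n * σ / 2))),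
      ← intervalIntegral.integral_add ((i4.const_mul (n * κ * N ^ 2 / 2)).sub
        (i3.const_mul (n * κ * N ^ 2 / 2 * cos (n * σ / 2)))) i6]
    refine intervalIntegral.integral_congr fun s _ => ?_
    rw [hE, hV1]
    dsimp only
    field_simp
  rw [hgoal, hibp]
  have e1 : n ^ 2 / 4 * N₀ * ρ * ((1 - b) * ((∫ t in a₀..b₀, N * exp (β * f t)) - 2 * σ) -
      2 * b / n * sin (n * σ)) = n ^ 2 / 4 * N₀ * ρ *
      ((1 - b) * (∫ t in a₀..b₀, N * exp (β * f t)) + (σ - -σ) • (2 * b) -
        2 * b * (σ + sin (n * σ) / n) - (σ - -σ) • (1 : ℝ)) := by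
    simp only [smul_eq_mul]
    field_simp
    ring
  rw [e1]
  linarith


end Pool.Agent.Work.MP_2fa4be_gt
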