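import Pool.Agent.Work.MP_2fa4be_gt.TimeB
import Pool.Agent.Work.MP_2fa4be_gt.Riem

/-!
# Module TimeC: positive weights for `β > 0` (proved)
-/

namespace Pool.Agent.Work.MP_2fa4be_gt

open Real MeasureTheory

theorem exists_sigma {n b ε c₁ K : ℝ} (hn : 0 < n) (hb1 : b < 1) (hε : 0 < ε) (hc₁ : 0 < c₁) :
    ∃ σ, π / (2 * n) ≤ σ ∧ σ < π / n ∧ 2 * b / n * sin (n * σ) ≤ (1 - b) * ε / 2 ∧
      K * cos (n * σ / 2) < n ^ 2 / 4 * c₁ * ((1 - b) * ε / 2) := by
  have h1 : 0 < (1 - b) * ε / 2 := by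
    have : 0 < 1 - b := by linarith
    positivity
  have h2 : 0 < n ^ 2 / 4 * c₁ * ((1 - b) * ε / 2) := by positivity
  have e1 : n * (π / n) = π := by field_simp
  have t1 : Filter.Tendsto (fun σ => 2 * b / n * sin (n * σ)) (nhdsWithin (π / n) (Set.Iio (π / n)))
      (nhds 0) := by
    have hc : Continuous fun σ : ℝ => 2 * b / n * sin (n * σ) := by fun_prop
    have := (hc.tendsto (π / n)).mono_left (nhdsWithin_le_nhds (s := Set.Iio (π / n)))
    rw [e1, sin_pi, mul_zero] at this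
    exact this
  have t2 : Filter.Tendsto (fun σ => K * cos (n * σ / 2)) (nhdsWithin (π / n) (Set.Iio (π / n)))
      (nhds 0) := by
    have hc : Continuous fun σ : ℝ => K * cos (n * σ / 2) := by fun_prop
    have := (hc.tendsto (π / n)).mono_left (nhdsWithin_le_nhds (s := Set.Iio (π / n)))
    rw [e1, cos_pi_div_two, mul_zero] at this
    exact this
  have hlt : π / (2 * n) < π / n := by
    rw [div_lt_div_iff₀ (by positivity) hn]
    nlinarith [mul_pos pi_pos hn]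
  have t3 : ∀ᶠ σ in nhdsWithin (π / n) (Set.Iio (π / n)), π / (2 * n) < σ :=
    nhdsWithin_le_nhds (lt_mem_nhds hlt)
  have t4 : ∀ᶠ σ in nhdsWithin (π / n) (Set.Iio (π / n)), σ ∈ Set.Iio (π / n) :=
    self_mem_nhdsWithin
  obtain ⟨σ, ⟨⟨hσ1, hσ2⟩, hσ3⟩, hσ4⟩ :=
    (((t1.eventually (gt_mem_nhds h1)).and (t2.eventually (gt_mem_nhds h2))).and
      t3 |>.and t4).exists
  exact ⟨σ, hσ3.le, hσ4, hσ1.le, hσ2⟩

/-- the time change -/
theorem exists_tau {n b σ a₀ b₀ : ℝ} (hn : 0 < n) (hb0 : 0 < b) (hσ0 : 0 < σ) (hσ1 : σ < π / n)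
    (hab : a₀ < b₀) :
    ∃ (N₀ : ℝ) (τ : ℝ → ℝ), 2 * σ / (b₀ - a₀) ≤ N₀ ∧ τ (-σ) = a₀ ∧ τ σ = b₀ ∧
      (∀ s ∈ Set.Icc (-σ) σ, HasDerivAt τ (dens n b N₀ s) s) ∧
      (∀ s ∈ Set.Icc (-σ) σ, τ s ∈ Set.Icc a₀ b₀) := by
  have hle : -σ ≤ σ := by linarith
  have hba : 0 < b₀ - a₀ := sub_pos.2 hab
  set W : Set ℝ := Set.Ioo (-(π / n)) (π / n) with hW
  have hcW : ∀ s ∈ W, 0 < cos (n * s / 2) := by
    intro s hs
    have e1 : n * (π / n) = π := by field_simp
    apply cos_pos_of_mem_Ioo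
    constructor
    · have := mul_lt_mul_of_pos_left hs.1 hn
      linarith
    · have := mul_lt_mul_of_pos_left hs.2 hn
      linarith
  have hIW : Set.Icc (-σ) σ ⊆ W := fun s hs => ⟨by linarith [hs.1], by linarith [hs.2]⟩
  have hg : ContinuousOn (fun s => exp (-b * log (cos (n * s / 2)))) W := fun s hs =>
    (hasDerivAt_powc (-b) (hcW s hs)).continuousAt.continuousWithinAt
  have hg1 : ∀ s ∈ W, 1 ≤ exp (-b * log (cos (n * s / 2))) := by
    intro s hs
    rw [← exp_zero]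
    apply exp_le_exp.2
    have : log (cos (n * s / 2)) ≤ 0 := log_nonpos (hcW s hs).le (cos_le_one _)
    nlinarith
  set C : ℝ := ∫ s in (-σ)..σ, exp (-b * log (cos (n * s / 2))) with hC
  have hgI : IntervalIntegrable (fun s => exp (-b * log (cos (n * s / 2)))) volume (-σ) σ := by
    apply ContinuousOn.intervalIntegrable
    rw [Set.uIcc_of_le hle]
    exact hg.mono hIW
  have hC2 : 2 * σ ≤ C := by
    have h1 : ∫ _ in (-σ)..σ, (1 : ℝ) = 2 * σ := by
      rw [intervalIntegral.integral_const, smul_eq_mul, mul_one]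
      ring
    rw [← h1]
    exact intervalIntegral.integral_mono_on hle (by simp) hgI fun s hs => hg1 s (hIW hs)
  have hC0 : 0 < C := by linarith
  set N₀ : ℝ := C / (b₀ - a₀) with hN₀
  have hN₀pos : 0 < N₀ := by positivity
  have hdW : ContinuousOn (dens n b N₀) W := hg.div_const _
  have hdpos : ∀ s ∈ W, 0 ≤ dens n b N₀ s := fun s _ => by
    unfold dens
    positivity
  have hdI : ∀ s ∈ Set.Icc (-σ) σ, ∀ s' ∈ Set.Icc (-σ) σ,
      IntervalIntegrable (dens n b N₀) volume s s' := by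
    intro s hs s' hs'
    apply ContinuousOn.intervalIntegrable
    exact hdW.mono ((Set.uIcc_subset_Icc hs hs').trans hIW)
  have hm1 : -σ ∈ Set.Icc (-σ) σ := ⟨le_refl _, hle⟩
  have hm2 : σ ∈ Set.Icc (-σ) σ := ⟨hle, le_refl _⟩
  refine ⟨N₀, fun s => a₀ + ∫ r in (-σ)..s, dens n b N₀ r, ?_, ?_, ?_, ?_, ?_⟩
  · exact div_le_div_of_nonneg_right hC2 hba.le
  · simp
  · have h1 : ∫ r in (-σ)..σ, dens n b N₀ r = C / N₀ := by
      unfold dens
      rw [intervalIntegral.integral_div]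
    dsimp only
    rw [h1, hN₀]
    field_simp
    ring
  · intro s hs
    have h1 := intervalIntegral.integral_hasDerivAt_right (hdI _ hm1 _ hs)
      (hdW.stronglyMeasurableAtFilter isOpen_Ioo s (hIW hs))
      (hdW.continuousAt (isOpen_Ioo.mem_nhds (hIW hs)))
    exact h1.const_add a₀
  · intro s hs
    have h1 : 0 ≤ ∫ r in (-σ)..s, dens n b N₀ r :=
      intervalIntegral.integral_nonneg hs.1 fun r hr => hdpos r (hIW ⟨hr.1, hr.2.trans hs.2⟩)
    have h2 : 0 ≤ ∫ r in s..σ, dens n b N₀ r :=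
      intervalIntegral.integral_nonneg hs.2 fun r hr => hdpos r (hIW ⟨hs.1.trans hr.1, hr.2⟩)
    have h3 := intervalIntegral.integral_add_adjacent_intervals (hdI _ hm1 _ hs) (hdI _ hs _ hm2)
    have h4 : ∫ r in (-σ)..σ, dens n b N₀ r = b₀ - a₀ := by
      have h5 : ∫ r in (-σ)..σ, dens n b N₀ r = C / N₀ := by
        unfold dens
        rw [intervalIntegral.integral_div]
      rw [h5, hN₀]
      field_simp
    rw [h4] at h3
    dsimp only
    constructor <;> linarith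

/-- the function which is integrated -/
noncomputable def tF (n β N a a1 a2 : ℝ) : ℝ :=
  n * exp ((n / 2 + β) * a) + 2 * (N ^ 2)⁻¹ * exp ((n / 2 - β) * a) * (a2 + (n / 2 - β) * a1 ^ 2)

theorem time_pos {M : Type*} [TopologicalSpace M] [CompactSpace M] [Nonempty M]
    {n β a₀ b₀ ε : ℝ} (hn : 0 < n) (hβ : 0 < β) (hβn : 4 * β ≤ n) {N : M → ℝ}
    (hNc : Continuous N) (hN0 : ∀ x, 0 < N x) {f f1 f2 : M × ℝ → ℝ} (hab : a₀ < b₀)
    (cf : ContinuousOn f (Set.univ ×ˢ Set.Icc a₀ b₀))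
    (cf1 : ContinuousOn f1 (Set.univ ×ˢ Set.Icc a₀ b₀))
    (cf2 : ContinuousOn f2 (Set.univ ×ˢ Set.Icc a₀ b₀))
    (df : ∀ x, ∀ t ∈ Set.Icc a₀ b₀, HasDerivAt (fun s => f (x, s)) (f1 (x, t)) t)
    (df1 : ∀ x, ∀ t ∈ Set.Icc a₀ b₀, HasDerivAt (fun s => f1 (x, s)) (f2 (x, t)) t)
    (hε : 0 < ε)
    (hlen : ∀ x, 2 * π / n + ε ≤ ∫ t in a₀..b₀, N x * exp (β * f (x, t))) :
    ∃ (K : ℕ) (τ η : Fin K → ℝ), (∀ k, τ k ∈ Set.Icc a₀ b₀) ∧ (∀ k, 0 ≤ η k) ∧ ∑ k, η k = 1 ∧
      ∀ x, 0 < ∑ k, η k * tF n β (N x) (f (x, τ k)) (f1 (x, τ k)) (f2 (x, τ k)) := by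
  set b : ℝ := 2 * β / n with hbdef
  have hb0 : 0 < b := by positivity
  have hbn : b * n = 2 * β := by
    rw [hbdef]
    field_simp
  have hb2 : b ≤ 1 / 2 := by
    rw [hbdef, div_le_iff₀ hn]
    linarith
  have hb1 : b < 1 := by linarith
  set r : ℝ := 1 / b - 1 with hrdef
  have hbr : b * (r + 1) = 1 := by
    rw [hrdef]
    field_simp
    ring
  have hr : 1 ≤ r := by
    have : 2 ≤ 1 / b := by
      rw [le_div_iff₀ hb0]
      linarith
    linarith
  have hr0 : 0 ≤ r := by linarith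
  have hba : 0 < b₀ - a₀ := sub_pos.2 hab
  have hI : Set.uIcc a₀ b₀ = Set.Icc a₀ b₀ := Set.uIcc_of_le hab.le
  have hκpos : 0 < n / 2 - β := by linarith
  -- bounds on `M`
  obtain ⟨Nmax, hNmax⟩ : ∃ Nmax : ℝ, ∀ x, N x ≤ Nmax := by
    obtain ⟨x₀, -, hx₀⟩ := isCompact_univ.exists_isMaxOn Set.univ_nonempty hNc.continuousOn
    exact ⟨N x₀, fun x => hx₀ (Set.mem_univ x)⟩
  have hcompact : IsCompact ((Set.univ : Set M) ×ˢ Set.Icc a₀ b₀) :=
    isCompact_univ.prod isCompact_Icc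
  obtain ⟨Fmax, hFmax⟩ := hcompact.exists_bound_of_continuousOn cf
  have hslice : ∀ x, ContinuousOn (fun t => f (x, t)) (Set.Icc a₀ b₀) := by
    intro x
    exact cf.comp (by fun_prop) fun t ht => ⟨Set.mem_univ _, ht⟩
  have hslice2 : ∀ x, ContinuousOn (fun t => f2 (x, t)) (Set.Icc a₀ b₀) := by
    intro x
    exact cf2.comp (by fun_prop) fun t ht => ⟨Set.mem_univ _, ht⟩
  set Emax : ℝ := exp ((n / 2 + β) * Fmax) * (b₀ - a₀) with hEmax
  have hE : ∀ x, ∫ t in a₀..b₀, exp ((n / 2 + β) * f (x, t)) ≤ Emax := by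
    intro x
    have h1 : ∫ _ in a₀..b₀, exp ((n / 2 + β) * Fmax) = Emax := by
      rw [intervalIntegral.integral_const, smul_eq_mul, hEmax]
      ring
    rw [← h1]
    refine intervalIntegral.integral_mono_on hab.le ?_ (by simp) fun t ht => ?_
    · apply ContinuousOn.intervalIntegrable
      rw [hI]
      exact (continuousOn_const.mul (hslice x)).rexp
    · apply exp_le_exp.2
      have h2 := hFmax (x, t) ⟨Set.mem_univ _, ht⟩
      rw [Real.norm_eq_abs] at h2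
      have h3 := le_abs_self (f (x, t))
      exact mul_le_mul_of_nonneg_left (h3.trans h2) (by linarith)
  have hE0 : ∀ x, 0 ≤ ∫ t in a₀..b₀, exp ((n / 2 + β) * f (x, t)) := fun x =>
    intervalIntegral.integral_nonneg hab.le fun t _ => (exp_pos _).le
  have hNmax0 : 0 < Nmax := by
    obtain ⟨x⟩ := (inferInstance : Nonempty M)
    exact lt_of_lt_of_le (hN0 x) (hNmax x)
  have hEmax0 : 0 ≤ Emax := by positivity
  set ν₀ : ℝ := π / n / (b₀ - a₀) with hν₀
  have hν₀pos : 0 < ν₀ := by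
    have := pi_pos
    positivity
  set c₁ : ℝ := ν₀ * exp (r * (log ν₀ - log Nmax)) with hc₁
  have hc₁pos : 0 < c₁ := by positivity
  set K₁ : ℝ := n * (n / 2 - β) * Nmax ^ 2 / 2 * Emax with hK₁
  obtain ⟨σ, hσa, hσ1, hσ2, hσ3⟩ := exists_sigma (K := K₁) hn hb1 hε hc₁pos
  have hσ0 : 0 < σ := by
    have : 0 < π / (2 * n) := by
      have := pi_pos
      positivity
    linarith
  have hle : -σ ≤ σ := by linarith
  obtain ⟨N₀, τ, hN₀le, hτa, hτb, hτ, hτm⟩ := exists_tau hn hb0 hσ0 hσ1 hab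
  have hν₀N₀ : ν₀ ≤ N₀ := by
    refine le_trans ?_ hN₀le
    rw [hν₀]
    refine div_le_div_of_nonneg_right ?_ hba.le
    have : π / n = 2 * (π / (2 * n)) := by field_simp
    linarith
  have hN₀pos : 0 < N₀ := lt_of_lt_of_le hν₀pos hν₀N₀
  have hcosσ : 0 < cos (n * σ / 2) := cos_pos_of hn hσ1 ⟨hle, le_refl _⟩
  have hnσ : n * σ < π := by
    rw [lt_div_iff₀ hn] at hσ1
    linarith
  have hcos : ∀ s ∈ Set.Icc (-σ) σ, cos (n * σ / 2) ≤ cos (n * s / 2) := by
    intro s hs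
    have h1 : |n * s / 2| ≤ n * σ / 2 := by
      rw [abs_le]
      constructor
      · have := mul_le_mul_of_nonneg_left hs.1 hn.le
        linarith
      · have := mul_le_mul_of_nonneg_left hs.2 hn.le
        linarith
    rw [← cos_abs (n * s / 2)]
    exact cos_le_cos_of_nonneg_of_le_pi (abs_nonneg _) (by linarith [pi_pos]) h1
  -- positivity of the integrals
  set H : M × ℝ → ℝ := fun z => (cos (n * z.2 / 2) - cos (n * σ / 2)) *
    tF n β (N z.1) (f (z.1, τ z.2)) (f1 (z.1, τ z.2)) (f2 (z.1, τ z.2)) * dens n b N₀ z.2 with hH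
  have hpos : ∀ x, 0 < ∫ s in (-σ)..σ, H (x, s) := by
    intro x
    have hest := est (f := fun t => f (x, t)) (f1 := fun t => f1 (x, t))
      (f2 := fun t => f2 (x, t)) hn hβ hbn hr hbr (hN0 x) hN₀pos hσ0 hσ1 hτ hτa hτb hτm
      (df x) (df1 x) (hslice2 x)
    have hNx := hN0 x
    have h1 : c₁ ≤ N₀ * exp (r * (log N₀ - log (N x))) := by
      rw [hc₁]
      refine mul_le_mul hν₀N₀ ?_ (exp_pos _).le hN₀pos.le
      apply exp_le_exp.2
      refine mul_le_mul_of_nonneg_left ?_ hr0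
      have h2 := log_le_log hν₀pos hν₀N₀
      have h3 := log_le_log hNx (hNmax x)
      linarith
    have h2 : (1 - b) * ε / 2 ≤ (1 - b) * ((∫ t in a₀..b₀, N x * exp (β * f (x, t))) - 2 * σ) -
        2 * b / n * sin (n * σ) := by
      have h3 := hlen x
      have h4 : ε ≤ (∫ t in a₀..b₀, N x * exp (β * f (x, t))) - 2 * σ := by
        have : 2 * π / n = 2 * (π / n) := by ring
        linarith
      have h5 := mul_le_mul_of_nonneg_left h4 (show 0 ≤ 1 - b by linarith)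
      linarith
    have h3 : n * (n / 2 - β) * N x ^ 2 / 2 * cos (n * σ / 2) *
        (∫ t in a₀..b₀, exp ((n / 2 + β) * f (x, t))) ≤ K₁ * cos (n * σ / 2) := by
      have h4 : N x ^ 2 ≤ Nmax ^ 2 := pow_le_pow_left₀ hNx.le (hNmax x) 2
      have h5 : N x ^ 2 * (∫ t in a₀..b₀, exp ((n / 2 + β) * f (x, t))) ≤ Nmax ^ 2 * Emax :=
        mul_le_mul h4 (hE x) (hE0 x) (by positivity)
      have h6 := mul_le_mul_of_nonneg_left h5
        (show 0 ≤ n * (n / 2 - β) / 2 * cos (n * σ / 2) from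
          mul_nonneg (by have := mul_pos hn hκpos; linarith) hcosσ.le)
      rw [hK₁]
      linarith
    have h4 : n ^ 2 / 4 * c₁ * ((1 - b) * ε / 2) ≤ n ^ 2 / 4 * N₀ *
        exp (r * (log N₀ - log (N x))) *
        ((1 - b) * ((∫ t in a₀..b₀, N x * exp (β * f (x, t))) - 2 * σ) -
          2 * b / n * sin (n * σ)) := by
      have h5 : n ^ 2 / 4 * c₁ ≤ n ^ 2 / 4 * N₀ * exp (r * (log N₀ - log (N x))) := by
        have := mul_le_mul_of_nonneg_left h1 (show 0 ≤ n ^ 2 / 4 by positivity)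
        linarith
      refine mul_le_mul h5 h2 ?_ (by positivity)
      have : 0 < 1 - b := by linarith
      positivity
    have h5 : 0 < (n / 2 - β) * N x ^ 2 / 2 * ∫ s in (-σ)..σ, H (x, s) := by
      refine lt_of_lt_of_le ?_ hest
      linarith
    have h6 : 0 ≤ (n / 2 - β) * N x ^ 2 / 2 := by
      have := mul_nonneg hκpos.le (sq_nonneg (N x))
      linarith
    exact pos_of_mul_pos_right h5 h6
  have hcontτ : ContinuousOn τ (Set.Icc (-σ) σ) := fun s hs =>
    (hτ s hs).continuousAt.continuousWithinAt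
  have hmap : ContinuousOn (fun z : M × ℝ => (z.1, τ z.2)) (Set.univ ×ˢ Set.Icc (-σ) σ) :=
    continuousOn_fst.prodMk (hcontτ.comp continuousOn_snd fun z hz => hz.2)
  have hmaps : Set.MapsTo (fun z : M × ℝ => (z.1, τ z.2)) (Set.univ ×ˢ Set.Icc (-σ) σ)
      (Set.univ ×ˢ Set.Icc a₀ b₀) := fun z hz => ⟨Set.mem_univ _, hτm _ hz.2⟩
  have c0 := cf.comp hmap hmaps
  have c1 := cf1.comp hmap hmaps
  have c2 := cf2.comp hmap hmaps
  have cdens : ContinuousOn (fun z : M × ℝ => dens n b N₀ z.2) (Set.univ ×ˢ Set.Icc (-σ) σ) := by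
    have h1 : ContinuousOn (dens n b N₀) (Set.Icc (-σ) σ) := fun s hs =>
      (((hasDerivAt_powc (-b) (cos_pos_of hn hσ1 hs)).continuousAt).div_const
        _).continuousWithinAt
    exact h1.comp continuousOn_snd fun z hz => hz.2
  have cN : ContinuousOn (fun z : M × ℝ => (N z.1 ^ 2)⁻¹) (Set.univ ×ˢ Set.Icc (-σ) σ) := by
    have h1 : Continuous (fun z : M × ℝ => (N z.1 ^ 2)⁻¹) :=
      ((hNc.comp continuous_fst).pow 2).inv₀ fun z => pow_ne_zero 2 (hN0 z.1).ne'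
    exact h1.continuousOn
  have cH : ContinuousOn H (Set.univ ×ˢ Set.Icc (-σ) σ) := by
    rw [hH]
    unfold tF
    refine ContinuousOn.mul (ContinuousOn.mul (by fun_prop) ?_) cdens
    exact (continuousOn_const.mul (continuousOn_const.mul c0).rexp).add
      (((continuousOn_const.mul cN).mul (continuousOn_const.mul c0).rexp).mul
        (c2.add (continuousOn_const.mul (c1.pow 2))))
  obtain ⟨K, sk, hsk, hsum⟩ := riemann_pos (by linarith) cH hpos
  set w : Fin K → ℝ := fun k => (cos (n * sk k / 2) - cos (n * σ / 2)) * dens n b N₀ (sk k) with hw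
  have hw0 : ∀ k, 0 ≤ w k := by
    intro k
    have h1 := hcos (sk k) (hsk k)
    have h2 : 0 ≤ dens n b N₀ (sk k) := by
      unfold dens
      positivity
    exact mul_nonneg (by linarith) h2
  have hsum2 : ∀ x, 0 < ∑ k, w k * tF n β (N x) (f (x, τ (sk k))) (f1 (x, τ (sk k)))
      (f2 (x, τ (sk k))) := by
    intro x
    refine lt_of_lt_of_eq (hsum x) (Finset.sum_congr rfl fun k _ => ?_)
    rw [hH, hw]
    dsimp only
    ring
  have hS : 0 < ∑ k, w k := by
    by_contra hcon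
    push Not at hcon
    have h1 : ∑ k, w k = 0 := le_antisymm hcon (Finset.sum_nonneg fun k _ => hw0 k)
    have h2 : ∀ k, w k = 0 := fun k =>
      (Finset.sum_eq_zero_iff_of_nonneg (fun k _ => hw0 k)).1 h1 k (Finset.mem_univ k)
    obtain ⟨x⟩ := (inferInstance : Nonempty M)
    have h3 := hsum2 x
    rw [Finset.sum_eq_zero fun k _ => by rw [h2 k, zero_mul]] at h3
    exact lt_irrefl _ h3
  refine ⟨K, fun k => τ (sk k), fun k => (∑ j, w j)⁻¹ * w k, fun k => hτm _ (hsk k),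
    fun k => mul_nonneg (inv_nonneg.2 hS.le) (hw0 k), ?_, fun x => ?_⟩
  · rw [← Finset.mul_sum, inv_mul_cancel₀ hS.ne']
  · have h1 := mul_pos (inv_pos.2 hS) (hsum2 x)
    rw [Finset.mul_sum] at h1
    refine lt_of_lt_of_eq h1 (Finset.sum_congr rfl fun k _ => ?_)
    ring


end Pool.Agent.Work.MP_2fa4be_gt
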